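import Mathlib

open Module Filter Topology

set_option linter.unusedSectionVars false
set_option linter.unusedVariables false

namespace Pool.Agent.EuclW

variable {E : Type*} [NormedAddCommGroup E] [NormedSpace ℝ E] [FiniteDimensional ℝ E]

/-- The largest real subspace contained in a subgroup. -/
def maxSub (G : AddSubgroup E) : Submodule ℝ E where
  carrier := {w | ∀ s : ℝ, s • w ∈ G}
  zero_mem' := fun s => by rw [smul_zero]; exact G.zero_mem
  add_mem' := fun {a b} ha hb s => by rw [smul_add]; exact G.add_mem (ha s) (hb s)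
  smul_mem' := fun c x hx s => by rw [smul_smul]; exact hx _

theorem mem_maxSub {G : AddSubgroup E} {w : E} : w ∈ maxSub G ↔ ∀ s : ℝ, s • w ∈ G := Iff.rfl

theorem maxSub_le {G : AddSubgroup E} {w : E} (h : w ∈ maxSub G) : w ∈ G := by
  have := h 1
  rwa [one_smul] at this

/-- small elements in closed subgroups produce lines -/
theorem exists_line_of_small {G : AddSubgroup E} (hG : IsClosed (G : Set E))
    (h : ∀ ε > 0, ∃ g ∈ G, g ≠ 0 ∧ ‖g‖ < ε) : ∃ w ∈ maxSub G, w ≠ 0 := by
  choose g hgG hg0 hgs using fun n : ℕ => h (1 / ((n:ℝ) + 1)) (by positivity)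
  have hgpos : ∀ n, 0 < ‖g n‖ := fun n => norm_pos_iff.2 (hg0 n)
  set e : ℕ → E := fun n => (‖g n‖)⁻¹ • g n with he
  have hen : ∀ n, ‖e n‖ = 1 := by
    intro n
    rw [he]; simp only
    rw [norm_smul, norm_inv, norm_norm, inv_mul_cancel₀ (hgpos n).ne']
  obtain ⟨w, hw, φ, hφ, hlim⟩ := tendsto_subseq_of_bounded
    (Metric.isBounded_closedBall (x := (0 : E)) (r := 1)) (x := e) (fun n => by
    rw [mem_closedBall_zero_iff, hen n])
  have hwn : ‖w‖ = 1 := by
    have h1 : Tendsto (fun n => ‖(e ∘ φ) n‖) atTop (𝓝 ‖w‖) := hlim.norm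
    have h2 : Tendsto (fun n => ‖(e ∘ φ) n‖) atTop (𝓝 1) := by
      simp only [Function.comp, hen]; exact tendsto_const_nhds
    exact tendsto_nhds_unique h1 h2
  have hg0' : Tendsto (fun n => ‖g (φ n)‖) atTop (𝓝 0) := by
    have h6 : Tendsto (fun n : ℕ => 1 / (((φ n : ℕ) : ℝ) + 1)) atTop (𝓝 0) :=
      tendsto_one_div_add_atTop_nhds_zero_nat.comp hφ.tendsto_atTop
    exact squeeze_zero (fun n => norm_nonneg _) (fun n => (hgs (φ n)).le) h6
  refine ⟨w, fun s => ?_, fun h0 => by rw [h0, norm_zero] at hwn; exact one_ne_zero hwn.symm⟩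
  have h1 : Tendsto (fun n => ⌊s / ‖g (φ n)‖⌋ • g (φ n)) atTop (𝓝 (s • w)) := by
    have h2 : Tendsto (fun n => s • e (φ n)) atTop (𝓝 (s • w)) := hlim.const_smul s
    have h3 : Tendsto (fun n => ⌊s / ‖g (φ n)‖⌋ • g (φ n) - s • e (φ n)) atTop (𝓝 0) := by
      apply squeeze_zero_norm _ hg0'
      intro n
      have h4 : ⌊s / ‖g (φ n)‖⌋ • g (φ n) - s • e (φ n)
          = (((⌊s / ‖g (φ n)‖⌋ : ℤ) : ℝ) - s / ‖g (φ n)‖) • g (φ n) := by
        rw [sub_smul, he]; simp only
        rw [smul_smul, div_eq_mul_inv, Int.cast_smul_eq_zsmul]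
      rw [h4, norm_smul]
      have h5 : ‖((⌊s / ‖g (φ n)‖⌋ : ℤ) : ℝ) - s / ‖g (φ n)‖‖ ≤ 1 := by
        rw [Real.norm_eq_abs, abs_le]
        have := Int.floor_le (s / ‖g (φ n)‖)
        have := Int.lt_floor_add_one (s / ‖g (φ n)‖)
        constructor <;> linarith
      exact mul_le_of_le_one_left (norm_nonneg _) h5
    have := h3.add h2
    simpa using this
  exact hG.mem_of_tendsto h1 (Eventually.of_forall fun n => G.zsmul_mem (hgG _) _)

/-- closed subgroups without lines are discrete -/
theorem discrete_of_no_line {G : AddSubgroup E} (hG : IsClosed (G : Set E)) (h : maxSub G = ⊥) :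
    DiscreteTopology G := by
  obtain ⟨ε, hε, H⟩ : ∃ ε > 0, ∀ g ∈ G, ‖g‖ < ε → g = 0 := by
    by_contra hcon
    push Not at hcon
    obtain ⟨w, hw, hw0⟩ := exists_line_of_small hG (fun ε hε => by
      obtain ⟨g, h1, h2, h3⟩ := hcon ε hε
      exact ⟨g, h1, h3, h2⟩)
    rw [h, Submodule.mem_bot] at hw
    exact hw0 hw
  apply discreteTopology_of_isOpen_singleton_zero
  rw [Metric.isOpen_iff]
  rintro x hx
  refine ⟨ε, hε, fun y hy => ?_⟩
  rw [Set.mem_singleton_iff] at hx ⊢
  rw [hx, Metric.mem_ball, Subtype.dist_eq, dist_eq_norm] at hy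
  have h1 : ‖(y : E)‖ < ε := by simpa using hy
  exact Subtype.ext (H _ y.2 h1)

variable (Λ : Submodule ℤ E) [DiscreteTopology Λ] [IsZLattice ℝ Λ]

/-- Structure of closed subgroups containing a lattice. -/
theorem struct {G : AddSubgroup E} (hG : IsClosed (G : Set E)) (hΛ : ∀ x ∈ Λ, x ∈ G) :
    Submodule.span ℝ {w : E | w ∈ Λ ∧ w ∈ maxSub G} = maxSub G ∧
    (maxSub G ≠ ⊤ → ∃ ℓ : E →ₗ[ℝ] ℝ, ℓ ≠ 0 ∧ ∀ g ∈ G, ∃ n : ℤ, ℓ g = n) := by
  set W := maxSub G with hW
  obtain ⟨W', hWW'⟩ := Submodule.exists_isCompl W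
  -- projection onto W' along W
  set π : E →ₗ[ℝ] W' := W'.projectionOnto W hWW'.symm with hπ
  have hπker : ∀ x, π x = 0 ↔ x ∈ W := by
    intro x
    rw [hπ]
    exact Submodule.projectionOnto_apply_eq_zero_iff hWW'.symm
  have hπid : ∀ x : W', π x = x := fun x => Submodule.projectionOnto_apply_left hWW'.symm x
  have hπG : ∀ g ∈ G, ((π g : W') : E) ∈ G := by
    intro g hg
    have h1 : g - (π g : E) ∈ W := by
      rw [← hπker, map_sub, hπid, sub_self]
    have h2 := G.sub_mem hg (maxSub_le h1)
    rwa [sub_sub_cancel] at h2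
  -- the discrete group
  set H : AddSubgroup W' := G.comap W'.subtype.toAddMonoidHom with hH
  have hHcl : IsClosed (H : Set W') := by
    have : (H : Set W') = (fun x : W' => (x : E)) ⁻¹' (G : Set E) := rfl
    rw [this]; exact hG.preimage continuous_subtype_val
  have hHline : maxSub H = ⊥ := by
    rw [eq_bot_iff]
    intro w hw
    have h1 : (w : E) ∈ W := fun s => hw s
    have h2 : π (w : E) = 0 := (hπker _).2 h1
    rw [hπid] at h2
    rw [Submodule.mem_bot]; exact h2
  have hHd : DiscreteTopology H := discrete_of_no_line hHcl hHline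
  set L : Submodule ℤ W' := AddSubgroup.toIntSubmodule H with hL
  have hLd : DiscreteTopology L := hHd
  have hπL : ∀ g ∈ G, π g ∈ L := fun g hg => hπG g hg
  have hLspan : Submodule.span ℝ (L : Set W') = ⊤ := by
    rw [eq_top_iff]
    have h1 : Submodule.map π (Submodule.span ℝ (Λ : Set E)) = ⊤ := by
      rw [IsZLattice.span_top]
      rw [Submodule.map_top, LinearMap.range_eq_top]
      intro x
      exact ⟨x, hπid x⟩
    rw [← h1, Submodule.map_span, Submodule.span_le]
    rintro _ ⟨x, hx, rfl⟩
    exact Submodule.subset_span (hπL x (hΛ x hx))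
  have hLz : IsZLattice ℝ L := ⟨hLspan⟩
  constructor
  · -- spanning
    apply Submodule.eq_of_le_of_finrank_le
    · rw [Submodule.span_le]; rintro x ⟨_, hx⟩; exact hx
    · -- the restricted projection
      set ψ : Λ →ₗ[ℤ] L :=
        ((π.restrictScalars ℤ).comp Λ.subtype).codRestrict L (fun x => hπL _ (hΛ _ x.2)) with hψ
      have hΛfin : Module.Finite ℤ Λ := ZLattice.module_finite ℝ Λ
      have h1 : finrank ℤ (LinearMap.range ψ) + finrank ℤ (LinearMap.ker ψ) = finrank ℤ Λ := by
        have e1 := Submodule.finrank_quotient_add_finrank (LinearMap.ker ψ)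
        rw [← e1, (LinearMap.quotKerEquivRange ψ).finrank_eq]
      have h2 : finrank ℤ Λ = finrank ℝ E := ZLattice.rank ℝ Λ
      have h3 : finrank ℤ L = finrank ℝ W' := ZLattice.rank ℝ L
      have hLfin : Module.Finite ℤ L := ZLattice.module_finite ℝ L
      have h4 : finrank ℤ (LinearMap.range ψ) ≤ finrank ℤ L := Submodule.finrank_le _
      have h5 : finrank ℝ W + finrank ℝ W' = finrank ℝ E := Submodule.finrank_add_eq_of_isCompl hWW'
      -- kernel
      have h6 : finrank ℤ (LinearMap.ker ψ) ≤
          finrank ℝ (Submodule.span ℝ {w : E | w ∈ Λ ∧ w ∈ W}) := by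
        set S := Submodule.span ℝ {w : E | w ∈ Λ ∧ w ∈ W} with hS
        set M : Submodule ℤ S := Submodule.comap (S.subtype.restrictScalars ℤ) Λ with hM
        have hMd : DiscreteTopology M := by
          have : Function.Injective (fun x : M => (⟨((x : S) : E), x.2⟩ : Λ)) := by
            intro x y hxy
            have := congrArg (fun z : Λ => (z : E)) hxy
            exact Subtype.ext (Subtype.ext this)
          exact DiscreteTopology.of_continuous_injective
            (Continuous.subtype_mk (continuous_subtype_val.comp continuous_subtype_val) _) this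
        have hMspan : Submodule.span ℝ (M : Set S) = ⊤ := by
          apply Submodule.map_injective_of_injective (f := S.subtype) Subtype.coe_injective
          rw [Submodule.map_span, Submodule.map_top, Submodule.range_subtype]
          apply le_antisymm
          · rw [Submodule.span_le]
            rintro _ ⟨x, _, rfl⟩
            exact x.2
          · refine Submodule.span_le.2 ?_
            intro w hw
            apply Submodule.subset_span
            exact ⟨⟨w, Submodule.subset_span hw⟩, hw.1, rfl⟩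
        have hMz : IsZLattice ℝ M := ⟨hMspan⟩
        have h7 : finrank ℤ M = finrank ℝ S := ZLattice.rank ℝ M
        rw [← h7]
        have hMfin : Module.Finite ℤ M := ZLattice.module_finite ℝ M
        -- injection of the kernel in M
        have hker : ∀ x : LinearMap.ker ψ, ((x : Λ) : E) ∈ {w : E | w ∈ Λ ∧ w ∈ W} := by
          intro x
          refine ⟨(x : Λ).2, ?_⟩
          have := x.2
          rw [LinearMap.mem_ker] at this
          have h8 := congrArg (fun z : L => (z : W')) this
          exact (hπker _).1 h8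
        let ι : LinearMap.ker ψ →ₗ[ℤ] M :=
          { toFun := fun x => ⟨⟨((x : Λ) : E), Submodule.subset_span (hker x)⟩, (x : Λ).2⟩
            map_add' := fun x y => rfl
            map_smul' := fun c x => rfl }
        refine LinearMap.finrank_le_finrank_of_injective (f := ι) ?_
        intro x y hxy
        have := congrArg (fun z : M => ((z : S) : E)) hxy
        exact Subtype.ext (Subtype.ext this)
      omega
  · intro hne
    have hne' : 0 < finrank ℝ W' := by
      have h5 : finrank ℝ W + finrank ℝ W' = finrank ℝ E := Submodule.finrank_add_eq_of_isCompl hWW'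
      have h6 : finrank ℝ W < finrank ℝ E := Submodule.finrank_lt hne
      omega
    have hLfin : Module.Finite ℤ L := ZLattice.module_finite ℝ L
    have hLfree : Module.Free ℤ L := ZLattice.module_free ℝ L
    set b := Module.Free.chooseBasis ℤ L with hb
    set b' := b.ofZLatticeBasis ℝ L with hb'
    have hι : Nonempty (Module.Free.ChooseBasisIndex ℤ L) := by
      by_contra hcon
      rw [not_nonempty_iff] at hcon
      have := Module.finrank_eq_card_basis b'
      rw [Fintype.card_eq_zero] at this
      omega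
    obtain ⟨i⟩ := hι
    refine ⟨(b'.coord i).comp π, ?_, ?_⟩
    · intro h0
      have h1 := LinearMap.congr_fun h0 ((b' i : W') : E)
      rw [LinearMap.comp_apply, hπid, Basis.coord_apply, Basis.repr_self] at h1
      simp at h1
    · intro g hg
      refine ⟨b.repr ⟨π g, hπL g hg⟩ i, ?_⟩
      rw [LinearMap.comp_apply, Basis.coord_apply, hb']
      have := b.ofZLatticeBasis_repr_apply ℝ L ⟨π g, hπL g hg⟩ i
      simpa using this

end Pool.Agent.EuclW
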