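import Pool.Agent.EuclW.U2
import Pool.Agent.EuclW.Str

open NumberField Module IsDedekindDomain nonZeroDivisors Filter Topology

set_option linter.unusedSectionVars false
set_option linter.unusedVariables false

namespace Pool.Agent.EuclW

variable {K : Type*} [Field K] [NumberField K]

/-- the lattice of integers inside `V0` -/
noncomputable def Lam (K : Type*) [Field K] [NumberField K] : Submodule ℤ (V0 K) where
  carrier := {z | ∃ q : 𝓞 K, (z : V K) = io (q : K)}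
  zero_mem' := ⟨0, by simp⟩
  add_mem' := by
    rintro x y ⟨q, hq⟩ ⟨r, hr⟩
    exact ⟨q + r, by push_cast; rw [hq, hr]; simp⟩
  smul_mem' := by
    rintro n x ⟨q, hq⟩
    refine ⟨n • q, ?_⟩
    have h1 : ((n • x : V0 K) : V K) = n • (x : V K) := rfl
    have h2 : ((n • q : 𝓞 K) : K) = n • (q : K) := by simp
    rw [h1, hq, h2, map_zsmul]

theorem discrete_of_gap {E : Type*} [NormedAddCommGroup E] {L : Submodule ℤ E} {ε : ℝ} (hε : 0 < ε)
    (h : ∀ x ∈ L, ‖x‖ < ε → x = 0) : DiscreteTopology L := by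
  have : DiscreteTopology L.toAddSubgroup := by
    apply discreteTopology_of_isOpen_singleton_zero
    rw [Metric.isOpen_iff]
    rintro x hx
    refine ⟨ε, hε, fun y hy => ?_⟩
    rw [Set.mem_singleton_iff] at hx ⊢
    rw [hx, Metric.mem_ball, Subtype.dist_eq, dist_eq_norm] at hy
    have h1 : ‖(y : E)‖ < ε := by simpa using hy
    exact Subtype.ext (h _ y.2 h1)
  exact this

instance Lam_discrete : DiscreteTopology (Lam K) := by
  apply discrete_of_gap (ε := 1) one_pos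
  rintro x ⟨q, hq⟩ hx
  have h1 : ‖(x : V K)‖ < 1 := hx
  have h2 : q = 0 := by
    apply eq_zero_of_small
    intro w
    rw [← hq]
    exact (norm_le_pi_norm _ w).trans_lt h1
  apply Subtype.ext
  rw [hq, h2]; simp

instance Lam_lattice : IsZLattice ℝ (Lam K) := by
  constructor
  apply Submodule.map_injective_of_injective (f := (V0 K).subtype) Subtype.coe_injective
  rw [Submodule.map_span, Submodule.map_top, Submodule.range_subtype]
  apply le_antisymm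
  · rw [Submodule.span_le]
    rintro _ ⟨x, _, rfl⟩
    exact x.2
  · conv_lhs => unfold V0
    rw [Submodule.span_le]
    rintro _ ⟨i, rfl⟩
    apply Submodule.subset_span
    exact ⟨⟨_, io_mem_V0 _⟩, ⟨_, rfl⟩, rfl⟩

/-- the subgroup `Λ + ℝ d` -/
def Ad (d : V K) : AddSubgroup (V0 K) where
  carrier := {z | ∃ (q : 𝓞 K) (s : ℝ), (z : V K) = io (q : K) + s • d}
  zero_mem' := ⟨0, 0, by simp⟩
  add_mem' := by
    rintro x y ⟨q, s, hq⟩ ⟨r, s', hr⟩
    refine ⟨q + r, s + s', ?_⟩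
    have h1 : ((x + y : V0 K) : V K) = (x : V K) + y := rfl
    have h2 : ((q + r : 𝓞 K) : K) = q + r := by simp
    rw [h1, hq, hr, h2, map_add, add_smul]; abel
  neg_mem' := by
    rintro x ⟨q, s, hq⟩
    refine ⟨-q, -s, ?_⟩
    have h1 : ((-x : V0 K) : V K) = -(x : V K) := rfl
    have h2 : ((-q : 𝓞 K) : K) = -q := by simp
    rw [h1, hq, h2, map_neg, neg_smul]; abel

theorem mem_closure_Ad {d : V K} {z : V0 K} (h : z ∈ (Ad d).topologicalClosure) {ε : ℝ} (hε : 0 < ε) :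
    ∃ (q : 𝓞 K) (s : ℝ), ‖(z : V K) - (io (q : K) + s • d)‖ < ε := by
  have h1 : z ∈ closure (Ad d : Set (V0 K)) := h
  rw [Metric.mem_closure_iff] at h1
  obtain ⟨b, ⟨q, s, hb⟩, hd⟩ := h1 ε hε
  refine ⟨q, s, ?_⟩
  rw [← hb]
  rw [dist_eq_norm] at hd
  exact hd

theorem scale_approx {d z : V K} {m : ℕ} (hm : 1 ≤ m)
    (h : ∀ ε > 0, ∃ (q : 𝓞 K) (s : ℝ), ‖((m:ℝ)⁻¹ • z) - (io (q : K) + s • d)‖ < ε) {ε : ℝ}
    (hε : 0 < ε) : ∃ (q : 𝓞 K) (s : ℝ), ‖z - (io ((m : K) * (q : K)) + s • d)‖ < ε := by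
  have hm0 : (0:ℝ) < m := by exact_mod_cast hm
  obtain ⟨q, s, hqs⟩ := h (ε / m) (by positivity)
  refine ⟨q, m * s, ?_⟩
  have h1 : z - (io ((m : K) * (q : K)) + ((m:ℝ) * s) • d)
      = (m:ℝ) • (((m:ℝ)⁻¹ • z) - (io (q : K) + s • d)) := by
    have h2 : io ((m : K) * (q : K)) = (m:ℝ) • io (q:K) := by
      rw [map_mul, map_natCast]
      ext w
      simp
    rw [h2, smul_sub, smul_add, smul_smul, smul_smul, mul_inv_cancel₀ hm0.ne', one_smul]
  rw [h1, norm_smul, Real.norm_eq_abs, abs_of_pos hm0]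
  rw [lt_div_iff₀ hm0] at hqs
  linarith

theorem Lam_le_Ad {d : V K} : ∀ x ∈ Lam K, x ∈ (Ad d).topologicalClosure := by
  rintro x ⟨q, hq⟩
  apply (Ad d).le_topologicalClosure
  exact ⟨q, 0, by rw [hq, zero_smul, add_zero]⟩

theorem line_mem_Ad {d : V K} (hd : d ∈ V0 K) (s : ℝ) :
    s • (⟨d, hd⟩ : V0 K) ∈ (Ad d).topologicalClosure := by
  apply (Ad d).le_topologicalClosure
  exact ⟨0, s, by simp⟩

/-- rational point in the closure of a line modulo the lattice -/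
theorem line_case {d : V K} (hd : d ∈ V0 K) (hd0 : d ≠ 0) : ∃ q0 : 𝓞 K, q0 ≠ 0 ∧ ∀ m : ℕ, 1 ≤ m →
    ∀ r : ℝ, ∀ ε > 0, ∃ (q : 𝓞 K) (s : ℝ), ‖r • io (q0 : K) - (io ((m : K) * (q : K)) + s • d)‖ < ε := by
  set G := (Ad d).topologicalClosure with hG
  have hGc : IsClosed (G : Set (V0 K)) := AddSubgroup.isClosed_topologicalClosure _
  obtain ⟨h1, _⟩ := struct (Lam K) hGc Lam_le_Ad
  have hdW : (⟨d, hd⟩ : V0 K) ∈ maxSub G := fun s => line_mem_Ad hd s
  obtain ⟨w, hw, hw0⟩ : ∃ w : V0 K, (w ∈ Lam K ∧ w ∈ maxSub G) ∧ w ≠ 0 := by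
    by_contra hcon
    push Not at hcon
    have h2 : Submodule.span ℝ {w : V0 K | w ∈ Lam K ∧ w ∈ maxSub G} ≤ ⊥ := by
      rw [Submodule.span_le]
      intro w hw
      exact hcon w hw
    rw [h1] at h2
    have h3 := h2 hdW
    rw [Submodule.mem_bot] at h3
    exact hd0 (congrArg Subtype.val h3)
  obtain ⟨⟨q0, hq0⟩, hwW⟩ := hw
  refine ⟨q0, ?_, fun m hm r ε hε => ?_⟩
  · rintro rfl
    apply hw0
    apply Subtype.ext
    rw [hq0]; simp
  · apply scale_approx hm _ hε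
    intro ε' hε'
    have h2 : (((m:ℝ)⁻¹ * r) • w) ∈ G := hwW _
    obtain ⟨q, s, hqs⟩ := mem_closure_Ad h2 hε'
    refine ⟨q, s, ?_⟩
    have h3 : ((((m:ℝ)⁻¹ * r) • w : V0 K) : V K) = (m:ℝ)⁻¹ • (r • io (q0:K)) := by
      rw [smul_smul, ← hq0]; rfl
    rw [← h3]; exact hqs

/-- functionals integral on the lattice -/
def Integral (ℓ : V0 K →ₗ[ℝ] ℝ) : Prop := ∀ q : 𝓞 K, ∃ n : ℤ, ℓ ⟨io (q:K), io_mem_V0 _⟩ = n

theorem dense_case {d : V K} (hd : d ∈ V0 K)
    (h : ∀ ℓ : V0 K →ₗ[ℝ] ℝ, ℓ ≠ 0 → Integral ℓ → ℓ ⟨d, hd⟩ ≠ 0) {m : ℕ} (hm : 1 ≤ m)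
    {z : V K} (hz : z ∈ V0 K) {ε : ℝ} (hε : 0 < ε) :
    ∃ (q : 𝓞 K) (s : ℝ), ‖z - (io ((m : K) * (q : K)) + s • d)‖ < ε := by
  set G := (Ad d).topologicalClosure with hG
  have hGc : IsClosed (G : Set (V0 K)) := AddSubgroup.isClosed_topologicalClosure _
  obtain ⟨_, h1⟩ := struct (Lam K) hGc Lam_le_Ad
  have htop : maxSub G = ⊤ := by
    by_contra hne
    obtain ⟨ℓ, hℓ0, hℓ⟩ := h1 hne
    have hI : Integral ℓ := fun q => hℓ _ (Lam_le_Ad _ ⟨q, rfl⟩)
    have h2 := h ℓ hℓ0 hI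
    obtain ⟨n, hn⟩ := hℓ _ (line_mem_Ad hd (1 / (2 * ℓ ⟨d, hd⟩)))
    rw [map_smul, smul_eq_mul] at hn
    have h3 : (1:ℝ) / 2 = n := by
      rw [← hn]; field_simp
    have h4 : ((2 * n : ℤ) : ℝ) = ((1 : ℤ) : ℝ) := by push_cast; linarith
    have h5 : 2 * n = 1 := by exact_mod_cast h4
    omega
  apply scale_approx hm _ hε
  intro ε' hε'
  have h2 : ((m:ℝ)⁻¹ • (⟨z, hz⟩ : V0 K)) ∈ G := by
    apply maxSub_le
    rw [htop]; trivial
  exact mem_closure_Ad h2 hε'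

open Classical in
/-- vectors on a coordinate axis -/
noncomputable def ax (j : InfinitePlace K) (y : ℂ) : V K := Pi.single j y

theorem ax_same (j : InfinitePlace K) (y : ℂ) : ax j y j = y := by
  classical
  unfold ax; exact Pi.single_eq_same _ _

theorem ax_ne {j w : InfinitePlace K} (h : w ≠ j) (y : ℂ) : ax j y w = 0 := by
  classical
  unfold ax; exact Pi.single_eq_of_ne h _

theorem ax_add (j : InfinitePlace K) (y z : ℂ) : ax j (y + z) = ax j y + ax j z := by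
  ext w
  by_cases h : w = j
  · subst h; simp [ax_same]
  · simp [ax_ne h]

theorem ax_smul (j : InfinitePlace K) (s : ℝ) (z : ℂ) : ax j ((s:ℂ) * z) = s • ax j z := by
  ext w
  by_cases h : w = j
  · subst h; simp [ax_same]
  · simp [ax_ne h]

theorem mul_ax (j : InfinitePlace K) (z : V K) (y : ℂ) : z * ax j y = ax j (z j * y) := by
  ext w
  by_cases h : w = j
  · subst h; simp [ax_same]
  · simp [ax_ne h]

theorem norm_ax (j : InfinitePlace K) (y : ℂ) : ‖(ax j y : V K)‖ = ‖y‖ := by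
  apply le_antisymm
  · rw [pi_norm_le_iff_of_nonneg (norm_nonneg _)]
    intro w
    by_cases h : w = j
    · subst h; rw [ax_same]
    · rw [ax_ne h, norm_zero]; exact norm_nonneg _
  · have := norm_le_pi_norm (ax j y : V K) j
    rwa [ax_same] at this

theorem eq_ax {j : InfinitePlace K} {z : V K} (h : ∀ w, w ≠ j → z w = 0) : z = ax j (z j) := by
  ext w
  by_cases hw : w = j
  · subst hw; rw [ax_same]
  · rw [ax_ne hw, h w hw]

theorem continuous_ax (j : InfinitePlace K) : Continuous (ax j : ℂ → V K) := by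
  rw [continuous_pi_iff]
  intro w
  by_cases h : w = j
  · subst h; simp only [ax_same]; exact continuous_id
  · simp only [ax_ne h]; exact continuous_const

/-- integral functionals do not vanish on a complex coordinate line -/
theorem integral_ne (hK : 1 ≤ Units.rank K) {j : InfinitePlace K} {ℓ : V0 K →ₗ[ℝ] ℝ}
    (hI : Integral ℓ) (h : ∀ (y : ℂ) (hy : ax j y ∈ V0 K), ℓ ⟨ax j y, hy⟩ = 0)
    (hax : ∀ y : ℂ, (ax j y : V K) ∈ V0 K) : ℓ = 0 := by
  obtain ⟨c, hc1, hc2⟩ := exists_contr j hK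
  have hcont : Continuous ℓ := LinearMap.continuous_of_finiteDimensional ℓ
  have key : ∀ q : 𝓞 K, ∀ᶠ k : ℕ in atTop,
      ℓ ⟨io ((c ^ k : (𝓞 K)ˣ) : K) * io (q:K), io_mul_mem_V0 _ (io_mem_V0 _)⟩ = 0 := by
    intro q
    have hint : ∀ k : ℕ, ∃ n : ℤ,
        ℓ ⟨io ((c ^ k : (𝓞 K)ˣ) : K) * io (q:K), io_mul_mem_V0 _ (io_mem_V0 _)⟩ = n := by
      intro k
      obtain ⟨n, hn⟩ := hI (((c ^ k : (𝓞 K)ˣ) : 𝓞 K) * q)
      refine ⟨n, ?_⟩
      rw [← hn]
      congr 2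
      rw [← map_mul]; simp
    set D : ℕ → V0 K := fun k => ⟨io ((c ^ k : (𝓞 K)ˣ) : K) * io (q:K) -
      ax j (io ((c ^ k : (𝓞 K)ˣ) : K) j * io (q:K) j),
      Submodule.sub_mem _ (io_mul_mem_V0 _ (io_mem_V0 _)) (hax _)⟩ with hD
    have hDℓ : ∀ k, ℓ (D k) = ℓ ⟨io ((c ^ k : (𝓞 K)ˣ) : K) * io (q:K), io_mul_mem_V0 _ (io_mem_V0 _)⟩ := by
      intro k
      have : D k = ⟨io ((c ^ k : (𝓞 K)ˣ) : K) * io (q:K), io_mul_mem_V0 _ (io_mem_V0 _)⟩ -
          ⟨ax j (io ((c ^ k : (𝓞 K)ˣ) : K) j * io (q:K) j), hax _⟩ := rfl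
      rw [this, map_sub, h, sub_zero]
    have hDlim : Tendsto D atTop (𝓝 0) := by
      rw [tendsto_subtype_rng]
      rw [tendsto_pi_nhds]
      intro w
      by_cases hw : w = j
      · subst hw
        have : ∀ k, (D k : V K) w = 0 := by
          intro k
          change (io ((c ^ k : (𝓞 K)ˣ) : K) * io (q:K)) w -
            ax w (io ((c ^ k : (𝓞 K)ˣ) : K) w * io (q:K) w) w = 0
          rw [ax_same, Pi.mul_apply, sub_self]
        simp only [this]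
        exact tendsto_const_nhds
      · have : ∀ k, (D k : V K) w = (io (c:K) w) ^ k * io (q:K) w := by
          intro k
          change (io ((c ^ k : (𝓞 K)ˣ) : K) * io (q:K)) w -
            ax j (io ((c ^ k : (𝓞 K)ˣ) : K) j * io (q:K) j) w = _
          rw [ax_ne hw, Pi.mul_apply, sub_zero, io_pow_apply]
        simp only [this]
        have h1 := (tendsto_pow_atTop_nhds_zero_of_norm_lt_one (hc1 w hw)).mul_const (io (q:K) w)
        rw [zero_mul] at h1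
        exact h1
    have h1 : Tendsto (fun k => ℓ (D k)) atTop (𝓝 0) := by
      have := (hcont.tendsto 0).comp hDlim
      rw [map_zero] at this
      exact this
    have h2 := h1.eventually (Metric.ball_mem_nhds (0:ℝ) (by norm_num : (0:ℝ) < 1/2))
    filter_upwards [h2] with k hk
    rw [hDℓ k] at hk
    obtain ⟨n, hn⟩ := hint k
    rw [hn] at hk ⊢
    rw [dist_zero_right, Real.norm_eq_abs] at hk
    have h3 : |n| < 1 := by
      have : ((|n| : ℤ) : ℝ) < 1 := by push_cast; linarith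
      exact_mod_cast this
    have : n = 0 := Int.abs_lt_one_iff.1 h3
    rw [this]; simp
  have hall : ∀ᶠ k : ℕ in atTop, ∀ i, ℓ ⟨io ((c ^ k : (𝓞 K)ˣ) : K) *
      io ((RingOfIntegers.basis K i : 𝓞 K) : K), io_mul_mem_V0 _ (io_mem_V0 _)⟩ = 0 := by
    rw [eventually_all]
    intro i
    exact key _
  obtain ⟨k, hk⟩ := hall.exists
  have h5 : ∀ y : V K, ∀ hy : y ∈ V0 K, ℓ ⟨io ((c ^ k : (𝓞 K)ˣ) : K) * y, io_mul_mem_V0 _ hy⟩ = 0 := by
    intro y hy
    have hy' := hy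
    unfold V0 at hy'
    rw [Submodule.mem_span_range_iff_exists_fun] at hy'
    obtain ⟨cf, hcf⟩ := hy'
    have h6 : (⟨io ((c ^ k : (𝓞 K)ˣ) : K) * y, io_mul_mem_V0 _ hy⟩ : V0 K) =
        ∑ i, cf i • (⟨io ((c ^ k : (𝓞 K)ˣ) : K) *
      io ((RingOfIntegers.basis K i : 𝓞 K) : K), io_mul_mem_V0 _ (io_mem_V0 _)⟩ : V0 K) := by
      apply Subtype.ext
      rw [Submodule.coe_sum]
      simp only [Submodule.coe_smul]
      rw [← hcf, Finset.mul_sum]
      refine Finset.sum_congr rfl fun i _ => ?_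
      rw [mul_smul_comm]
    rw [h6, map_sum]
    refine Finset.sum_eq_zero fun i _ => ?_
    rw [map_smul, hk i, smul_zero]
  ext ⟨z, hz⟩
  have h7 := h5 (io (((c ^ k)⁻¹ : (𝓞 K)ˣ) : K) * z) (io_mul_mem_V0 _ hz)
  have h8 : io ((c ^ k : (𝓞 K)ˣ) : K) * (io (((c ^ k)⁻¹ : (𝓞 K)ˣ) : K) * z) = z := by
    rw [← mul_assoc, ← map_mul, ← unit_mul_coe, mul_inv_cancel]
    simp
  simp only [h8] at h7
  rw [h7]; rfl

/-- a direction avoiding all integral functionals -/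
theorem exists_generic (hK : 1 ≤ Units.rank K) {j : InfinitePlace K}
    (hax : ∀ y : ℂ, (ax j y : V K) ∈ V0 K) :
    ∃ r : ℝ, ∀ ℓ : V0 K →ₗ[ℝ] ℝ, ℓ ≠ 0 → Integral ℓ → ℓ ⟨ax j (1 + r * Complex.I), hax _⟩ ≠ 0 := by
  set I : Set (V0 K →ₗ[ℝ] ℝ) := {ℓ | Integral ℓ} with hI
  have hIc : I.Countable := by
    have : Countable I := by
      have hex : ∀ ℓ : I, ∀ i, ∃ n : ℤ, (ℓ : V0 K →ₗ[ℝ] ℝ)
          ⟨io ((RingOfIntegers.basis K i : 𝓞 K) : K), io_mem_V0 _⟩ = n := fun ℓ i => ℓ.2 _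
      choose f hf using hex
      apply Function.Injective.countable (f := f)
      intro ℓ ℓ' hℓ
      apply Subtype.ext
      ext ⟨z, hz⟩
      have hz' := hz
      unfold V0 at hz'
      rw [Submodule.mem_span_range_iff_exists_fun] at hz'
      obtain ⟨cf, hcf⟩ := hz'
      have h6 : (⟨z, hz⟩ : V0 K) =
          ∑ i, cf i • (⟨io ((RingOfIntegers.basis K i : 𝓞 K) : K), io_mem_V0 _⟩ : V0 K) := by
        apply Subtype.ext
        rw [Submodule.coe_sum]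
        simp only [Submodule.coe_smul]
        exact hcf.symm
      rw [h6, map_sum, map_sum]
      refine Finset.sum_congr rfl fun i _ => ?_
      rw [map_smul, map_smul, hf, hf, hℓ]
    exact this
  set Bad : (V0 K →ₗ[ℝ] ℝ) → Set ℝ := fun ℓ => {r : ℝ | ℓ ≠ 0 ∧ Integral ℓ ∧
    ℓ ⟨ax j (1 + r * Complex.I), hax _⟩ = 0} with hBad
  have hlin : ∀ (ℓ : V0 K →ₗ[ℝ] ℝ) (a b : ℝ), ℓ ⟨ax j (a + b * Complex.I), hax _⟩ =
      a * ℓ ⟨ax j 1, hax _⟩ + b * ℓ ⟨ax j Complex.I, hax _⟩ := by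
    intro ℓ a b
    have : (⟨ax j (a + b * Complex.I), hax _⟩ : V0 K) = a • ⟨ax j 1, hax _⟩ + b • ⟨ax j Complex.I, hax _⟩ := by
      apply Subtype.ext
      change ax j (a + b * Complex.I) = a • ax j 1 + b • ax j Complex.I
      rw [ax_add, ← ax_smul, ← ax_smul, mul_one]
    rw [this, map_add, map_smul, map_smul, smul_eq_mul, smul_eq_mul]
  have hsub : ∀ ℓ, (Bad ℓ).Subsingleton := by
    rintro ℓ r ⟨h0, h1, h2⟩ r' ⟨_, _, h3⟩
    have e2 := hlin ℓ 1 r
    have e3 := hlin ℓ 1 r'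
    rw [Complex.ofReal_one] at e2 e3
    rw [h2] at e2
    rw [h3] at e3
    by_contra hne
    have e4 : (r - r') * ℓ ⟨ax j Complex.I, hax _⟩ = 0 := by linarith
    have e5 : ℓ ⟨ax j Complex.I, hax _⟩ = 0 := by
      rcases mul_eq_zero.1 e4 with h | h
      · exact absurd (sub_eq_zero.1 h) hne
      · exact h
    have e6 : ℓ ⟨ax j 1, hax _⟩ = 0 := by rw [e5] at e2; linarith
    apply h0
    apply integral_ne hK h1 _ hax
    intro y hy
    have := hlin ℓ y.re y.im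
    rw [Complex.re_add_im] at this
    rw [this, e5, e6]; ring
  have hcount : (⋃ ℓ ∈ I, Bad ℓ).Countable :=
    hIc.biUnion fun ℓ _ => (hsub ℓ).countable
  obtain ⟨r, hr⟩ : ∃ r : ℝ, r ∉ ⋃ ℓ ∈ I, Bad ℓ := by
    by_contra hcon
    push Not at hcon
    have : (⋃ ℓ ∈ I, Bad ℓ) = Set.univ := Set.eq_univ_of_forall hcon
    rw [this] at hcount
    exact Set.not_countable_univ hcount
  refine ⟨r, fun ℓ h0 h1 h2 => hr ?_⟩
  rw [Set.mem_iUnion₂]
  exact ⟨ℓ, h1, h0, h1, h2⟩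

end Pool.Agent.EuclW
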