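import Pool.Agent.EuclW.Ax

open NumberField Module IsDedekindDomain nonZeroDivisors Filter Topology

set_option linter.unusedSectionVars false
set_option linter.unusedVariables false

namespace Pool.Agent.EuclW

variable {K : Type*} [Field K] [NumberField K]

theorem pow_bound (h : ℂ) (l : ℕ) :
    ‖(1 + h) ^ l - 1 - l * h‖ ≤ (1 + ‖h‖) ^ l - 1 - l * ‖h‖ := by
  induction l with
  | zero => simp
  | succ n ih =>
    have e1 : (1 + h) ^ (n+1) - 1 - ((n+1 : ℕ) : ℂ) * h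
        = (1 + h) * ((1 + h) ^ n - 1 - n * h) + n * h ^ 2 := by
      push_cast; ring
    have e2 : (1 + ‖h‖) ^ (n+1) - 1 - ((n+1 : ℕ) : ℝ) * ‖h‖
        = (1 + ‖h‖) * ((1 + ‖h‖) ^ n - 1 - n * ‖h‖) + n * ‖h‖ ^ 2 := by
      push_cast; ring
    rw [e1, e2]
    refine (norm_add_le _ _).trans (add_le_add ?_ ?_)
    · rw [norm_mul]
      apply mul_le_mul _ ih (norm_nonneg _) (by positivity)
      have := norm_add_le (1:ℂ) h
      rwa [norm_one] at this
    · rw [norm_mul, norm_pow, Complex.norm_natCast]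

theorem pow_bound' {h : ℂ} {l : ℕ} (hl : l * ‖h‖ ≤ 1) :
    ‖(1 + h) ^ l - 1 - l * h‖ ≤ (l * ‖h‖) ^ 2 := by
  refine (pow_bound h l).trans ?_
  have h1 : (1 + ‖h‖) ^ l ≤ Real.exp (l * ‖h‖) := by
    have : 1 + ‖h‖ ≤ Real.exp ‖h‖ := by linarith [Real.add_one_le_exp ‖h‖]
    calc (1 + ‖h‖) ^ l ≤ (Real.exp ‖h‖) ^ l := pow_le_pow_left₀ (by positivity) this _
      _ = Real.exp (l * ‖h‖) := by rw [← Real.exp_nat_mul]
  have h0 : 0 ≤ l * ‖h‖ := by positivity
  have h2 := Real.abs_exp_sub_one_sub_id_le (x := l * ‖h‖) (by rw [abs_of_nonneg h0]; exact hl)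
  have h3 := le_abs_self (Real.exp (l * ‖h‖) - 1 - l * ‖h‖)
  linarith

theorem seg {S : Set (V K)} (hS : IsClosed S) {m : ℕ}
    (hΛ : ∀ z ∈ S, ∀ q : 𝓞 K, z + io ((m : K) * (q : K)) ∈ S) {H : Subgroup (𝓞 K)ˣ}
    (hHS : ∀ u ∈ H, ∀ z ∈ S, io ((u : (𝓞 K)ˣ) : K) * z ∈ S) {j : InfinitePlace K} {y : ℕ → ℂ}
    (hy : Tendsto (fun n => ‖y n‖) atTop atTop) (hyS : ∀ n, ax j (y n) ∈ S) {p : ℕ → 𝓞 K} {P : V K}
    (hP : Tendsto (fun n => ax j (y n) - io ((m : K) * (p n : K))) atTop (𝓝 P)) {ψ e : ℂ}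
    (hψ : Tendsto (fun n => y n / (‖y n‖ : ℂ)) atTop (𝓝 ψ)) {η : ℕ → (𝓞 K)ˣ} (hη : ∀ n, η n ∈ H)
    {h : ℕ → ℂ} (hh : ∀ n, io (η n : K) j = 1 + h n) (hh0 : ∀ n, h n ≠ 0)
    (hhlim : Tendsto h atTop (𝓝 0)) (he : Tendsto (fun n => h n / (‖h n‖ : ℂ)) atTop (𝓝 e))
    {s : ℝ} (hs : 0 ≤ s) : P + ax j (s * (e * ψ)) ∈ S := by
  -- choose k n
  have hk : ∀ n : ℕ, ∃ k : ℕ, n ≤ k ∧ ‖h k‖ * ‖y n‖ ≤ 1 / ((n:ℝ) + 1) := by
    intro n
    have h1 : Tendsto (fun k => ‖h k‖ * ‖y n‖) atTop (𝓝 0) := by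
      have := hhlim.norm.mul_const ‖y n‖
      rwa [norm_zero, zero_mul] at this
    have h2 := h1.eventually_le_const (by positivity : (0:ℝ) < 1 / ((n:ℝ) + 1))
    obtain ⟨k, hk1, hk2⟩ := (h2.and (eventually_ge_atTop n)).exists
    exact ⟨k, hk2, hk1⟩
  choose k hk1 hk2 using hk
  have hktend : Tendsto k atTop atTop := tendsto_atTop_mono hk1 tendsto_id
  set l : ℕ → ℕ := fun n => ⌊s / (‖h (k n)‖ * ‖y n‖)⌋₊ with hl
  have hinv : Tendsto (fun n : ℕ => 1 / ((n:ℝ) + 1)) atTop (𝓝 0) :=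
    tendsto_one_div_add_atTop_nhds_zero_nat
  have hypos : ∀ᶠ n in atTop, 0 < ‖y n‖ := hy.eventually_gt_atTop 0
  have hhpos : ∀ n, 0 < ‖h n‖ := fun n => norm_pos_iff.2 (hh0 n)
  -- l ‖h‖ ‖y‖ → s
  have hlim1 : Tendsto (fun n => (l n : ℝ) * (‖h (k n)‖ * ‖y n‖)) atTop (𝓝 s) := by
    rw [tendsto_iff_norm_sub_tendsto_zero]
    apply squeeze_zero' (Eventually.of_forall fun n => norm_nonneg _) _ hinv
    filter_upwards [hypos] with n hn
    have hp : 0 < ‖h (k n)‖ * ‖y n‖ := mul_pos (hhpos _) hn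
    have h1 : (l n : ℝ) ≤ s / (‖h (k n)‖ * ‖y n‖) := Nat.floor_le (by positivity)
    have h2 : s / (‖h (k n)‖ * ‖y n‖) < l n + 1 := Nat.lt_floor_add_one _
    rw [le_div_iff₀ hp] at h1
    rw [div_lt_iff₀ hp] at h2
    have h3 := hk2 n
    rw [Real.norm_eq_abs, abs_le]
    constructor
    · nlinarith
    · have : (0:ℝ) ≤ 1 / ((n:ℝ) + 1) := by positivity
      linarith
  have hlle : ∀ᶠ n in atTop, (l n : ℝ) * ‖h (k n)‖ ≤ s / ‖y n‖ := by
    filter_upwards [hypos] with n hn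
    have hp : 0 < ‖h (k n)‖ * ‖y n‖ := mul_pos (hhpos _) hn
    have h1 : (l n : ℝ) ≤ s / (‖h (k n)‖ * ‖y n‖) := Nat.floor_le (by positivity)
    rw [le_div_iff₀ hp] at h1
    rw [le_div_iff₀ hn]; linarith
  -- main estimate
  have hX : Tendsto (fun n => y n * (1 + h (k n)) ^ (l n) - y n) atTop (𝓝 (s * (e * ψ))) := by
    have e1 : ∀ᶠ n in atTop, y n * (1 + h (k n)) ^ (l n) - y n
        = y n * ((1 + h (k n)) ^ (l n) - 1 - l n * h (k n)) +
          (((l n : ℝ) * (‖h (k n)‖ * ‖y n‖) : ℝ) : ℂ) * ((h (k n) / (‖h (k n)‖ : ℂ)) * (y n / (‖y n‖ : ℂ))) := by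
      filter_upwards [hypos] with n hn
      have h1 : (‖y n‖ : ℂ) ≠ 0 := by exact_mod_cast hn.ne'
      have h2 : (‖h (k n)‖ : ℂ) ≠ 0 := by exact_mod_cast (hhpos _).ne'
      push_cast
      field_simp
      ring
    rw [tendsto_congr' e1]
    have h2 : Tendsto (fun n => (((l n : ℝ) * (‖h (k n)‖ * ‖y n‖) : ℝ) : ℂ) *
        ((h (k n) / (‖h (k n)‖ : ℂ)) * (y n / (‖y n‖ : ℂ)))) atTop (𝓝 (s * (e * ψ))) := by
      apply Tendsto.mul
      · exact (Complex.continuous_ofReal.tendsto _).comp hlim1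
      · exact (he.comp hktend).mul hψ
    have h3 : Tendsto (fun n => y n * ((1 + h (k n)) ^ (l n) - 1 - l n * h (k n))) atTop (𝓝 0) := by
      rw [tendsto_zero_iff_norm_tendsto_zero]
      have h4 : Tendsto (fun n => s ^ 2 * (‖y n‖)⁻¹) atTop (𝓝 0) := by
        have := (tendsto_inv_atTop_zero.comp hy).const_mul (s ^ 2)
        rwa [mul_zero] at this
      apply squeeze_zero' (Eventually.of_forall fun n => norm_nonneg _) _ h4
      filter_upwards [hypos, hlle, hy.eventually_ge_atTop s] with n hn h5 h6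
      have h7 : (l n : ℝ) * ‖h (k n)‖ ≤ 1 := h5.trans ((div_le_one hn).2 h6)
      have h8 := pow_bound' h7
      rw [norm_mul]
      calc ‖y n‖ * ‖(1 + h (k n)) ^ l n - 1 - ↑(l n) * h (k n)‖
          ≤ ‖y n‖ * ((l n : ℝ) * ‖h (k n)‖) ^ 2 := mul_le_mul_of_nonneg_left h8 hn.le
        _ ≤ ‖y n‖ * (s / ‖y n‖) ^ 2 :=
            mul_le_mul_of_nonneg_left (pow_le_pow_left₀ (by positivity) h5 2) hn.le
        _ = s ^ 2 * (‖y n‖)⁻¹ := by field_simp
    have := h3.add h2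
    rwa [zero_add] at this
  have hfin : Tendsto (fun n => ax j (y n * (1 + h (k n)) ^ (l n)) - io ((m : K) * (p n : K))) atTop
      (𝓝 (P + ax j (s * (e * ψ)))) := by
    have h1 : ∀ n, ax j (y n * (1 + h (k n)) ^ (l n)) - io ((m : K) * (p n : K))
        = (ax j (y n) - io ((m : K) * (p n : K))) + ax j (y n * (1 + h (k n)) ^ (l n) - y n) := by
      intro n
      have : y n * (1 + h (k n)) ^ (l n) = y n + (y n * (1 + h (k n)) ^ (l n) - y n) := by ring
      conv_lhs => rw [this, ax_add]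
      abel
    simp only [h1]
    exact hP.add (((continuous_ax j).tendsto _).comp hX)
  refine hS.mem_of_tendsto hfin (Eventually.of_forall fun n => ?_)
  have h1 : io (((η (k n)) ^ (l n) : (𝓞 K)ˣ) : K) * ax j (y n) ∈ S :=
    hHS _ (H.pow_mem (hη _) _) _ (hyS n)
  rw [mul_ax, io_pow_apply, hh] at h1
  have h2 := hΛ _ h1 (-(p n))
  have h3 : io ((m : K) * ((-(p n) : 𝓞 K) : K)) = - io ((m : K) * (p n : K)) := by
    rw [← map_neg]; congr 1
    have : ((-(p n) : 𝓞 K) : K) = -(p n : K) := by simp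
    rw [this]; ring
  rw [h3, ← sub_eq_add_neg, mul_comm ((1 + h (k n)) ^ l n)] at h2
  exact h2

/-- Lemma A: infinite-argument place -/
theorem lemA (hK : 2 ≤ Units.rank K) {H : Subgroup (𝓞 K)ˣ} (hH : FE H) {j : InfinitePlace K}
    (hj : ¬ FA j) {S : Set (V K)} (hS : IsClosed S) {m : ℕ} (hm : 1 ≤ m)
    (hΛ : ∀ z ∈ S, ∀ q : 𝓞 K, z + io ((m : K) * (q : K)) ∈ S)
    (hHS : ∀ u ∈ H, ∀ z ∈ S, io ((u : (𝓞 K)ˣ) : K) * z ∈ S) {x : ℂ} (hx : x ≠ 0)
    (hxV : (ax j x : V K) ∈ V0 K) (hxS : ax j x ∈ S) {z : V K} (hz : z ∈ V0 K) : z ∈ S := by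
  have hK1 : 1 ≤ Units.rank K := by omega
  have hxn : 0 < ‖x‖ := norm_pos_iff.2 hx
  -- the complex axis is contained in V0
  have hax : ∀ y : ℂ, (ax j y : V K) ∈ V0 K := by
    obtain ⟨u, hu⟩ : ∃ u : (𝓞 K)ˣ, (io (u:K) j).im ≠ 0 := by
      by_contra hcon
      push Not at hcon
      apply hj
      refine ⟨2, by norm_num, fun u => ?_⟩
      have h1 : io (u:K) j = ((io (u:K) j).re : ℂ) := by
        apply Complex.ext
        · simp
        · simp [hcon u]
      have h2 : (io (u:K) j).re ≠ 0 := by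
        intro h0
        rw [h0] at h1
        have : 0 < ‖io (u:K) j‖ := by rw [norm_io, InfinitePlace.pos_iff]; exact unit_ne_zero u
        rw [h1] at this
        simp at this
      refine ⟨(io (u:K) j).re ^ 2, by positivity, ?_⟩
      conv_lhs => rw [h1]
      push_cast; rfl
    have hux : (ax j (io (u:K) j * x) : V K) ∈ V0 K := by
      rw [← mul_ax]; exact io_mul_mem_V0 _ hxV
    intro y
    set b : ℝ := (y / x).im / (io (u:K) j).im with hb
    set a : ℝ := (y / x).re - b * (io (u:K) j).re with ha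
    have h1 : y = (a:ℂ) * x + (b:ℂ) * (io (u:K) j * x) := by
      have h2 : y / x = a + b * io (u:K) j := by
        apply Complex.ext
        · simp [ha]
        · simp [hb, hu]
      rw [div_eq_iff hx] at h2
      rw [h2]; ring
    rw [h1, ax_add, ax_smul, ax_smul]
    exact Submodule.add_mem _ (Submodule.smul_mem _ _ hxV) (Submodule.smul_mem _ _ hux)
  -- generic direction
  obtain ⟨r, hr⟩ := exists_generic hK1 hax
  set θ0 : ℂ := 1 + r * Complex.I with hθ0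
  have hθ00 : θ0 ≠ 0 := by
    intro h0
    have := congrArg Complex.re h0
    simp [hθ0] at this
  have hθ0n : 0 < ‖θ0‖ := norm_pos_iff.2 hθ00
  set θ : ℂ := θ0 / ‖θ0‖ with hθ
  have hθn : ‖θ‖ = 1 := by rw [hθ, norm_div, Complex.norm_real, norm_norm, div_self hθ0n.ne']
  have hθgen : ∀ ℓ : V0 K →ₗ[ℝ] ℝ, ℓ ≠ 0 → Integral ℓ → ℓ ⟨ax j θ, hax _⟩ ≠ 0 := by
    intro ℓ h0 h1 h2
    apply hr ℓ h0 h1
    have h3 : (⟨ax j θ0, hax _⟩ : V0 K) = ‖θ0‖ • ⟨ax j θ, hax _⟩ := by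
      apply Subtype.ext
      change ax j θ0 = ‖θ0‖ • ax j θ
      rw [← ax_smul, hθ, mul_div_cancel₀]
      exact_mod_cast hθ0n.ne'
    rw [h3, map_smul, h2, smul_zero]
  -- near-one units
  choose η0 hη0H hη01 hη02 using fun n : ℕ => near_one hK hH j (by positivity : (0:ℝ) < 1 / ((n:ℝ) + 1))
  set h0 : ℕ → ℂ := fun n => io (η0 n : K) j - 1 with hh0def
  have hh0ne : ∀ n, h0 n ≠ 0 := fun n => sub_ne_zero.2 (hη01 n)
  have hh0pos : ∀ n, 0 < ‖h0 n‖ := fun n => norm_pos_iff.2 (hh0ne n)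
  have hh0lim : Tendsto h0 atTop (𝓝 0) := by
    rw [tendsto_zero_iff_norm_tendsto_zero]
    exact squeeze_zero (fun n => norm_nonneg _) (fun n => (hη02 n).le)
      tendsto_one_div_add_atTop_nhds_zero_nat
  obtain ⟨e, _, φ, hφ, he⟩ := tendsto_subseq_of_bounded
    (Metric.isBounded_closedBall (x := (0 : ℂ)) (r := 1))
    (x := fun n => h0 n / (‖h0 n‖ : ℂ)) (fun n => by
    rw [mem_closedBall_zero_iff, norm_div, Complex.norm_real, norm_norm, div_self (hh0pos n).ne'])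
  have hen : ‖e‖ = 1 := by
    have h1 := he.norm
    have h2 : ∀ n, ‖((fun n => h0 n / (‖h0 n‖ : ℂ)) ∘ φ) n‖ = 1 := by
      intro n
      simp only [Function.comp]
      rw [norm_div, Complex.norm_real, norm_norm, div_self (hh0pos _).ne']
    simp only [h2] at h1
    exact tendsto_nhds_unique h1 tendsto_const_nhds |>.symm ▸ rfl
  have he0 : e ≠ 0 := by
    intro h; rw [h, norm_zero] at hen; exact zero_ne_one hen
  -- directions
  set x1 : ℂ := x / ‖x‖ with hx1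
  have hx1n : ‖x1‖ = 1 := by rw [hx1, norm_div, Complex.norm_real, norm_norm, div_self hxn.ne']
  have hx10 : x1 ≠ 0 := by intro h; rw [h, norm_zero] at hx1n; exact zero_ne_one hx1n
  set θ' : ℂ := θ / (e * x1) with hθ'
  have hθ'n : ‖θ'‖ = 1 := by rw [hθ', norm_div, norm_mul, hθn, hen, hx1n]; norm_num
  choose a haH ha1 ha2 using fun n : ℕ => exists_dir hK1 hH hj hθ'n
    (by positivity : (0:ℝ) < 1 / ((n:ℝ) + 1)) ((n:ℝ) / ‖x‖)
  set y0 : ℕ → ℂ := fun n => io (a n : K) j * x with hy0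
  have hy0n : ∀ n : ℕ, (n:ℝ) < ‖y0 n‖ := by
    intro n
    have := ha1 n
    rw [div_lt_iff₀ hxn] at this
    rw [hy0]; simp only
    rw [norm_mul]; exact this
  have hy0lim : Tendsto (fun n => ‖y0 n‖) atTop atTop :=
    tendsto_atTop_mono (fun n => (hy0n n).le) tendsto_natCast_atTop_atTop
  have hy0S : ∀ n, ax j (y0 n) ∈ S := by
    intro n
    rw [hy0]; simp only
    rw [← mul_ax]; exact hHS _ (haH n) _ hxS
  have hdir : Tendsto (fun n => y0 n / (‖y0 n‖ : ℂ)) atTop (𝓝 (θ' * x1)) := by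
    have h1 : ∀ n, y0 n / (‖y0 n‖ : ℂ) = (io (a n : K) j / (‖io (a n : K) j‖ : ℂ)) * x1 := by
      intro n
      rw [hy0, hx1]; simp only
      rw [norm_mul]; push_cast
      rw [mul_div_mul_comm]
    simp only [h1]
    apply Tendsto.mul_const
    rw [tendsto_iff_norm_sub_tendsto_zero]
    exact squeeze_zero (fun n => norm_nonneg _) (fun n => (ha2 n).le)
      tendsto_one_div_add_atTop_nhds_zero_nat
  -- reduction modulo the lattice
  have hmR : (0:ℝ) < m := by exact_mod_cast hm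
  have hred : ∀ n, ∃ p : 𝓞 K, ‖ax j (y0 n) - io ((m : K) * (p : K))‖ ≤ m * cov K := by
    intro n
    obtain ⟨p, hp⟩ := exists_near (Submodule.smul_mem (V0 K) ((m:ℝ)⁻¹) (hax (y0 n)))
    refine ⟨p, ?_⟩
    have h2 : io ((m : K) * (p : K)) = (m:ℝ) • io (p:K) := by
      rw [map_mul, map_natCast]
      ext w
      simp
    have h1 : ax j (y0 n) - io ((m : K) * (p : K)) = (m:ℝ) • (((m:ℝ)⁻¹ • ax j (y0 n)) - io (p:K)) := by
      rw [h2, smul_sub, smul_smul, mul_inv_cancel₀ hmR.ne', one_smul]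
    rw [h1, norm_smul, Real.norm_eq_abs, abs_of_pos hmR]
    exact mul_le_mul_of_nonneg_left hp hmR.le
  choose p0 hp0 using hred
  obtain ⟨P, _, φ', hφ', hPlim⟩ := tendsto_subseq_of_bounded
    (Metric.isBounded_closedBall (x := (0 : V K)) (r := m * cov K))
    (x := fun n => ax j (y0 n) - io ((m : K) * (p0 n : K))) (fun n => by
    rw [mem_closedBall_zero_iff]; exact hp0 n)
  have hPV : P ∈ V0 K := (isClosed_V0 K).mem_of_tendsto hPlim (Eventually.of_forall fun n =>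
    Submodule.sub_mem _ (hax _) (io_mem_V0 _))
  have hprod : e * (θ' * x1) = θ := by rw [hθ']; field_simp
  -- both rays
  have hpos : ∀ s : ℝ, 0 ≤ s → P + ax j (s * θ) ∈ S := by
    intro s hs
    have := seg hS hΛ hHS (y := fun n => y0 (φ' n)) (hy0lim.comp hφ'.tendsto_atTop)
      (fun n => hy0S _) (p := fun n => p0 (φ' n)) hPlim (hdir.comp hφ'.tendsto_atTop)
      (η := fun n => η0 (φ n)) (fun n => hη0H _) (h := fun n => h0 (φ n))
      (fun n => by rw [hh0def]; simp) (fun n => hh0ne _) (hh0lim.comp hφ.tendsto_atTop) he hs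
    rwa [hprod] at this
  have hneg : ∀ s : ℝ, 0 ≤ s → P + ax j (s * (-θ)) ∈ S := by
    intro s hs
    set g : ℕ → ℂ := fun n => io (η0 (φ n) : K) j with hg
    have hg0 : ∀ n, g n ≠ 0 := by
      intro n h
      have : 0 < ‖io (η0 (φ n) : K) j‖ := by
        rw [norm_io, InfinitePlace.pos_iff]; exact unit_ne_zero _
      rw [hg] at h; simp only at h
      rw [h, norm_zero] at this
      exact lt_irrefl _ this
    have hginv : ∀ n, io (((η0 (φ n))⁻¹ : (𝓞 K)ˣ) : K) j = (g n)⁻¹ := by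
      intro n
      have h1 : (((η0 (φ n))⁻¹ : (𝓞 K)ˣ) : K) = (η0 (φ n) : K)⁻¹ := by simp
      rw [h1, io_apply, map_inv₀]; rfl
    have hgh : ∀ n, g n = 1 + h0 (φ n) := by intro n; rw [hg, hh0def]; simp
    have hg1 : Tendsto g atTop (𝓝 1) := by
      have := (hh0lim.comp hφ.tendsto_atTop).const_add (1:ℂ)
      rw [add_zero] at this
      refine this.congr fun n => ?_
      rw [hgh]; rfl
    set h' : ℕ → ℂ := fun n => (g n)⁻¹ - 1 with hh'
    have hh'eq : ∀ n, h' n = -(h0 (φ n)) * (g n)⁻¹ := by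
      intro n
      rw [hh']; simp only
      have := hg0 n
      field_simp
      rw [hgh]; ring
    have hh'0 : ∀ n, h' n ≠ 0 := by
      intro n
      rw [hh'eq]
      exact mul_ne_zero (neg_ne_zero.2 (hh0ne _)) (inv_ne_zero (hg0 n))
    have hginv1 : Tendsto (fun n => (g n)⁻¹) atTop (𝓝 1) := by
      have := hg1.inv₀ one_ne_zero
      rwa [inv_one] at this
    have hh'lim : Tendsto h' atTop (𝓝 0) := by
      have := hginv1.sub_const 1
      rwa [sub_self] at this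
    have hh'e : Tendsto (fun n => h' n / (‖h' n‖ : ℂ)) atTop (𝓝 (-e)) := by
      have h1 : ∀ n, h' n / (‖h' n‖ : ℂ) = -(h0 (φ n) / (‖h0 (φ n)‖ : ℂ)) *
          ((g n)⁻¹ / (‖(g n)⁻¹‖ : ℂ)) := by
        intro n
        rw [hh'eq, norm_mul, norm_neg]; push_cast
        rw [neg_mul, neg_div, mul_div_mul_comm, neg_mul]
      simp only [h1]
      have h2 : Tendsto (fun n => (g n)⁻¹ / (‖(g n)⁻¹‖ : ℂ)) atTop (𝓝 1) := by
        have h3 : Tendsto (fun n => ((‖(g n)⁻¹‖ : ℝ) : ℂ)) atTop (𝓝 ((1:ℝ) : ℂ)) := by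
          apply (Complex.continuous_ofReal.tendsto _).comp
          have := hginv1.norm
          rwa [norm_one] at this
        have h5 := hginv1.div h3 (by simp)
        rw [Complex.ofReal_one, div_one] at h5
        exact h5
      have := (he.neg).mul h2
      rwa [mul_one] at this
    have := seg hS hΛ hHS (y := fun n => y0 (φ' n)) (hy0lim.comp hφ'.tendsto_atTop)
      (fun n => hy0S _) (p := fun n => p0 (φ' n)) hPlim (hdir.comp hφ'.tendsto_atTop)
      (η := fun n => (η0 (φ n))⁻¹) (fun n => H.inv_mem (hη0H _)) (h := h')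
      (fun n => by rw [hginv, hh']; simp) hh'0 hh'lim hh'e hs
    rwa [neg_mul, hprod] at this
  have hall : ∀ s : ℝ, P + s • ax j θ ∈ S := by
    intro s
    rw [← ax_smul]
    rcases le_total 0 s with h | h
    · exact hpos s h
    · have := hneg (-s) (by linarith)
      push_cast at this
      rwa [neg_mul_neg] at this
  -- conclusion
  have hcl : z ∈ closure S := by
    rw [Metric.mem_closure_iff]
    intro ε hε
    obtain ⟨q, s, hqs⟩ := dense_case (hax θ) hθgen hm (Submodule.sub_mem _ hz hPV) hε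
    refine ⟨P + s • ax j θ + io ((m:K) * (q:K)), hΛ _ (hall s) q, ?_⟩
    rw [dist_eq_norm]
    refine lt_of_eq_of_lt ?_ hqs
    congr 1; abel
  rwa [hS.closure_eq] at hcl

end Pool.Agent.EuclW
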