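import Mathlib

open NumberField Module

set_option linter.unusedSectionVars false
set_option linter.unusedVariables false

namespace Pool.Agent.EuclW

variable (K : Type*) [Field K] [NumberField K]

/-- The ambient space: one complex coordinate for each infinite place. -/
abbrev V := InfinitePlace K → ℂ

variable {K}

/-- The diagonal embedding. -/
noncomputable def io : K →+* V K := RingHom.pi fun w => w.embedding

/-- The norm form. -/
noncomputable def nm (z : V K) : ℝ := ∏ w, ‖z w‖ ^ w.mult

theorem io_apply (x : K) (w : InfinitePlace K) : io x w = w.embedding x := rfl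

theorem norm_io (x : K) (w : InfinitePlace K) : ‖io x w‖ = w x := by
  rw [io_apply, InfinitePlace.norm_embedding_eq]

theorem nm_mul (z y : V K) : nm (z * y) = nm z * nm y := by
  simp [nm, Finset.prod_mul_distrib, mul_pow]

theorem nm_nonneg (z : V K) : 0 ≤ nm z := Finset.prod_nonneg fun w _ => by positivity

theorem continuous_nm : Continuous (nm : V K → ℝ) := by
  unfold nm; fun_prop

theorem nm_io (x : K) : nm (io x) = |(Algebra.norm ℚ x : ℝ)| := by
  have h := InfinitePlace.prod_eq_abs_norm x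
  simp only [nm, norm_io]
  rw [h]; simp

theorem nm_io_zero : nm (io (0:K)) = 0 := by
  rw [nm_io]; simp

theorem nm_io_pos {x : K} (hx : x ≠ 0) : 0 < nm (io x) := by
  rw [nm_io]
  have : Algebra.norm ℚ x ≠ 0 := Algebra.norm_ne_zero_iff.2 hx
  positivity

theorem nm_unit (u : (𝓞 K)ˣ) : nm (io (u : K)) = 1 := by
  rw [nm_io]
  have := NumberField.isUnit_iff_norm.1 u.isUnit
  have h2 : |(Algebra.norm ℚ (u : K))| = 1 := by
    rw [← this]; simp [RingOfIntegers.coe_norm]
  exact_mod_cast h2

theorem one_le_nm_int {q : 𝓞 K} (hq : q ≠ 0) : 1 ≤ nm (io (q : K)) := by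
  rw [nm_io]
  have h1 : (Algebra.norm ℤ q) ≠ 0 := Algebra.norm_ne_zero_iff.2 hq
  have h2 : (1:ℤ) ≤ |Algebra.norm ℤ q| := Int.one_le_abs h1
  have h3 : (Algebra.norm ℚ (q:K)) = ((Algebra.norm ℤ q : ℤ) : ℚ) := (Algebra.coe_norm_int q).symm
  rw [h3]
  exact_mod_cast h2

theorem nm_le_of_le {z : V K} {β : ℝ} (h : ∀ w, ‖z w‖ ≤ β) :
    nm z ≤ β ^ finrank ℚ K := by
  have h1 : nm z ≤ ∏ w : InfinitePlace K, β ^ w.mult :=
    Finset.prod_le_prod (fun w _ => by positivity) fun w _ =>
      pow_le_pow_left₀ (norm_nonneg _) (h w) _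
  refine h1.trans_eq ?_
  rw [Finset.prod_pow_eq_pow_sum, InfinitePlace.sum_mult_eq]

theorem eq_zero_of_small {q : 𝓞 K} (h : ∀ w, ‖io (q : K) w‖ < 1) : q = 0 := by
  by_contra hq
  have h1 := one_le_nm_int hq
  have : nm (io (q:K)) < 1 := by
    unfold nm
    calc ∏ w : InfinitePlace K, ‖io (q:K) w‖ ^ w.mult < ∏ w : InfinitePlace K, (1:ℝ) := by
          apply Finset.prod_lt_prod_of_nonempty
          · intro w _
            have : io (q:K) w ≠ 0 := by
              rw [io_apply]
              simpa using hq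
            positivity
          · intro w _
            exact pow_lt_one₀ (norm_nonneg _) (h w) (InfinitePlace.mult_ne_zero)
          · exact Finset.univ_nonempty
      _ = 1 := by simp
  linarith

variable (K)

/-- The real span of the ring of integers. -/
noncomputable def V0 : Submodule ℝ (V K) :=
  Submodule.span ℝ (Set.range fun i => io ((RingOfIntegers.basis K i : 𝓞 K) : K))

/-- covering constant -/
noncomputable def cov : ℝ := ∑ i, ‖io ((RingOfIntegers.basis K i : 𝓞 K) : K)‖

theorem cov_nonneg : 0 ≤ cov K := Finset.sum_nonneg fun _ _ => norm_nonneg _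

theorem isClosed_V0 : IsClosed (V0 K : Set (V K)) := Submodule.closed_of_finiteDimensional _

variable {K}

theorem exists_near {z : V K} (hz : z ∈ V0 K) : ∃ q : 𝓞 K, ‖z - io (q : K)‖ ≤ cov K := by
  unfold V0 at hz
  rw [Submodule.mem_span_range_iff_exists_fun] at hz
  obtain ⟨c, rfl⟩ := hz
  refine ⟨∑ i, ⌊c i⌋ • RingOfIntegers.basis K i, ?_⟩
  have : io (((∑ i, ⌊c i⌋ • RingOfIntegers.basis K i : 𝓞 K)) : K)
      = ∑ i, (⌊c i⌋ : ℝ) • io ((RingOfIntegers.basis K i : 𝓞 K) : K) := by
    change io (algebraMap (𝓞 K) K (∑ i, ⌊c i⌋ • RingOfIntegers.basis K i)) = _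
    rw [map_sum, map_sum]
    refine Finset.sum_congr rfl fun i _ => ?_
    rw [zsmul_eq_mul, map_mul, map_mul]
    ext w
    simp
  rw [this, ← Finset.sum_sub_distrib]
  unfold cov
  refine (norm_sum_le _ _).trans (Finset.sum_le_sum fun i _ => ?_)
  rw [← sub_smul, norm_smul]
  have h1 : ‖c i - ⌊c i⌋‖ ≤ 1 := by
    rw [Real.norm_eq_abs, abs_le]
    have := Int.floor_le (c i); have := Int.lt_floor_add_one (c i)
    constructor <;> linarith
  exact mul_le_of_le_one_left (norm_nonneg _) h1

theorem io_mem_V0 (x : K) : io x ∈ V0 K := by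
  rw [← (integralBasis K).sum_repr x, map_sum]
  refine Submodule.sum_mem _ fun i _ => ?_
  have : io (((integralBasis K).repr x i) • (integralBasis K) i)
      = ((((integralBasis K).repr x i : ℚ)) : ℝ) • io ((RingOfIntegers.basis K i : 𝓞 K) : K) := by
    rw [integralBasis_apply, Algebra.smul_def, map_mul]
    ext w
    simp [io_apply]
  rw [this]
  exact Submodule.smul_mem _ _ (Submodule.subset_span ⟨i, rfl⟩)

theorem io_mul_mem_V0 (x : K) {z : V K} (hz : z ∈ V0 K) : io x * z ∈ V0 K := by
  unfold V0 at hz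
  induction hz using Submodule.span_induction with
  | mem y hy =>
    obtain ⟨i, rfl⟩ := hy
    simp only
    rw [← map_mul]; exact io_mem_V0 _
  | zero => rw [mul_zero]; exact Submodule.zero_mem _
  | add y y' _ _ h h' => rw [mul_add]; exact Submodule.add_mem _ h h'
  | smul a y _ h => rw [mul_smul_comm]; exact Submodule.smul_mem _ _ h

theorem norm_le_iff' {z : V K} {r : ℝ} (hr : 0 ≤ r) : ‖z‖ ≤ r ↔ ∀ w, ‖z w‖ ≤ r :=
  pi_norm_le_iff_of_nonneg hr

/-- contraction units -/
theorem exists_contr (w₁ : InfinitePlace K) (hK : 1 ≤ Units.rank K) :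
    ∃ u : (𝓞 K)ˣ, (∀ w, w ≠ w₁ → ‖io (u : K) w‖ < 1) ∧ 1 < ‖io (u : K) w₁‖ := by
  obtain ⟨u, hu⟩ := Units.dirichletUnitTheorem.exists_unit K w₁
  have h1 : ∀ w, w ≠ w₁ → ‖io (u : K) w‖ < 1 := by
    intro w hw
    have h := hu w hw
    rw [norm_io]
    exact (Real.log_neg_iff (InfinitePlace.pos_iff.2 (by simp))).1 h
  refine ⟨u, h1, ?_⟩
  by_contra hcon
  push Not at hcon
  obtain ⟨w₂, hw₂⟩ : ∃ w₂ : InfinitePlace K, w₂ ≠ w₁ := by
    have hc : 2 ≤ Fintype.card (InfinitePlace K) := by
      unfold Units.rank at hK; omega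
    have : Nontrivial (InfinitePlace K) := Fintype.one_lt_card_iff_nontrivial.1 hc
    exact exists_ne w₁
  have hn := nm_unit u
  have : nm (io (u:K)) < 1 := by
    unfold nm
    calc ∏ w : InfinitePlace K, ‖io (u:K) w‖ ^ w.mult < ∏ w : InfinitePlace K, (1:ℝ) := by
          apply Finset.prod_lt_prod
          · intro w _
            have : io (u:K) w ≠ 0 := by
              rw [io_apply]
              simp
            positivity
          · intro w _
            by_cases hw : w = w₁
            · subst hw; exact pow_le_one₀ (norm_nonneg _) hcon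
            · exact pow_le_one₀ (norm_nonneg _) (h1 w hw).le
          · exact ⟨w₂, Finset.mem_univ _, pow_lt_one₀ (norm_nonneg _) (h1 w₂ hw₂) (InfinitePlace.mult_ne_zero)⟩
      _ = 1 := by simp
  linarith

end Pool.Agent.EuclW
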