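import Mathlib

open NumberField IsDedekindDomain nonZeroDivisors

namespace Pool.Agent.EuclW

variable {K : Type*} [Field K] [NumberField K]

open Classical in
/-- The weight of a nonzero prime ideal `𝔮`: it is `c` for `𝔮 = 𝔭` and the absolute norm of `𝔮`
for every other prime ideal `𝔮`. -/
noncomputable def primeWeight (𝔭 : HeightOneSpectrum (𝓞 K)) (c : ℝ)
    (𝔮 : HeightOneSpectrum (𝓞 K)) : ℝ :=
  if 𝔮 = 𝔭 then c else (Ideal.absNorm 𝔮.asIdeal : ℝ)

/-- The multiplicative function `φ` on nonzero fractional ideals with prescribed values on the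
prime ideals: the product over all nonzero primes `𝔮` of `(weight of 𝔮) ^ (exponent of 𝔮 in I)`. -/
noncomputable def phi (𝔭 : HeightOneSpectrum (𝓞 K)) (c : ℝ)
    (I : FractionalIdeal (𝓞 K)⁰ K) : ℝ :=
  ∏ᶠ 𝔮 : HeightOneSpectrum (𝓞 K), primeWeight 𝔭 c 𝔮 ^ FractionalIdeal.count K 𝔮 I

open Classical in
/-- The weighted norm `f_{𝔭,c}` : `f(0) = 0` and `f(α) = φ(α 𝓞_K)` for `α ≠ 0`. -/
noncomputable def weightedNorm (𝔭 : HeightOneSpectrum (𝓞 K)) (c : ℝ) (α : K) : ℝ :=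
  if α = 0 then 0 else phi 𝔭 c (FractionalIdeal.spanSingleton (𝓞 K)⁰ α)

/-- The Euclidean minimum `M(f_{𝔭,c})`, an extended real number: the infimum of all real `κ` such
that for all `a, b ∈ 𝓞_K` with `b ≠ 0` there is `q ∈ 𝓞_K` with `f(a - b q) < κ f(b)`
(the infimum of the empty set is `+∞`). -/
noncomputable def euclideanMinimum (𝔭 : HeightOneSpectrum (𝓞 K)) (c : ℝ) : EReal :=
  sInf ((fun κ : ℝ => (κ : EReal)) '' {κ : ℝ | ∀ a b : 𝓞 K, b ≠ 0 → ∃ q : 𝓞 K,
    weightedNorm 𝔭 c ((a : K) - (b : K) * (q : K)) < κ * weightedNorm 𝔭 c (b : K)})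

end Pool.Agent.EuclW
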