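import Pool.Agent.EuclW.R2A

open NumberField Module IsDedekindDomain nonZeroDivisors Filter Topology

set_option linter.unusedSectionVars false
set_option linter.unusedVariables false

namespace Pool.Agent.EuclW

variable {K : Type*} [Field K] [NumberField K]

/-- units which are real and positive at all places -/
def Upos (K : Type*) [Field K] [NumberField K] : Subgroup (𝓞 K)ˣ :=
  ⨅ j : InfinitePlace K, posSub j

theorem Upos_le (j : InfinitePlace K) : Upos K ≤ posSub j := iInf_le _ j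

theorem FE_Upos (h : ∀ j : InfinitePlace K, FA j) : FE (Upos K) := by
  choose e he1 he2 using fun j => FE_pos (h j)
  refine ⟨∏ j, e j, ?_, fun u => ?_⟩
  · exact Nat.one_le_iff_ne_zero.2 (Finset.prod_ne_zero_iff.2 fun j _ => by
      have := he1 j; omega)
  · unfold Upos
    rw [Subgroup.mem_iInf]
    intro j
    obtain ⟨k, hk⟩ := Finset.dvd_prod_of_mem e (Finset.mem_univ j)
    rw [hk, pow_mul]
    exact (posSub j).pow_mem (he2 j u) k

/-- the subgroup `Λ + W` -/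
def AW (W : Submodule ℝ (V K)) : AddSubgroup (V0 K) where
  carrier := {z | ∃ q : 𝓞 K, ∃ w ∈ W, (z : V K) = io (q : K) + w}
  zero_mem' := ⟨0, 0, W.zero_mem, by simp⟩
  add_mem' := by
    rintro x y ⟨q, w, hw, hq⟩ ⟨r, w', hw', hr⟩
    refine ⟨q + r, w + w', W.add_mem hw hw', ?_⟩
    have h1 : ((x + y : V0 K) : V K) = (x : V K) + y := rfl
    have h2 : ((q + r : 𝓞 K) : K) = q + r := by simp
    rw [h1, hq, hr, h2, map_add]; abel
  neg_mem' := by
    rintro x ⟨q, w, hw, hq⟩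
    refine ⟨-q, -w, W.neg_mem hw, ?_⟩
    have h1 : ((-x : V0 K) : V K) = -(x : V K) := rfl
    have h2 : ((-q : 𝓞 K) : K) = -q := by simp
    rw [h1, hq, h2, map_neg]; abel

/-- rational invariant subspaces with a translate in `Z` -/
structure GoodW (Z : Set (V K)) (W : Submodule ℝ (V K)) : Prop where
  sub : W ≤ V0 K
  span : Submodule.span ℝ {w : V K | (∃ q : 𝓞 K, w = io (q:K)) ∧ w ∈ W} = W
  act : ∀ u ∈ Upos K, ∀ w ∈ W, io ((u : (𝓞 K)ˣ) : K) * w ∈ W
  ex : ∃ P : V K, ∀ w ∈ W, P + w ∈ Z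

theorem sum_ax (δ : V K) : δ = ∑ i, ax i (δ i) := by
  ext w
  rw [Finset.sum_apply, Finset.sum_eq_single w]
  · rw [ax_same]
  · intro i _ hi
    rw [ax_ne (Ne.symm hi)]
  · intro h; exact absurd (Finset.mem_univ w) h

/-- density of small multiples of lattice points in rational subspaces -/
theorem rat_dense {W : Submodule ℝ (V K)}
    (hspan : Submodule.span ℝ {w : V K | (∃ q : 𝓞 K, w = io (q:K)) ∧ w ∈ W} = W) {w : V K}
    (hw : w ∈ W) : ∀ ε > 0, ∃ N : ℕ, ∀ k ≥ N, ∃ q : 𝓞 K, io (q:K) ∈ W ∧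
      ‖w - (((k.factorial : ℕ) : ℝ))⁻¹ • io (q:K)‖ < ε := by
  rw [← hspan] at hw
  induction hw using Submodule.span_induction with
  | mem x hx =>
    obtain ⟨⟨q, rfl⟩, hxW⟩ := hx
    intro ε hε
    refine ⟨0, fun k _ => ⟨(k.factorial : 𝓞 K) * q, ?_, ?_⟩⟩
    · have h1 : (((k.factorial : 𝓞 K) * q : 𝓞 K) : K) = (k.factorial : K) * q := by simp
      have h2 : io ((k.factorial : K) * (q:K)) = ((k.factorial : ℕ) : ℝ) • io (q:K) := by
        rw [map_mul, map_natCast]; ext w; simp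
      rw [h1, h2]; exact W.smul_mem _ hxW
    · have h1 : (((k.factorial : 𝓞 K) * q : 𝓞 K) : K) = (k.factorial : K) * q := by simp
      have h2 : io ((k.factorial : K) * (q:K)) = ((k.factorial : ℕ) : ℝ) • io (q:K) := by
        rw [map_mul, map_natCast]; ext w; simp
      have h3 : ((k.factorial : ℕ) : ℝ) ≠ 0 := by exact_mod_cast k.factorial_ne_zero
      rw [h1, h2, smul_smul, inv_mul_cancel₀ h3, one_smul, sub_self, norm_zero]
      exact hε
  | zero =>
    intro ε hε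
    refine ⟨0, fun k _ => ⟨0, ?_, ?_⟩⟩
    · simp
    · simpa using hε
  | add x y _ _ hx hy =>
    intro ε hε
    obtain ⟨N1, h1⟩ := hx (ε / 2) (by linarith)
    obtain ⟨N2, h2⟩ := hy (ε / 2) (by linarith)
    refine ⟨max N1 N2, fun k hk => ?_⟩
    obtain ⟨q1, hq1, hq1'⟩ := h1 k (le_trans (le_max_left _ _) hk)
    obtain ⟨q2, hq2, hq2'⟩ := h2 k (le_trans (le_max_right _ _) hk)
    have h3 : ((q1 + q2 : 𝓞 K) : K) = q1 + q2 := by simp
    refine ⟨q1 + q2, ?_, ?_⟩
    · rw [h3, map_add]; exact W.add_mem hq1 hq2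
    · rw [h3, map_add, smul_add]
      have h4 : x + y - ((((k.factorial : ℕ) : ℝ))⁻¹ • io (q1:K) + (((k.factorial : ℕ) : ℝ))⁻¹ • io (q2:K))
          = (x - (((k.factorial : ℕ) : ℝ))⁻¹ • io (q1:K)) + (y - (((k.factorial : ℕ) : ℝ))⁻¹ • io (q2:K)) := by
        abel
      rw [h4]
      calc _ ≤ _ := norm_add_le _ _
        _ < ε / 2 + ε / 2 := add_lt_add hq1' hq2'
        _ = ε := by ring
  | smul a x _ hx =>
    intro ε hε
    obtain ⟨N1, h1⟩ := hx (ε / (2 * (|a| + 1))) (by positivity)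
    obtain ⟨q1, hq1, hq1'⟩ := h1 N1 le_rfl
    obtain ⟨N2, hN2⟩ := exists_nat_gt (2 * ‖io (q1:K)‖ / ε)
    refine ⟨N2, fun k hk => ?_⟩
    have hf1 : (0:ℝ) < ((N1.factorial : ℕ) : ℝ) := by exact_mod_cast N1.factorial_pos
    have hfk : (0:ℝ) < ((k.factorial : ℕ) : ℝ) := by exact_mod_cast k.factorial_pos
    set n : ℤ := ⌊a * k.factorial / N1.factorial⌋ with hn
    have h3 : (((n • q1 : 𝓞 K)) : K) = n • (q1 : K) := by simp
    have h4 : io ((n • q1 : 𝓞 K) : K) = (n:ℝ) • io (q1:K) := by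
      rw [h3, map_zsmul, Int.cast_smul_eq_zsmul]
    refine ⟨n • q1, ?_, ?_⟩
    · rw [h4]; exact W.smul_mem _ hq1
    · rw [h4]
      have h5 : a • x - (((k.factorial : ℕ) : ℝ))⁻¹ • ((n:ℝ) • io (q1:K))
          = a • (x - (((N1.factorial : ℕ) : ℝ))⁻¹ • io (q1:K)) +
            ((((k.factorial : ℕ) : ℝ))⁻¹ * (a * k.factorial / N1.factorial - n)) • io (q1:K) := by
        rw [smul_sub, smul_smul, smul_smul, mul_sub, sub_smul]
        have h6 : (((k.factorial : ℕ) : ℝ))⁻¹ * (a * k.factorial / N1.factorial) =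
            a * (((N1.factorial : ℕ) : ℝ))⁻¹ := by field_simp
        rw [h6]; abel
      rw [h5]
      have h7 : ‖a • (x - (((N1.factorial : ℕ) : ℝ))⁻¹ • io (q1:K))‖ < ε / 2 := by
        rw [norm_smul, Real.norm_eq_abs]
        rw [lt_div_iff₀ (by positivity)] at hq1'
        have h8 := norm_nonneg (x - (((N1.factorial : ℕ) : ℝ))⁻¹ • io (q1:K))
        have h9 := abs_nonneg a
        nlinarith
      have h10 : ‖((((k.factorial : ℕ) : ℝ))⁻¹ * (a * k.factorial / N1.factorial - n)) • io (q1:K)‖ < ε / 2 := by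
        rw [norm_smul, Real.norm_eq_abs, abs_mul, abs_of_pos (inv_pos.2 hfk)]
        have h11 : |a * k.factorial / N1.factorial - n| ≤ 1 := by
          rw [abs_le, hn]
          have := Int.floor_le (a * k.factorial / N1.factorial)
          have := Int.lt_floor_add_one (a * k.factorial / N1.factorial)
          constructor <;> linarith
        have h12 : (N2:ℝ) ≤ ((k.factorial : ℕ) : ℝ) := by
          have : N2 ≤ k.factorial := hk.trans (Nat.self_le_factorial k)
          exact_mod_cast this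
        have h13 : 2 * ‖io (q1:K)‖ < ε * ((k.factorial : ℕ) : ℝ) := by
          rw [div_lt_iff₀ hε] at hN2
          nlinarith
        calc (((k.factorial : ℕ) : ℝ))⁻¹ * |a * k.factorial / N1.factorial - n| * ‖io (q1:K)‖
            ≤ (((k.factorial : ℕ) : ℝ))⁻¹ * 1 * ‖io (q1:K)‖ := by gcongr
          _ = ‖io (q1:K)‖ / ((k.factorial : ℕ) : ℝ) := by rw [mul_one, inv_mul_eq_div]
          _ < ε / 2 := by
              rw [div_lt_iff₀ hfk]; linarith
      calc _ ≤ _ := norm_add_le _ _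
        _ < ε / 2 + ε / 2 := add_lt_add h7 h10
        _ = ε := by ring

theorem Y_inv {Z : Set (V K)} (hZ : Inv ⊥ ⊤ Z) {W : Submodule ℝ (V K)} (hW : GoodW Z W) :
    Inv W (Upos K) {P : V K | ∀ w ∈ W, P + w ∈ Z} := by
  refine ⟨?_, hW.ex, ?_, ?_, ?_, ?_⟩
  · have : {P : V K | ∀ w ∈ W, P + w ∈ Z} = ⋂ w ∈ W, (fun P => P + w) ⁻¹' Z := by
      ext P; simp
    rw [this]
    exact isClosed_biInter fun w _ => hZ.closed.preimage (continuous_add_const w)
  · intro P hP
    have := hP 0 W.zero_mem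
    rw [add_zero] at this
    exact hZ.sub P this
  · intro P hP q w hw
    rw [add_right_comm]; exact hZ.lam _ (hP w hw) q
  · intro P hP w' hw' w hw
    rw [add_assoc]; exact hP _ (W.add_mem hw' hw)
  · intro u hu P hP w hw
    have h1 : io ((u⁻¹ : (𝓞 K)ˣ) : K) * w ∈ W := hW.act _ ((Upos K).inv_mem hu) w hw
    have h2 := hZ.act u trivial _ (hP _ h1)
    have h3 : io (u:K) * (P + io ((u⁻¹ : (𝓞 K)ˣ) : K) * w) = io (u:K) * P + w := by
      rw [mul_add, ← mul_assoc, ← map_mul, ← unit_mul_coe, mul_inv_cancel]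
      simp
    rwa [h3] at h2

/-- one step: enlarging the rational subspace -/
theorem stepB (hK : 2 ≤ Units.rank K) (hFA : ∀ j : InfinitePlace K, FA j) {Z : Set (V K)}
    (hZ : Inv ⊥ ⊤ Z) (hrat : ∀ ρ : K, io ρ ∉ Z) {W : Submodule ℝ (V K)} (hW : GoodW Z W) :
    ∃ W' : Submodule ℝ (V K), GoodW Z W' ∧ finrank ℝ W < finrank ℝ W' := by
  have hK1 : 1 ≤ Units.rank K := by omega
  have hUFE := FE_Upos hFA
  set Y : Set (V K) := {P : V K | ∀ w ∈ W, P + w ∈ Z} with hY
  have hYi : Inv W (Upos K) Y := Y_inv hZ hW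
  have hYZ : Y ⊆ Z := fun P hP => by
    have := hP 0 W.zero_mem
    rwa [add_zero] at this
  set H : ℕ → Subgroup (𝓞 K)ˣ := fun k => Upos K ⊓ Uc K k.factorial with hH
  have hfac : ∀ k : ℕ, 1 ≤ k.factorial := fun k => Nat.factorial_pos k
  have hHFE : ∀ k, FE (H k) := fun k => FE_inf hUFE (FE_Uc (hfac k))
  have hHanti : ∀ k, H (k+1) ≤ H k := by
    intro k u hu
    refine ⟨hu.1, ?_⟩
    obtain ⟨q, hq⟩ := hu.2
    refine ⟨((k + 1 : ℕ) : 𝓞 K) * q, ?_⟩
    rw [hq, Nat.factorial_succ]; push_cast; ring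
  -- nested minimal sets
  have hstep : ∀ (k : ℕ) (M : Set (V K)), IsMin W (H k) M → ∃ M' ⊆ M, IsMin W (H (k+1)) M' :=
    fun k M hM => exists_min (hM.1.mono (hHanti k))
  choose next hnext1 hnext2 using hstep
  obtain ⟨M0, hM0Y, hM0⟩ := exists_min (hYi.mono (inf_le_left : H 0 ≤ Upos K))
  set Ms : (k : ℕ) → {M : Set (V K) // IsMin W (H k) M} := fun k =>
    Nat.rec ⟨M0, hM0⟩ (fun k M => ⟨next k M.1 M.2, hnext2 k M.1 M.2⟩) k with hMs
  have hMss : ∀ k, (Ms (k+1)).1 ⊆ (Ms k).1 := fun k => hnext1 k (Ms k).1 (Ms k).2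
  have hMi : ∀ k, Inv W (H k) (Ms k).1 := fun k => (Ms k).2.1
  have hMsY : ∀ k, (Ms k).1 ⊆ Y := by
    intro k
    induction k with
    | zero => exact hM0Y
    | succ n ih => exact (hMss n).trans ih
  obtain ⟨y0, hy0⟩ : (⋂ k, (Ms k).1 ∩ Metric.closedBall 0 (cov K)).Nonempty := by
    apply IsCompact.nonempty_iInter_of_sequence_nonempty_isCompact_isClosed
    · intro k x hx; exact ⟨hMss k hx.1, hx.2⟩
    · intro k; exact (hMi k).inter_ball
    · exact (isCompact_closedBall _ _).inter_left (hMi 0).closed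
    · intro k; exact (hMi k).closed.inter Metric.isClosed_closedBall
  rw [Set.mem_iInter] at hy0
  have hy0M : ∀ k, y0 ∈ (Ms k).1 := fun k => (hy0 k).1
  -- difference sets
  set D : ℕ → Set (V K) := fun k => Df (Ms k).1 with hD
  have hDs : ∀ k, D (k+1) ⊆ D k := by
    rintro k d ⟨z, hz, hz'⟩
    exact ⟨z, hMss k hz, hMss k hz'⟩
  have hDanti : ∀ k l, k ≤ l → D l ⊆ D k := by
    intro k l hkl
    induction hkl with
    | refl => exact le_rfl
    | step h ih => exact (hDs _).trans ih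
  have hDc : ∀ k, IsClosed (D k) := fun k => Df_closed (hMi k)
  have hpos : ∀ k i, H k ≤ posSub i := fun k i => inf_le_left.trans (Upos_le i)
  -- property Q
  set Qs : InfinitePlace K → Set ℂ := fun i => {x : ℂ | ∀ w' : ℂ, ax i w' ∈ W → ‖x‖ ≤ ‖x + w'‖} with hQs
  have hQc : ∀ i, IsClosed (Qs i) := by
    intro i
    have : Qs i = ⋂ w' : ℂ, {x : ℂ | ax i w' ∈ W → ‖x‖ ≤ ‖x + w'‖} := by ext x; simp [hQs]
    rw [this]
    apply isClosed_iInter
    intro w'
    by_cases h : (ax i w' : V K) ∈ W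
    · have : {x : ℂ | ax i w' ∈ W → ‖x‖ ≤ ‖x + w'‖} = {x : ℂ | ‖x‖ ≤ ‖x + w'‖} := by ext x; simp [h]
      rw [this]
      exact isClosed_le continuous_norm (continuous_add_const w').norm
    · have : {x : ℂ | ax i w' ∈ W → ‖x‖ ≤ ‖x + w'‖} = Set.univ := by ext x; simp [h]
      rw [this]; exact isClosed_univ
  have hQscale : ∀ i (r : ℝ), 0 < r → ∀ x ∈ Qs i, (r:ℂ) * x ∈ Qs i := by
    intro i r hr x hx w' hw'
    have h1 : (ax i ((r⁻¹ : ℝ) * w') : V K) ∈ W := by rw [ax_smul]; exact W.smul_mem _ hw'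
    have h2 := hx _ h1
    have h3 : (r:ℂ) * x + w' = (r:ℂ) * (x + ((r⁻¹ : ℝ) : ℂ) * w') := by
      have : (r:ℂ) ≠ 0 := by exact_mod_cast hr.ne'
      push_cast; field_simp
    rw [h3, norm_mul, norm_mul]
    exact mul_le_mul_of_nonneg_left h2 (norm_nonneg _)
  -- axis elements in each D k
  have hax : ∀ k, ∃ i, ∃ x ∈ Qs i, ‖x‖ = 1 ∧ ax i x ∈ D k := by
    intro k
    have hsmall : ∀ ε > 0, ∃ δ ∈ D k, δ ∉ W ∧ ‖δ‖ < ε := fun ε hε =>
      Df_small (hMi k) hK1 (hHFE k) (fun u hu w hw => hW.act u hu.1 w hw)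
        (fun ρ hρ => hrat ρ (hYZ (hMsY k hρ))) hε
    obtain ⟨i, hi⟩ : ∃ i : InfinitePlace K, ∀ ε > 0, ∃ δ ∈ D k, ‖δ‖ < ε ∧ (ax i (δ i) : V K) ∉ W := by
      by_contra hcon
      push Not at hcon
      choose ε hε0 hε using hcon
      obtain ⟨i0, hi0⟩ := Finite.exists_min ε
      obtain ⟨δ, hδD, hδ0, hδn⟩ := hsmall (ε i0) (hε0 i0)
      apply hδ0
      rw [sum_ax δ]
      exact W.sum_mem fun i _ => hε i δ hδD (hδn.trans_le (hi0 i))
    have hi' : ∀ ε > 0, ∃ δ ∈ D k, ‖δ‖ < ε ∧ δ i ≠ 0 ∧ δ i ∈ Qs i := by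
      intro ε hε
      obtain ⟨δ, hδD, hδn, hδW⟩ := hi ε hε
      set Wi : Submodule ℝ ℂ :=
        { carrier := {y : ℂ | (ax i y : V K) ∈ W}
          zero_mem' := by
            have : (ax i 0 : V K) = 0 := by
              have := ax_smul (K := K) i 0 0
              simpa using this
            rw [Set.mem_ofPred_eq, this]; exact W.zero_mem
          add_mem' := fun {a b} ha hb => by
            rw [Set.mem_ofPred_eq, ax_add]; exact W.add_mem ha hb
          smul_mem' := fun c x hx => by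
            rw [Set.mem_ofPred_eq, Complex.real_smul, ax_smul]; exact W.smul_mem _ hx } with hWi
      have hWic : IsClosed (Wi : Set ℂ) := Submodule.closed_of_finiteDimensional _
      obtain ⟨y, hyW, hy⟩ := hWic.exists_infDist_eq_dist ⟨0, Wi.zero_mem⟩ (δ i)
      have hyW' : (ax i y : V K) ∈ W := hyW
      have hmin : ∀ y' ∈ Wi, ‖δ i - y‖ ≤ ‖δ i - y'‖ := by
        intro y' hy'
        have := Metric.infDist_le_dist_of_mem (x := δ i) (s := (Wi : Set ℂ)) hy'
        rw [hy, dist_eq_norm, dist_eq_norm] at this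
        exact this
      have hval : (δ - ax i y) i = δ i - y := by rw [Pi.sub_apply, ax_same]
      refine ⟨δ - ax i y, ?_, ?_, ?_, ?_⟩
      · rw [sub_eq_add_neg]; exact Df_tr (hMi k) _ hδD _ (W.neg_mem hyW')
      · refine lt_of_le_of_lt ?_ hδn
        rw [pi_norm_le_iff_of_nonneg (norm_nonneg _)]
        intro w
        by_cases hw : w = i
        · subst hw
          rw [hval]
          have := hmin 0 Wi.zero_mem
          rw [sub_zero] at this
          exact this.trans (norm_le_pi_norm δ w)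
        · rw [Pi.sub_apply, ax_ne hw, sub_zero]; exact norm_le_pi_norm δ w
      · rw [hval]
        intro h0
        apply hδW
        rw [sub_eq_zero.1 h0]; exact hyW'
      · rw [hval]
        intro w' hw'
        have h1 : y - w' ∈ Wi := Wi.sub_mem hyW hw'
        have := hmin _ h1
        have h2 : δ i - (y - w') = δ i - y + w' := by ring
        rwa [h2] at this
    obtain ⟨x, hxQ, hx1, hxD⟩ := expand hK1 (hHFE k) i (hDc k) (Df_act (hMi k)) (hQc i)
      (fun u hu y hy => by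
        obtain ⟨r, hr, hr'⟩ := hpos k i hu
        rw [hr']; exact hQscale i r hr y hy) hi'
    have hxn : 0 < ‖x‖ := by linarith
    refine ⟨i, ((‖x‖⁻¹ : ℝ) : ℂ) * x, hQscale i _ (inv_pos.2 hxn) x hxQ, ?_, ?_⟩
    · rw [norm_mul, Complex.norm_real, norm_inv, norm_norm, inv_mul_cancel₀ hxn.ne']
    · rw [ax_smul]
      exact smul_mem_of_pos hK (hHFE k) (hpos k i) (hDc k) (Df_act (hMi k)) (Df_neg (hMi k)) hxD _
  -- a common place
  obtain ⟨i, hi⟩ : ∃ i, ∀ k, ∃ x ∈ Qs i, ‖x‖ = 1 ∧ ax i x ∈ D k := by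
    by_contra hcon
    push Not at hcon
    choose kk hkk using hcon
    obtain ⟨i0, hi0⟩ := Finite.exists_max kk
    obtain ⟨i, x, hxQ, hx1, hxD⟩ := hax (kk i0)
    exact hkk i x hxQ hx1 (hDanti _ _ (hi0 i) hxD)
  obtain ⟨x, hx⟩ : (⋂ k, {x : ℂ | x ∈ Qs i ∧ ‖x‖ = 1 ∧ ax i x ∈ D k}).Nonempty := by
    have hcl : ∀ k, IsClosed {x : ℂ | x ∈ Qs i ∧ ‖x‖ = 1 ∧ ax i x ∈ D k} := by
      intro k
      exact (hQc i).inter ((isClosed_eq continuous_norm continuous_const).inter
        ((hDc k).preimage (continuous_ax i)))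
    apply IsCompact.nonempty_iInter_of_sequence_nonempty_isCompact_isClosed
    · rintro k x ⟨h1, h2, h3⟩; exact ⟨h1, h2, hDs k h3⟩
    · intro k
      obtain ⟨x, h1, h2, h3⟩ := hi k
      exact ⟨x, h1, h2, h3⟩
    · apply (isCompact_closedBall (0:ℂ) 1).of_isClosed_subset (hcl 0)
      rintro x ⟨_, h2, _⟩
      rw [mem_closedBall_zero_iff, h2]
    · exact hcl
  rw [Set.mem_iInter] at hx
  have hxQ : x ∈ Qs i := (hx 0).1
  have hx1 : ‖x‖ = 1 := (hx 0).2.1
  have hxD : ∀ k, ax i x ∈ D k := fun k => (hx k).2.2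
  set d : V K := ax i x with hd
  have hdV : d ∈ V0 K := Df_sub (hMi 0) _ (hxD 0)
  have hdW : d ∉ W := by
    intro h
    have h1 : (ax i (-x) : V K) ∈ W := by
      have h2 : (ax i (-x) : V K) = -(ax i x) := by
        have := ax_smul (K := K) i (-1) x
        push_cast at this
        rw [neg_one_mul, neg_one_smul] at this
        exact this
      rw [h2]; exact W.neg_mem h
    have := hxQ _ h1
    rw [add_neg_cancel, norm_zero, hx1] at this
    linarith
  have hlineD : ∀ k (s : ℝ), s • d ∈ D k := fun k s =>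
    smul_mem_of_pos hK (hHFE k) (hpos k i) (hDc k) (Df_act (hMi k)) (Df_neg (hMi k)) (hxD k) s
  -- the new subspace
  set W2 : Submodule ℝ (V K) := W ⊔ Submodule.span ℝ {d} with hW2
  have hW2V : W2 ≤ V0 K := sup_le hW.sub (by
    rw [Submodule.span_le, Set.singleton_subset_iff]; exact hdV)
  set G : AddSubgroup (V0 K) := (AW W2).topologicalClosure with hG
  have hGc : IsClosed (G : Set (V0 K)) := AddSubgroup.isClosed_topologicalClosure _
  have hΛG : ∀ x ∈ Lam K, x ∈ G := by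
    rintro x ⟨q, hq⟩
    apply (AW W2).le_topologicalClosure
    exact ⟨q, 0, W2.zero_mem, by rw [hq, add_zero]⟩
  have hGD : ∀ z ∈ G, ∀ k, (z : V K) ∈ D k := by
    intro z hz k
    rw [← (hDc k).closure_eq, Metric.mem_closure_iff]
    intro ε hε
    have h1 : z ∈ closure (AW W2 : Set (V0 K)) := hz
    rw [Metric.mem_closure_iff] at h1
    obtain ⟨b, ⟨q, w, hw, hb⟩, hdist⟩ := h1 ε hε
    refine ⟨(b : V K), ?_, hdist⟩
    rw [hb, add_comm]
    apply Df_lam (hMi k)
    rw [hW2, Submodule.mem_sup] at hw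
    obtain ⟨w1, hw1, w2, hw2, rfl⟩ := hw
    rw [Submodule.mem_span_singleton] at hw2
    obtain ⟨s, rfl⟩ := hw2
    rw [add_comm]
    exact Df_tr (hMi k) _ (hlineD k s) _ hw1
  obtain ⟨hspan, _⟩ := struct (Lam K) hGc hΛG
  set W' : Submodule ℝ (V K) := (maxSub G).map (V0 K).subtype with hW'
  have hW2W' : W2 ≤ W' := by
    intro w hw
    refine ⟨⟨w, hW2V hw⟩, ?_, rfl⟩
    intro s
    apply (AW W2).le_topologicalClosure
    exact ⟨0, s • w, W2.smul_mem _ hw, by simp⟩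
  have hspan' : Submodule.span ℝ {w : V K | (∃ q : 𝓞 K, w = io (q:K)) ∧ w ∈ W'} = W' := by
    have h1 : {w : V K | (∃ q : 𝓞 K, w = io (q:K)) ∧ w ∈ W'} =
        (V0 K).subtype '' {w : V0 K | w ∈ Lam K ∧ w ∈ maxSub G} := by
      ext w
      constructor
      · rintro ⟨⟨q, hq⟩, ⟨v, hv, rfl⟩⟩
        exact ⟨v, ⟨⟨q, hq⟩, hv⟩, rfl⟩
      · rintro ⟨v, ⟨⟨q, hq⟩, hv⟩, rfl⟩
        exact ⟨⟨q, hq⟩, ⟨v, hv, rfl⟩⟩
    rw [h1, ← Submodule.map_span, hspan]
  refine ⟨W', ⟨?_, hspan', ?_, ⟨y0, ?_⟩⟩, ?_⟩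
  · rintro _ ⟨v, _, rfl⟩; exact v.2
  · -- invariance
    rintro u hu _ ⟨v, hv, rfl⟩
    set Tu : V0 K → V0 K := fun z => ⟨io (u:K) * z, io_mul_mem_V0 _ z.2⟩ with hTu
    have hTc : Continuous Tu :=
      Continuous.subtype_mk (continuous_const.mul continuous_subtype_val) _
    have hTG : ∀ z ∈ G, Tu z ∈ G := by
      intro z hz
      have h1 : z ∈ closure (AW W2 : Set (V0 K)) := hz
      have h2 : Set.MapsTo Tu (AW W2 : Set (V0 K)) (AW W2 : Set (V0 K)) := by
        rintro b ⟨q, w, hw, hb⟩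
        refine ⟨(u : 𝓞 K) * q, io (u:K) * w, ?_, ?_⟩
        · rw [hW2, Submodule.mem_sup] at hw
          obtain ⟨w1, hw1, w2, hw2, rfl⟩ := hw
          rw [Submodule.mem_span_singleton] at hw2
          obtain ⟨s, rfl⟩ := hw2
          rw [mul_add]
          apply W2.add_mem
          · exact Submodule.mem_sup_left (hW.act u hu _ hw1)
          · apply Submodule.mem_sup_right
            obtain ⟨r, hr, hr'⟩ := Upos_le i hu
            rw [mul_smul_comm, hd, mul_ax, hr', ax_smul, smul_smul]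
            exact Submodule.smul_mem _ _ (Submodule.mem_span_singleton_self _)
        · change io (u:K) * (b : V K) = _
          have : (((u : 𝓞 K) * q : 𝓞 K) : K) = (u:K) * q := by simp
          rw [hb, mul_add, this, map_mul]
      exact map_mem_closure hTc h1 h2
    refine ⟨Tu v, ?_, rfl⟩
    intro s
    have h3 : s • Tu v = Tu (s • v) := by
      apply Subtype.ext
      change s • (io (u:K) * (v : V K)) = io (u:K) * (s • (v : V K))
      rw [mul_smul_comm]
    rw [h3]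
    exact hTG _ (hv s)
  · -- translate contained in Z
    intro w hw
    rw [← hZ.closed.closure_eq, Metric.mem_closure_iff]
    intro ε hε
    obtain ⟨N, hN⟩ := rat_dense hspan' hw ε hε
    obtain ⟨q, hqW, hq⟩ := hN N le_rfl
    refine ⟨y0 + (((N.factorial : ℕ) : ℝ))⁻¹ • io (q:K), ?_, ?_⟩
    · apply hYZ
      apply hMsY N
      have hτW : (((N.factorial : ℕ) : ℝ))⁻¹ • io (q:K) ∈ W' := W'.smul_mem _ hqW
      obtain ⟨v, hv, hv'⟩ := hτW
      have hτD : (((N.factorial : ℕ) : ℝ))⁻¹ • io (q:K) ∈ D N := by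
        rw [← hv']; exact hGD v (maxSub_le hv) N
      obtain ⟨z0, hz0, hz0'⟩ := hτD
      exact (Ms N).2.trans (fun u hu => Uc_fix (hfac N) hu.2 q) hz0 hz0' (hy0M N)
    · rw [dist_eq_norm, add_sub_add_left_eq_sub]; exact hq
  · apply Submodule.finrank_lt_finrank_of_lt
    refine lt_of_le_of_ne (le_sup_left.trans hW2W') ?_
    intro h
    apply hdW
    rw [h]
    exact hW2W' (Submodule.mem_sup_right (Submodule.mem_span_singleton_self _))

/-- Case B of the rationality theorem -/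
theorem caseB (hK : 2 ≤ Units.rank K) (hFA : ∀ j : InfinitePlace K, FA j) {Z : Set (V K)}
    (hZ : Inv ⊥ ⊤ Z) : ∃ ρ : K, io ρ ∈ Z := by
  by_contra hrat
  push Not at hrat
  have key : ∀ n : ℕ, ∃ W : Submodule ℝ (V K), GoodW Z W ∧ n ≤ finrank ℝ W := by
    intro n
    induction n with
    | zero =>
      refine ⟨⊥, ⟨bot_le, ?_, ?_, ?_⟩, Nat.zero_le _⟩
      · rw [eq_bot_iff, Submodule.span_le]; rintro w ⟨_, hw⟩; exact hw
      · intro u _ w hw
        rw [Submodule.mem_bot] at hw ⊢; rw [hw, mul_zero]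
      · obtain ⟨P, hP⟩ := hZ.nonempty
        refine ⟨P, fun w hw => ?_⟩
        rw [Submodule.mem_bot] at hw
        rw [hw, add_zero]; exact hP
    | succ n ih =>
      obtain ⟨W, hW, hn⟩ := ih
      obtain ⟨W', hW', hlt⟩ := stepB hK hFA hZ hrat hW
      exact ⟨W', hW', by omega⟩
  obtain ⟨W, _, hW⟩ := key (finrank ℝ (V K) + 1)
  have := Submodule.finrank_le W
  omega

theorem rank2_one (hK : 2 ≤ Units.rank K) {B : ℝ} {z : V K} (hz : z ∈ V0 K)
    (h : ∀ q : 𝓞 K, B ≤ nm (z - io (q:K))) : ∃ ρ : K, ∀ q : 𝓞 K, B ≤ nm (io (ρ - q)) := by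
  set Z : Set (V K) := {z | z ∈ V0 K ∧ ∀ q : 𝓞 K, B ≤ nm (z - io (q:K))} with hZ
  have hZi : Inv ⊥ ⊤ Z := by
    refine ⟨?_, ⟨z, hz, h⟩, fun z hz => hz.1, ?_, ?_, ?_⟩
    · have : Z = (V0 K : Set (V K)) ∩ ⋂ q : 𝓞 K, {z | B ≤ nm (z - io (q:K))} := by
        ext z; simp [hZ]
      rw [this]
      apply (isClosed_V0 K).inter
      apply isClosed_iInter
      intro q
      exact isClosed_le continuous_const (continuous_nm.comp (continuous_id.sub continuous_const))
    · rintro z ⟨h1, h2⟩ q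
      refine ⟨Submodule.add_mem _ h1 (io_mem_V0 _), fun q' => ?_⟩
      have h3 := h2 (q' - q)
      have h4 : ((q' - q : 𝓞 K) : K) = q' - q := by simp
      rw [h4, map_sub] at h3
      have h5 : z + io (q:K) - io (q':K) = z - (io (q':K) - io (q:K)) := by abel
      rw [h5]; exact h3
    · intro z hz w hw
      rw [Submodule.mem_bot] at hw
      rw [hw, add_zero]; exact hz
    · rintro u _ z ⟨h1, h2⟩
      refine ⟨io_mul_mem_V0 _ h1, fun q => ?_⟩
      have h3 := h2 (((u⁻¹ : (𝓞 K)ˣ) : 𝓞 K) * q)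
      have h4 : ((((u⁻¹ : (𝓞 K)ˣ) : 𝓞 K) * q : 𝓞 K) : K) = (u:K)⁻¹ * q := by simp
      have h5 : io (u:K) * z - io (q:K) = io (u:K) * (z - io ((u:K)⁻¹ * q)) := by
        rw [mul_sub, ← map_mul, mul_inv_cancel_left₀ (unit_ne_zero u)]
      rw [h5, nm_mul, nm_unit, one_mul, ← h4]
      exact h3
  obtain ⟨ρ, hρ⟩ : ∃ ρ : K, io ρ ∈ Z := by
    by_cases hA : ∃ j : InfinitePlace K, ¬ FA j
    · obtain ⟨j, hj⟩ := hA
      exact caseA hK hj hZi
    · push Not at hA
      exact caseB hK hA hZi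
  refine ⟨ρ, fun q => ?_⟩
  rw [map_sub]; exact hρ.2 q

end Pool.Agent.EuclW
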