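import Pool.Agent.EuclW.AxA

open NumberField Module IsDedekindDomain nonZeroDivisors Filter Topology

set_option linter.unusedSectionVars false
set_option linter.unusedVariables false

namespace Pool.Agent.EuclW

variable {K : Type*} [Field K] [NumberField K] {𝔭 : HeightOneSpectrum (𝓞 K)}

/-- points staying away from integers that are not very divisible -/
def SV (𝔭 : HeightOneSpectrum (𝓞 K)) (t B : ℝ) (n : ℕ) : Set (V K) :=
  {z | ∀ q : 𝓞 K, q ≠ 0 → vv 𝔭 (q:K) < n → B ≤ nm (z - io (q:K)) * t ^ (vv 𝔭 (q:K))}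

theorem SV_closed (t B : ℝ) (n : ℕ) : IsClosed (SV 𝔭 t B n) := by
  have : SV 𝔭 t B n = ⋂ q : 𝓞 K, {z : V K | q ≠ 0 → vv 𝔭 (q:K) < n →
      B ≤ nm (z - io (q:K)) * t ^ (vv 𝔭 (q:K))} := by
    ext z; simp [SV]
  rw [this]
  apply isClosed_iInter
  intro q
  by_cases h1 : q ≠ 0
  · by_cases h2 : vv 𝔭 (q:K) < n
    · have : {z : V K | q ≠ 0 → vv 𝔭 (q:K) < n →
        B ≤ nm (z - io (q:K)) * t ^ (vv 𝔭 (q:K))} = {z : V K | B ≤ nm (z - io (q:K)) * t ^ (vv 𝔭 (q:K))} := by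
        ext z; simp [h1, h2]
      rw [this]
      apply isClosed_le continuous_const
      exact (continuous_nm.comp (continuous_id.sub continuous_const)).mul continuous_const
    · have : {z : V K | q ≠ 0 → vv 𝔭 (q:K) < n →
        B ≤ nm (z - io (q:K)) * t ^ (vv 𝔭 (q:K))} = Set.univ := by
        ext z; simp [h1, h2]
      rw [this]; exact isClosed_univ
  · have : {z : V K | q ≠ 0 → vv 𝔭 (q:K) < n →
        B ≤ nm (z - io (q:K)) * t ^ (vv 𝔭 (q:K))} = Set.univ := by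
        ext z; simp [h1]
    rw [this]; exact isClosed_univ

theorem SV_trans {t B : ℝ} {n m : ℕ} (hm : Pd 𝔭 n (m : K)) {z : V K} (hz : z ∈ SV 𝔭 t B n)
    (p : 𝓞 K) : z + io ((m : K) * (p : K)) ∈ SV 𝔭 t B n := by
  intro q hq hv
  set q' : 𝓞 K := q - (m : 𝓞 K) * p with hq'
  have hq'K : (q' : K) = (q:K) - (m:K) * p := by rw [hq']; simp
  have h1 : Pd 𝔭 n ((q:K) - (q':K)) := by
    rw [hq'K, sub_sub_cancel, mul_comm]; exact Pd_int_mul p hm
  obtain ⟨h2, h3⟩ := vv_eq_of_sub h1 (int_ne_zero hq) hv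
  have h4 : q' ≠ 0 := by rintro h; rw [h] at h2; simp at h2
  have h5 := hz q' h4 (by rw [h3]; exact hv)
  rw [h3, hq'K, map_sub] at h5
  have h6 : z + io ((m : K) * (p : K)) - io (q:K) = z - (io (q:K) - io ((m:K) * p)) := by abel
  rw [h6]; exact h5

theorem SV_unit {t B : ℝ} {n : ℕ} {z : V K} (hz : z ∈ SV 𝔭 t B n) (u : (𝓞 K)ˣ) :
    io (u:K) * z ∈ SV 𝔭 t B n := by
  intro q hq hv
  set q' : 𝓞 K := ((u⁻¹ : (𝓞 K)ˣ) : 𝓞 K) * q with hq'
  have hq'K : (q' : K) = (u:K)⁻¹ * q := by rw [hq']; simp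
  have hq'K2 : (q' : K) = ((u⁻¹ : (𝓞 K)ˣ) : K) * q := by rw [hq']; simp
  have h3 : vv 𝔭 (q' : K) = vv 𝔭 (q : K) := by rw [hq'K2, vv_unit_mul]
  have h4 : q' ≠ 0 := mul_ne_zero (by simp) hq
  have h5 := hz q' h4 (by rw [h3]; exact hv)
  rw [h3] at h5
  have h6 : io (u:K) * z - io (q:K) = io (u:K) * (z - io (q' : K)) := by
    rw [mul_sub, ← map_mul, hq'K, mul_inv_cancel_left₀ (unit_ne_zero u)]
  rw [h6, nm_mul, nm_unit, one_mul]
  exact h5

/-- real multiples of axis vectors at finite-argument places -/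
theorem smul_mem_of_pos (hK : 2 ≤ Units.rank K) {H : Subgroup (𝓞 K)ˣ} (hH : FE H)
    {j : InfinitePlace K} (hpos : H ≤ posSub j) {S : Set (V K)} (hS : IsClosed S)
    (hHS : ∀ u ∈ H, ∀ z ∈ S, io ((u : (𝓞 K)ˣ) : K) * z ∈ S) (hneg : ∀ z ∈ S, -z ∈ S)
    {x : ℂ} (hx : ax j x ∈ S) (s : ℝ) : s • (ax j x : V K) ∈ S := by
  have hpos' : ∀ s : ℝ, 0 < s → s • (ax j x : V K) ∈ S := by
    intro s hs
    rw [← hS.closure_eq, Metric.mem_closure_iff]
    intro ε hε
    obtain ⟨u, huH, hu⟩ := dense_pos hK hH hpos hs (ε := ε / (‖x‖ + 1)) (by positivity)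
    refine ⟨io (u:K) * ax j x, hHS u huH _ hx, ?_⟩
    rw [mul_ax, dist_comm, dist_eq_norm, ← ax_smul]
    have h1 : (ax j (io (u:K) j * x) : V K) - ax j ((s:ℂ) * x) = ax j ((io (u:K) j - s) * x) := by
      ext w
      by_cases h : w = j
      · subst h; simp [ax_same]; ring
      · simp [ax_ne h]
    rw [h1, norm_ax, norm_mul]
    rw [lt_div_iff₀ (by positivity)] at hu
    have : ‖io (u:K) j - s‖ * ‖x‖ ≤ ‖io (u:K) j - s‖ * (‖x‖ + 1) :=
      mul_le_mul_of_nonneg_left (by linarith) (norm_nonneg _)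
    linarith
  have hne : ∀ s : ℝ, s ≠ 0 → s • (ax j x : V K) ∈ S := by
    intro s hs
    rcases lt_or_gt_of_ne hs with h | h
    · have h1 := hneg _ (hpos' (-s) (by linarith))
      rwa [neg_smul, neg_neg] at h1
    · exact hpos' s h
  by_cases hs : s = 0
  · subst hs
    rw [zero_smul]
    have h1 : Tendsto (fun n : ℕ => (1 / ((n:ℝ) + 1)) • (ax j x : V K)) atTop (𝓝 ((0:ℝ) • ax j x)) :=
      tendsto_one_div_add_atTop_nhds_zero_nat.smul_const _
    rw [zero_smul] at h1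
    exact hS.mem_of_tendsto h1 (Eventually.of_forall fun n => hne _ (by positivity))
  · exact hne s hs

theorem rank2_t_false (hK : 2 ≤ Units.rank K) {t B : ℝ} (ht : 1 < t) (hB : 0 < B)
    (h : ∀ n : ℕ, ∃ α : K, Good 𝔭 t B n α) : False := by
  have hK1 : 1 ≤ Units.rank K := by omega
  by_cases hA : ∃ j : InfinitePlace K, ¬ FA j
  · obtain ⟨j, hj⟩ := hA
    obtain ⟨z, hzV, hzj, hzax, hz⟩ := exists_axis_limit hK1 ht h j
    have hzeq := eq_ax hzax
    obtain ⟨m, hm, hmP⟩ := exists_nat_Pd 𝔭 1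
    have hzS : z ∈ SV 𝔭 t B 1 := fun q hq _ => hz q hq
    have h1 : io (1:K) ∈ SV 𝔭 t B 1 :=
      lemA hK FE_top hj (SV_closed t B 1) hm (fun z hz q => SV_trans hmP hz q)
        (fun u _ z hz => SV_unit hz u) hzj (by rw [← hzeq]; exact hzV) (by rw [← hzeq]; exact hzS)
        (io_mem_V0 _)
    have h2 := h1 1 one_ne_zero (by
      have : ((1 : 𝓞 K) : K) = 1 := by simp
      rw [this, vv_one]; norm_num)
    have h3 : ((1 : 𝓞 K) : K) = 1 := by simp
    rw [h3, sub_self, ← map_zero io, nm_io_zero, zero_mul] at h2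
    linarith
  · push Not at hA
    set j : InfinitePlace K := Classical.ofNonempty with hj
    obtain ⟨z, hzV, hzj, hzax, hz⟩ := exists_axis_limit hK1 ht h j
    have hzeq := eq_ax hzax
    have hz0 : z ≠ 0 := by rintro rfl; exact hzj rfl
    obtain ⟨q0, hq0, hq0'⟩ := line_case hzV hz0
    set n : ℕ := (vv 𝔭 (q0:K)).toNat + 1 with hn
    obtain ⟨m, hm, hmP⟩ := exists_nat_Pd 𝔭 n
    have hzS : ax j (z j) ∈ SV 𝔭 t B n := by rw [← hzeq]; exact fun q hq _ => hz q hq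
    have hlineS : ∀ s : ℝ, s • z ∈ SV 𝔭 t B n := by
      intro s
      rw [hzeq]
      refine smul_mem_of_pos hK (FE_pos (hA j)) le_rfl (SV_closed t B n)
        (fun u _ z hz => SV_unit hz u) (fun z hz => ?_) hzS s
      have := SV_unit hz (-1 : (𝓞 K)ˣ)
      simpa using this
    have hcl : io (q0 : K) ∈ SV 𝔭 t B n := by
      rw [← (SV_closed t B n).closure_eq, Metric.mem_closure_iff]
      intro ε hε
      obtain ⟨q, s, hqs⟩ := hq0' m hm 1 ε hε
      refine ⟨s • z + io ((m:K) * (q:K)), SV_trans hmP (hlineS s) q, ?_⟩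
      rw [one_smul] at hqs
      rw [dist_eq_norm, add_comm]; exact hqs
    have h2 := hcl q0 hq0 (by rw [hn]; omega)
    rw [sub_self, ← map_zero io, nm_io_zero, zero_mul] at h2
    linarith

end Pool.Agent.EuclW
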