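import Pool.Agent.EuclW.R1d
import Pool.Agent.EuclW.R2t
import Pool.Agent.EuclW.R2B

open NumberField IsDedekindDomain nonZeroDivisors Filter Topology

namespace Pool.Agent.EuclW

variable {K : Type*} [Field K] [NumberField K] {𝔭 : HeightOneSpectrum (𝓞 K)}

theorem F_one (x : K) : F 𝔭 1 x = nm (io x) := by
  unfold F
  rw [one_zpow, mul_one]

theorem core (hK : 1 ≤ Units.rank K) : Core 𝔭 := by
  intro t ht B hB hyp B2 hB2
  rcases good_of_hyp hB2 hyp with h | h
  · exact h
  rcases ht.eq_or_lt with h1 | h1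
  · subst h1
    obtain ⟨j⟩ : Nonempty (InfinitePlace K) := inferInstance
    obtain ⟨z, hz, hzj, hzq⟩ := exists_bdd_limit hK le_rfl h j
    obtain ⟨z', hz', h'⟩ := exists_zprime hK hz hzj (fun q hq => by
      have := hzq q hq
      rwa [one_zpow, mul_one] at this)
    rcases hK.eq_or_lt with h2 | h2
    · obtain ⟨ρ, hρ⟩ := closing h2.symm hB2 hz' h'
      exact ⟨ρ, fun q => by rw [F_one]; exact hρ q⟩
    · obtain ⟨ρ, hρ⟩ := rank2_one (by omega) hz' h'
      exact ⟨ρ, fun q => by rw [F_one]; exact hB2.le.trans (hρ q)⟩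
  · rcases hK.eq_or_lt with h2 | h2
    · exact rank1_t h2.symm h1 hB hyp hB2
    · exact (rank2_t_false (by omega) h1 hB h).elim

theorem continuity (hK : 1 ≤ Units.rank K) :
    ContinuousOn (euclideanMinimum 𝔭) (Set.Ici (Ideal.absNorm 𝔭.asIdeal : ℝ)) :=
  continuous_of_core (core hK)

end Pool.Agent.EuclW
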