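import Pool.Agent.EuclW.Red

open NumberField Module IsDedekindDomain nonZeroDivisors Filter Topology

set_option linter.unusedSectionVars false
set_option linter.unusedVariables false

namespace Pool.Agent.EuclW

variable {K : Type*} [Field K] [NumberField K] {𝔭 : HeightOneSpectrum (𝓞 K)}

/-- balancing by contraction units -/
theorem balance (hK : 1 ≤ Units.rank K) : ∃ E : ℝ, 1 ≤ E ∧ ∀ (z : V K) (β : ℝ), 0 < β →
    nm z ≤ β ^ finrank ℚ K → ∃ u : (𝓞 K)ˣ, ∀ w, ‖io (u : K) w * z w‖ ≤ E * β := by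
  choose c hc1 hc2 using fun w₁ : InfinitePlace K => exists_contr w₁ hK
  obtain ⟨E, hE⟩ : ∃ E : ℝ, ∀ w₁ : InfinitePlace K, ‖io (c w₁ : K) w₁‖ ≤ E := by
    obtain ⟨E, hE⟩ := (Set.finite_range fun w₁ : InfinitePlace K => ‖io (c w₁ : K) w₁‖).bddAbove
    exact ⟨E, fun w => hE ⟨w, rfl⟩⟩
  have hE1 : 1 ≤ E := (hc2 Classical.ofNonempty).le.trans (hE _)
  obtain ⟨θ, hθ0, hθ1, hθ⟩ : ∃ θ : ℝ, 0 < θ ∧ θ < 1 ∧ ∀ w₁ w : InfinitePlace K, w ≠ w₁ →
      ‖io (c w₁ : K) w‖ ≤ θ := by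
    have hfin : (Set.range fun p : {p : InfinitePlace K × InfinitePlace K // p.2 ≠ p.1} =>
        ‖io (c p.1.1 : K) p.1.2‖).Finite := Set.finite_range _
    by_cases hne : Nonempty {p : InfinitePlace K × InfinitePlace K // p.2 ≠ p.1}
    · obtain ⟨p0, hp0⟩ := Finite.exists_max
        (fun p : {p : InfinitePlace K × InfinitePlace K // p.2 ≠ p.1} => ‖io (c p.1.1 : K) p.1.2‖)
      refine ⟨‖io (c p0.1.1 : K) p0.1.2‖, ?_, hc1 _ _ p0.2, fun w₁ w hw => hp0 ⟨(w₁, w), hw⟩⟩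
      rw [norm_io, InfinitePlace.pos_iff]
      exact unit_ne_zero _
    · refine ⟨1/2, by norm_num, by norm_num, fun w₁ w hw => (hne ⟨⟨(w₁, w), hw⟩⟩).elim⟩
  refine ⟨E, hE1, ?_⟩
  have key : ∀ (m : ℕ) (z : V K) (β : ℝ), 0 < β → nm z ≤ β ^ finrank ℚ K →
      (∀ w, ‖z w‖ * θ ^ m ≤ E * β) → ∃ u : (𝓞 K)ˣ, ∀ w, ‖io (u : K) w * z w‖ ≤ E * β := by
    intro m
    induction m with
    | zero =>
      intro z β hβ hn h
      refine ⟨1, fun w => ?_⟩
      have := h w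
      simpa using this
    | succ m ih =>
      intro z β hβ hn h
      obtain ⟨w₁, hw₁⟩ : ∃ w₁, ‖z w₁‖ ≤ β := by
        by_contra hcon
        push Not at hcon
        have : β ^ finrank ℚ K < nm z := by
          unfold nm
          rw [← InfinitePlace.sum_mult_eq, ← Finset.prod_pow_eq_pow_sum]
          apply Finset.prod_lt_prod_of_nonempty
          · intro w _; positivity
          · intro w _
            exact pow_lt_pow_left₀ (hcon w) hβ.le InfinitePlace.mult_ne_zero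
          · exact Finset.univ_nonempty
        linarith
      obtain ⟨u, hu⟩ := ih (io (c w₁ : K) * z) β hβ (by rw [nm_mul, nm_unit, one_mul]; exact hn) (by
        intro w
        rw [Pi.mul_apply, norm_mul]
        by_cases hw : w = w₁
        · subst hw
          have h1 : θ ^ m ≤ 1 := pow_le_one₀ hθ0.le hθ1.le
          have h2 : ‖io (c w : K) w‖ * ‖z w‖ ≤ E * β :=
            mul_le_mul (hE w) hw₁ (norm_nonneg _) (by linarith)
          calc ‖io (c w : K) w‖ * ‖z w‖ * θ ^ m ≤ ‖io (c w : K) w‖ * ‖z w‖ * 1 :=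
                mul_le_mul_of_nonneg_left h1 (by positivity)
            _ ≤ E * β := by rw [mul_one]; exact h2
        · have h1 := hθ w₁ w hw
          calc ‖io (c w₁ : K) w‖ * ‖z w‖ * θ ^ m ≤ θ * ‖z w‖ * θ ^ m := by gcongr
            _ = ‖z w‖ * θ ^ (m+1) := by ring
            _ ≤ E * β := h w)
      refine ⟨u * c w₁, fun w => ?_⟩
      have := hu w
      rw [Pi.mul_apply] at this
      have h3 : io ((u * c w₁ : (𝓞 K)ˣ) : K) w = io (u : K) w * io (c w₁ : K) w := by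
        have : ((u * c w₁ : (𝓞 K)ˣ) : K) = (u : K) * (c w₁ : K) := by simp
        rw [this, map_mul]; rfl
      rw [h3, mul_assoc]
      exact this
  intro z β hβ hn
  obtain ⟨m, hm⟩ : ∃ m : ℕ, ‖z‖ * θ ^ m ≤ E * β := by
    have h1 : Tendsto (fun m : ℕ => ‖z‖ * θ ^ m) atTop (𝓝 (‖z‖ * 0)) :=
      (tendsto_pow_atTop_nhds_zero_of_lt_one hθ0.le hθ1).const_mul _
    rw [mul_zero] at h1
    have h2 : 0 < E * β := by positivity
    exact ((h1.eventually_lt_const h2).exists).imp fun m hm => hm.le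
  exact key m z β hβ hn fun w => (mul_le_mul_of_nonneg_right (norm_le_pi_norm z w)
    (pow_nonneg hθ0.le _)).trans hm

theorem unit_pow_coe (c : (𝓞 K)ˣ) (k : ℕ) : ((c ^ k : (𝓞 K)ˣ) : K) = (c : K) ^ k := by simp

theorem unit_mul_coe (c d : (𝓞 K)ˣ) : ((c * d : (𝓞 K)ˣ) : K) = (c : K) * (d : K) := by simp

theorem io_pow_apply (c : (𝓞 K)ˣ) (k : ℕ) (w : InfinitePlace K) :
    io ((c ^ k : (𝓞 K)ˣ) : K) w = (io (c : K) w) ^ k := by
  rw [unit_pow_coe, map_pow]; rfl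

/-- dilation -/
theorem dil {E s x : ℝ} (hE : 1 < E) (hx : 0 < x) (h : x ≤ s) :
    ∃ k : ℕ, s ≤ E ^ k * x ∧ E ^ k * x ≤ s * E := by
  obtain ⟨n, hn1, hn2⟩ := exists_nat_pow_near (x := s / x) (y := E) ((one_le_div hx).2 h) hE
  refine ⟨n + 1, ?_, ?_⟩
  · rw [div_lt_iff₀ hx] at hn2; exact hn2.le
  · rw [le_div_iff₀ hx] at hn1
    calc E ^ (n+1) * x = (E ^ n * x) * E := by ring
      _ ≤ s * E := mul_le_mul_of_nonneg_right hn1 (by linarith)

/-- Good approximants to zero. -/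
def Good (𝔭 : HeightOneSpectrum (𝓞 K)) (t B : ℝ) (n : ℕ) (α : K) : Prop :=
  α ≠ 0 ∧ (n : ℤ) ≤ vv 𝔭 α ∧ F 𝔭 t α < B ∧
    ∀ q : 𝓞 K, q ≠ 0 → vv 𝔭 (q : K) < n → B ≤ F 𝔭 t (α - q)

theorem good_unit {t B : ℝ} {n : ℕ} {α : K} (h : Good 𝔭 t B n α) (u : (𝓞 K)ˣ) :
    Good 𝔭 t B n ((u:K) * α) := by
  obtain ⟨h0, h1, h2, h3⟩ := h
  refine ⟨mul_ne_zero (unit_ne_zero u) h0, by rwa [vv_unit_mul], by rwa [F_unit_mul], fun q hq hv => ?_⟩
  have e1 : (u:K) * α - q = (u:K) * (α - ((((u⁻¹ : (𝓞 K)ˣ) : 𝓞 K) * q : 𝓞 K) : K)) := by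
    have : ((((u⁻¹ : (𝓞 K)ˣ) : 𝓞 K) * q : 𝓞 K) : K) = (u:K)⁻¹ * q := by
      simp
    rw [this, mul_sub, mul_inv_cancel_left₀ (unit_ne_zero u)]
  rw [e1, F_unit_mul]
  apply h3
  · exact mul_ne_zero (by simp) hq
  · have : ((((u⁻¹ : (𝓞 K)ˣ) : 𝓞 K) * q : 𝓞 K) : K) = ((u⁻¹ : (𝓞 K)ˣ) : K) * q := by simp
    rw [this, vv_unit_mul]
    exact hv

theorem int_ne_zero {q : 𝓞 K} (hq : q ≠ 0) : (q : K) ≠ 0 := by simpa using hq

theorem Hyp.vv_nonneg {t B : ℝ} {W : ℕ} {ξ : K} (h : Hyp 𝔭 t B W ξ) (q : 𝓞 K) :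
    0 ≤ vv 𝔭 (ξ - q) := by
  rcases Pd_sub h.1 (Pd_int q) with h5 | h5
  · exact absurd (sub_eq_zero.1 h5) (h.2.1 q)
  · exact h5

theorem vv_good_sub {n : ℕ} {α : K} (h1 : (n : ℤ) ≤ vv 𝔭 α) {q : 𝓞 K} (hq : q ≠ 0)
    (hv : vv 𝔭 (q : K) < n) : α - q ≠ 0 ∧ vv 𝔭 (α - q) = vv 𝔭 (q : K) := by
  have := vv_eq_of_sub (𝔭 := 𝔭) (W := n) (x := (q:K)) (y := q - α) (by
    rw [sub_sub_cancel]; exact Or.inr h1) (int_ne_zero hq) hv
  rw [← neg_sub (q:K) α]
  exact ⟨neg_ne_zero.2 this.1, by rw [vv_neg]; exact this.2⟩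

theorem good_of_hyp {t B B2 : ℝ} (hB2 : B2 < B) (h : ∀ W : ℕ, ∃ ξ : K, Hyp 𝔭 t B W ξ) :
    (∃ ρ : K, ∀ q : 𝓞 K, B2 ≤ F 𝔭 t (ρ - q)) ∨ ∀ n : ℕ, ∃ α : K, Good 𝔭 t B n α := by
  by_cases hc : ∃ ρ : K, ∀ q : 𝓞 K, B2 ≤ F 𝔭 t (ρ - q)
  · exact Or.inl hc
  right
  push Not at hc
  intro n
  obtain ⟨ξ, hξ⟩ := h n
  obtain ⟨q0, hq0⟩ := hc ξ
  have hlt : F 𝔭 t (ξ - q0) < B := hq0.trans hB2
  have hv : (n:ℤ) ≤ vv 𝔭 (ξ - q0) := by
    by_contra hcon
    push Not at hcon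
    have := hξ.2.2 q0 hcon
    linarith
  refine ⟨ξ - q0, sub_ne_zero.2 (hξ.2.1 q0), hv, hlt, fun q hq hvq => ?_⟩
  have h1 := vv_good_sub hv hq hvq
  have h2 : ξ - (q0:K) - (q:K) = ξ - ((q0 + q : 𝓞 K) : K) := by
    have : ((q0 + q : 𝓞 K) : K) = (q0:K) + (q:K) := by simp
    rw [this, sub_add_eq_sub_sub]
  rw [h2] at h1 ⊢
  apply hξ.2.2
  rw [h1.2]; exact hvq

theorem good_limit {t B : ℝ} {n : ℕ → ℕ} (hn : Tendsto n atTop atTop) {α : ℕ → K}
    (h : ∀ k, Good 𝔭 t B (n k) (α k)) {z : V K} (hz : Tendsto (fun k => io (α k)) atTop (𝓝 z))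
    (q : 𝓞 K) (hq : q ≠ 0) : B ≤ nm (z - io (q:K)) * t ^ (vv 𝔭 (q:K)) := by
  have h1 : Tendsto (fun k => nm (io (α k) - io (q:K)) * t ^ (vv 𝔭 (q:K))) atTop
      (𝓝 (nm (z - io (q:K)) * t ^ (vv 𝔭 (q:K)))) :=
    ((continuous_nm.tendsto _).comp (hz.sub_const _)).mul_const _
  refine ge_of_tendsto h1 ?_
  filter_upwards [hn.eventually_gt_atTop (vv 𝔭 (q:K)).toNat] with k hk
  have hk' : vv 𝔭 (q:K) < n k := by omega
  have h2 := (h k).2.2.2 q hq hk'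
  unfold F at h2
  rw [(vv_good_sub (h k).2.1 hq hk').2, map_sub] at h2
  exact h2

theorem nm_of_good {t B : ℝ} (ht : 1 ≤ t) {n : ℕ} {α : K} (h : Good 𝔭 t B n α) :
    nm (io α) * t ^ n ≤ B := by
  have h1 : t ^ n ≤ t ^ (vv 𝔭 α) := by
    have := zpow_le_zpow_right₀ ht h.2.1
    rwa [zpow_natCast] at this
  have := h.2.2.1
  unfold F at this
  have h2 := mul_le_mul_of_nonneg_left h1 (nm_nonneg (io α))
  linarith

/-- a bounded family with nonzero limit -/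
theorem exists_bdd_limit (hK : 1 ≤ Units.rank K) {t B : ℝ} (ht : 1 ≤ t)
    (h : ∀ n : ℕ, ∃ α : K, Good 𝔭 t B n α) (j : InfinitePlace K) :
    ∃ z ∈ V0 K, 1 ≤ ‖z j‖ ∧ ∀ q : 𝓞 K, q ≠ 0 → B ≤ nm (z - io (q:K)) * t ^ (vv 𝔭 (q:K)) := by
  obtain ⟨E, hE1, hE⟩ := balance (K := K) hK
  obtain ⟨c, hc1, hc2⟩ := exists_contr j hK
  set β : ℝ := max 1 B with hβ
  have hβ1 : 1 ≤ β := le_max_left _ _
  set R : ℝ := max (E * β) ‖io (c:K) j‖ with hR
  have key : ∀ n : ℕ, ∃ α : K, Good 𝔭 t B n α ∧ 1 ≤ ‖io α j‖ ∧ ‖io α‖ ≤ R := by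
    intro n
    obtain ⟨α, hα⟩ := h n
    have hnm : nm (io α) ≤ β ^ finrank ℚ K := by
      have h1 := nm_of_good ht hα
      have h2 : 1 ≤ t ^ n := one_le_pow₀ ht
      have h3 : nm (io α) ≤ nm (io α) * t ^ n := le_mul_of_one_le_right (nm_nonneg _) h2
      have h4 : β ≤ β ^ finrank ℚ K := le_self_pow₀ hβ1 (finrank_pos).ne'
      have h5 : B ≤ β := le_max_right _ _
      linarith
    obtain ⟨u, hu⟩ := hE (io α) β (by linarith) hnm
    set α' : K := (u:K) * α with hα'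
    have hg' : Good 𝔭 t B n α' := good_unit hα u
    have hα'w : ∀ w, ‖io α' w‖ ≤ E * β := by
      intro w
      rw [hα', map_mul]; exact hu w
    by_cases hj : 1 ≤ ‖io α' j‖
    · refine ⟨α', hg', hj, ?_⟩
      rw [pi_norm_le_iff_of_nonneg (le_max_of_le_left (by positivity))]
      intro w
      exact (hα'w w).trans (le_max_left _ _)
    · push Not at hj
      have hpos : 0 < ‖io α' j‖ := by
        rw [norm_io, InfinitePlace.pos_iff]; exact hg'.1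
      obtain ⟨k, hk1, hk2⟩ := dil hc2 hpos hj.le
      refine ⟨((c ^ k : (𝓞 K)ˣ) : K) * α', good_unit hg' _, ?_, ?_⟩
      · rw [map_mul, Pi.mul_apply, norm_mul, io_pow_apply, norm_pow]; exact hk1
      · rw [pi_norm_le_iff_of_nonneg (le_max_of_le_left (by positivity))]
        intro w
        rw [map_mul, Pi.mul_apply, norm_mul, io_pow_apply, norm_pow]
        by_cases hw : w = j
        · subst hw
          refine hk2.trans ?_
          rw [one_mul]; exact le_max_right _ _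
        · have h1 : ‖io (c:K) w‖ ^ k ≤ 1 := pow_le_one₀ (norm_nonneg _) (hc1 w hw).le
          calc ‖io (c:K) w‖ ^ k * ‖io α' w‖ ≤ 1 * ‖io α' w‖ :=
                mul_le_mul_of_nonneg_right h1 (norm_nonneg _)
            _ ≤ R := by rw [one_mul]; exact (hα'w w).trans (le_max_left _ _)
  choose α hg h1 h2 using key
  obtain ⟨z, hz, φ, hφ, hlim⟩ := tendsto_subseq_of_bounded (Metric.isBounded_closedBall (x := (0 : V K)) (r := R))
    (x := fun n => io (α n)) (fun n => by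
    rw [mem_closedBall_zero_iff]; exact h2 n)
  refine ⟨z, ?_, ?_, ?_⟩
  · exact (isClosed_V0 K).mem_of_tendsto hlim (Eventually.of_forall fun n => io_mem_V0 _)
  · have : Tendsto (fun n => ‖(io (α (φ n))) j‖) atTop (𝓝 ‖z j‖) :=
      ((tendsto_pi_nhds.1 hlim) j).norm
    exact ge_of_tendsto this (Eventually.of_forall fun n => h1 _)
  · intro q hq
    exact good_limit (n := φ) hφ.tendsto_atTop (fun k => hg (φ k)) hlim q hq

/-- a limit on a coordinate axis, in case `t > 1` -/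
theorem exists_axis_limit (hK : 1 ≤ Units.rank K) {t B : ℝ} (ht : 1 < t)
    (h : ∀ n : ℕ, ∃ α : K, Good 𝔭 t B n α) (j : InfinitePlace K) :
    ∃ z ∈ V0 K, z j ≠ 0 ∧ (∀ w, w ≠ j → z w = 0) ∧
      ∀ q : 𝓞 K, q ≠ 0 → B ≤ nm (z - io (q:K)) * t ^ (vv 𝔭 (q:K)) := by
  obtain ⟨E, hE1, hE⟩ := balance (K := K) hK
  obtain ⟨c, hc1, hc2⟩ := exists_contr j hK
  have key : ∀ n : ℕ, ∃ m : ℕ, ∃ α : K, n ≤ m ∧ Good 𝔭 t B m α ∧ 1 ≤ ‖io α j‖ ∧
      ‖io α j‖ ≤ ‖io (c:K) j‖ ∧ ∀ w, w ≠ j → ‖io α w‖ ≤ 1 / ((n:ℝ) + 1) := by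
    intro n
    set η : ℝ := 1 / ((n:ℝ) + 1) with hη
    have hη0 : 0 < η := by positivity
    have hη1 : η ≤ 1 := by
      rw [hη, div_le_one (by positivity)]; linarith [(Nat.cast_nonneg n : (0:ℝ) ≤ n)]
    set β : ℝ := η / E with hβ
    have hβ0 : 0 < β := by positivity
    obtain ⟨m, hm1, hm2⟩ : ∃ m : ℕ, n ≤ m ∧ B ≤ β ^ finrank ℚ K * t ^ m := by
      obtain ⟨m, hm⟩ := pow_unbounded_of_one_lt (B / β ^ finrank ℚ K) ht
      refine ⟨max n m, le_max_left _ _, ?_⟩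
      rw [div_lt_iff₀ (by positivity)] at hm
      have h1 : t ^ m ≤ t ^ (max n m) := pow_le_pow_right₀ ht.le (le_max_right _ _)
      have h2 : t ^ m * β ^ finrank ℚ K ≤ t ^ (max n m) * β ^ finrank ℚ K :=
        mul_le_mul_of_nonneg_right h1 (by positivity)
      linarith
    obtain ⟨α, hα⟩ := h m
    have hnm : nm (io α) ≤ β ^ finrank ℚ K := by
      have h1 := nm_of_good ht.le hα
      have h2 : 0 < t ^ m := by positivity
      exact le_of_mul_le_mul_right (h1.trans hm2) h2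
    obtain ⟨u, hu⟩ := hE (io α) β hβ0 hnm
    set α' : K := (u:K) * α with hα'
    have hg' : Good 𝔭 t B m α' := good_unit hα u
    have hα'w : ∀ w, ‖io α' w‖ ≤ η := by
      intro w
      rw [hα', map_mul]
      refine (hu w).trans_eq ?_
      rw [hβ]; field_simp
    have hpos : 0 < ‖io α' j‖ := by
      rw [norm_io, InfinitePlace.pos_iff]; exact hg'.1
    obtain ⟨k, hk1, hk2⟩ := dil hc2 hpos ((hα'w j).trans hη1)
    refine ⟨m, ((c ^ k : (𝓞 K)ˣ) : K) * α', hm1, good_unit hg' _, ?_, ?_, fun w hw => ?_⟩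
    · rw [map_mul, Pi.mul_apply, norm_mul, io_pow_apply, norm_pow]; exact hk1
    · rw [map_mul, Pi.mul_apply, norm_mul, io_pow_apply, norm_pow]
      rw [one_mul] at hk2; exact hk2
    · rw [map_mul, Pi.mul_apply, norm_mul, io_pow_apply, norm_pow]
      have h1 : ‖io (c:K) w‖ ^ k ≤ 1 := pow_le_one₀ (norm_nonneg _) (hc1 w hw).le
      calc ‖io (c:K) w‖ ^ k * ‖io α' w‖ ≤ 1 * ‖io α' w‖ :=
            mul_le_mul_of_nonneg_right h1 (norm_nonneg _)
        _ ≤ η := by rw [one_mul]; exact hα'w w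
  choose m α hm hg h1 h2 h3 using key
  have hbd : ∀ n, ‖io (α n)‖ ≤ ‖io (c:K) j‖ := by
    intro n
    rw [pi_norm_le_iff_of_nonneg (norm_nonneg _)]
    intro w
    by_cases hw : w = j
    · subst hw; exact h2 n
    · refine (h3 n w hw).trans ?_
      have : 1 / ((n:ℝ) + 1) ≤ 1 := by
        rw [div_le_one (by positivity)]; linarith [(Nat.cast_nonneg n : (0:ℝ) ≤ n)]
      linarith
  obtain ⟨z, hz, φ, hφ, hlim⟩ := tendsto_subseq_of_bounded
    (Metric.isBounded_closedBall (x := (0 : V K)) (r := ‖io (c:K) j‖))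
    (x := fun n => io (α n)) (fun n => by
    rw [mem_closedBall_zero_iff]; exact hbd n)
  refine ⟨z, ?_, ?_, ?_, ?_⟩
  · exact (isClosed_V0 K).mem_of_tendsto hlim (Eventually.of_forall fun n => io_mem_V0 _)
  · have : Tendsto (fun n => ‖(io (α (φ n))) j‖) atTop (𝓝 ‖z j‖) :=
      ((tendsto_pi_nhds.1 hlim) j).norm
    have h5 := ge_of_tendsto this (Eventually.of_forall fun n => h1 _)
    intro h6
    rw [h6, norm_zero] at h5
    linarith
  · intro w hw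
    have h4 : Tendsto (fun n => ‖(io (α (φ n))) w‖) atTop (𝓝 ‖z w‖) :=
      ((tendsto_pi_nhds.1 hlim) w).norm
    have h5 : Tendsto (fun n => ‖(io (α (φ n))) w‖) atTop (𝓝 0) := by
      have h6 : Tendsto (fun n : ℕ => 1 / (((φ n : ℕ) : ℝ) + 1)) atTop (𝓝 0) :=
        tendsto_one_div_add_atTop_nhds_zero_nat.comp hφ.tendsto_atTop
      exact squeeze_zero (fun n => norm_nonneg _) (fun n => h3 (φ n) w hw) h6
    have := tendsto_nhds_unique h4 h5
    exact norm_eq_zero.1 this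
  · intro q hq
    refine good_limit (n := fun k => m (φ k)) ?_ (fun k => hg (φ k)) hlim q hq
    exact tendsto_atTop_mono (fun k => hm (φ k)) hφ.tendsto_atTop

/-- removing the exceptional point `q = 0` -/
theorem exists_zprime (hK : 1 ≤ Units.rank K) {B : ℝ} {z : V K} (hz : z ∈ V0 K)
    {j : InfinitePlace K} (hj : 1 ≤ ‖z j‖) (h : ∀ q : 𝓞 K, q ≠ 0 → B ≤ nm (z - io (q:K))) :
    ∃ z' ∈ V0 K, ∀ q : 𝓞 K, B ≤ nm (z' - io (q:K)) := by
  obtain ⟨c, hc1, hc2⟩ := exists_contr j hK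
  have hmem : ∀ k : ℕ, io ((c ^ k : (𝓞 K)ˣ) : K) * z ∈ V0 K := fun k => io_mul_mem_V0 _ hz
  choose p hp using fun k => exists_near (hmem k)
  obtain ⟨z', hz', φ, hφ, hlim⟩ := tendsto_subseq_of_bounded
    (Metric.isBounded_closedBall (x := (0 : V K)) (r := cov K))
    (x := fun k => io ((c ^ k : (𝓞 K)ˣ) : K) * z - io (p k : K)) (fun n => by
    rw [mem_closedBall_zero_iff]; exact hp n)
  refine ⟨z', ?_, fun q => ?_⟩
  · exact (isClosed_V0 K).mem_of_tendsto hlim (Eventually.of_forall fun n =>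
      Submodule.sub_mem _ (hmem _) (io_mem_V0 _))
  · have h1 : Tendsto (fun k => nm ((io ((c ^ (φ k) : (𝓞 K)ˣ) : K) * z - io (p (φ k) : K)) - io (q:K)))
        atTop (𝓝 (nm (z' - io (q:K)))) :=
      ((continuous_nm.tendsto _).comp (hlim.sub_const _))
    refine ge_of_tendsto h1 ?_
    have h2 : Tendsto (fun k : ℕ => ‖io (c:K) j‖ ^ (φ k)) atTop atTop :=
      (tendsto_pow_atTop_atTop_of_one_lt hc2).comp hφ.tendsto_atTop
    filter_upwards [h2.eventually_gt_atTop (cov K + ‖io (q:K) j‖)] with k hk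
    have hne : p (φ k) + q ≠ 0 := by
      intro h0
      have e1 : io (p (φ k) : K) j = - io (q:K) j := by
        have : ((p (φ k) : K)) = - (q:K) := by
          have h00 : ((p (φ k) + q : 𝓞 K) : K) = 0 := by rw [h0]; simp
          have h01 : ((p (φ k) + q : 𝓞 K) : K) = (p (φ k) : K) + (q:K) := by simp
          rw [h01] at h00
          exact eq_neg_of_add_eq_zero_left h00
        rw [this, map_neg]; rfl
      have e2 : ‖(io ((c ^ (φ k) : (𝓞 K)ˣ) : K) * z - io (p (φ k) : K)) j‖ ≤ cov K :=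
        (norm_le_pi_norm _ j).trans (hp (φ k))
      rw [Pi.sub_apply, Pi.mul_apply, e1, sub_neg_eq_add, io_pow_apply] at e2
      have e3 : ‖(io (c:K) j) ^ φ k * z j‖ ≤ cov K + ‖io (q:K) j‖ := by
        calc ‖(io (c:K) j) ^ φ k * z j‖ = ‖((io (c:K) j) ^ φ k * z j + io (q:K) j) - io (q:K) j‖ := by
              rw [add_sub_cancel_right]
          _ ≤ ‖(io (c:K) j) ^ φ k * z j + io (q:K) j‖ + ‖io (q:K) j‖ := norm_sub_le _ _
          _ ≤ _ := by linarith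
      rw [norm_mul, norm_pow] at e3
      have e4 : ‖io (c:K) j‖ ^ φ k ≤ ‖io (c:K) j‖ ^ φ k * ‖z j‖ :=
        le_mul_of_one_le_right (by positivity) hj
      linarith
    set u : (𝓞 K)ˣ := c ^ (φ k) with hu
    have e5 : io (u : K) * z - io (p (φ k) : K) - io (q:K)
        = io (u:K) * (z - io ((((u⁻¹ : (𝓞 K)ˣ) : 𝓞 K) * (p (φ k) + q) : 𝓞 K) : K)) := by
      have e6 : ((((u⁻¹ : (𝓞 K)ˣ) : 𝓞 K) * (p (φ k) + q) : 𝓞 K) : K) =
          (u:K)⁻¹ * ((p (φ k) : K) + (q:K)) := by simp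
      rw [e6, mul_sub, ← map_mul, mul_inv_cancel_left₀ (unit_ne_zero u), map_add]
      ring
    rw [e5, nm_mul, nm_unit, one_mul]
    exact h _ (mul_ne_zero (by simp) hne)

end Pool.Agent.EuclW
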