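import Pool.Agent.EuclW.R2t

open NumberField Module IsDedekindDomain nonZeroDivisors Filter Topology

set_option linter.unusedSectionVars false
set_option linter.unusedVariables false

namespace Pool.Agent.EuclW

variable {K : Type*} [Field K] [NumberField K]

/-- closed invariant sets -/
structure Inv (W : Submodule ℝ (V K)) (H : Subgroup (𝓞 K)ˣ) (M : Set (V K)) : Prop where
  closed : IsClosed M
  nonempty : M.Nonempty
  sub : ∀ z ∈ M, z ∈ V0 K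
  lam : ∀ z ∈ M, ∀ q : 𝓞 K, z + io (q:K) ∈ M
  tr : ∀ z ∈ M, ∀ w ∈ W, z + w ∈ M
  act : ∀ u ∈ H, ∀ z ∈ M, io ((u : (𝓞 K)ˣ) : K) * z ∈ M

/-- minimal closed invariant sets -/
def IsMin (W : Submodule ℝ (V K)) (H : Subgroup (𝓞 K)ˣ) (M : Set (V K)) : Prop :=
  Inv W H M ∧ ∀ M' ⊆ M, Inv W H M' → M' = M

theorem Inv.mono {W : Submodule ℝ (V K)} {H H' : Subgroup (𝓞 K)ˣ} {M : Set (V K)}
    (h : Inv W H M) (hH : H' ≤ H) : Inv W H' M :=
  ⟨h.closed, h.nonempty, h.sub, h.lam, h.tr, fun u hu => h.act u (hH hu)⟩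

theorem Inv.lam_sub {W : Submodule ℝ (V K)} {H : Subgroup (𝓞 K)ˣ} {M : Set (V K)}
    (h : Inv W H M) {z : V K} (hz : z ∈ M) (q : 𝓞 K) : z - io (q:K) ∈ M := by
  have := h.lam z hz (-q)
  have h2 : ((-q : 𝓞 K) : K) = -(q:K) := by simp
  rwa [h2, map_neg, ← sub_eq_add_neg] at this

theorem Inv.exists_bdd {W : Submodule ℝ (V K)} {H : Subgroup (𝓞 K)ˣ} {M : Set (V K)}
    (h : Inv W H M) {z : V K} (hz : z ∈ M) : ∃ q : 𝓞 K, z - io (q:K) ∈ M ∧ ‖z - io (q:K)‖ ≤ cov K := by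
  obtain ⟨q, hq⟩ := exists_near (h.sub z hz)
  exact ⟨q, h.lam_sub hz q, hq⟩

theorem Inv.inter_ball {W : Submodule ℝ (V K)} {H : Subgroup (𝓞 K)ˣ} {M : Set (V K)}
    (h : Inv W H M) : (M ∩ Metric.closedBall 0 (cov K)).Nonempty := by
  obtain ⟨z, hz⟩ := h.nonempty
  obtain ⟨q, hq1, hq2⟩ := h.exists_bdd hz
  exact ⟨_, hq1, by rw [mem_closedBall_zero_iff]; exact hq2⟩

theorem exists_min {W : Submodule ℝ (V K)} {H : Subgroup (𝓞 K)ˣ} {X : Set (V K)}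
    (hX : Inv W H X) : ∃ M ⊆ X, IsMin W H M := by
  obtain ⟨M, hMX, hM⟩ := zorn_superset_nonempty {M : Set (V K) | Inv W H M} (by
    intro c hc hchain hne
    refine ⟨⋂₀ c, ?_, fun s hs => Set.sInter_subset_of_mem hs⟩
    refine ⟨isClosed_sInter fun s hs => (hc hs).closed, ?_, ?_, ?_, ?_, ?_⟩
    · have : Nonempty c := hne.to_subtype
      have h1 : (⋂ i : c, ((i : Set (V K)) ∩ Metric.closedBall 0 (cov K))).Nonempty := by
        apply IsCompact.nonempty_iInter_of_directed_nonempty_isCompact_isClosed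
        · intro a b
          rcases hchain.total a.2 b.2 with h | h
          · exact ⟨a, fun x hx => hx, fun x hx => ⟨h hx.1, hx.2⟩⟩
          · exact ⟨b, fun x hx => ⟨h hx.1, hx.2⟩, fun x hx => hx⟩
        · intro a; exact (hc a.2).inter_ball
        · intro a; exact (isCompact_closedBall _ _).inter_left (hc a.2).closed
        · intro a; exact (hc a.2).closed.inter Metric.isClosed_closedBall
      obtain ⟨x, hx⟩ := h1
      refine ⟨x, fun s hs => ?_⟩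
      rw [Set.mem_iInter] at hx
      exact (hx ⟨s, hs⟩).1
    · intro z hz
      obtain ⟨s, hs⟩ := hne
      exact (hc hs).sub z (hz s hs)
    · intro z hz q s hs
      exact (hc hs).lam z (hz s hs) q
    · intro z hz w hw s hs
      exact (hc hs).tr z (hz s hs) w hw
    · intro u hu z hz s hs
      exact (hc hs).act u hu z (hz s hs)) X hX
  refine ⟨M, hMX, hM.prop, fun M' hM' hInv => ?_⟩
  exact le_antisymm hM' (hM.le_of_le hInv hM')

/-- translation stability of minimal sets -/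
theorem IsMin.trans {W : Submodule ℝ (V K)} {H : Subgroup (𝓞 K)ˣ} {M : Set (V K)}
    (h : IsMin W H M) {τ : V K} (hτ : ∀ u ∈ H, ∃ q : 𝓞 K, io ((u : (𝓞 K)ˣ) : K) * τ - τ = io (q:K))
    {z0 : V K} (hz0 : z0 ∈ M) (hz0' : z0 + τ ∈ M) {z : V K} (hz : z ∈ M) : z + τ ∈ M := by
  have h1 : Inv W H {z | z ∈ M ∧ z + τ ∈ M} := by
    refine ⟨?_, ⟨z0, hz0, hz0'⟩, fun z hz => h.1.sub z hz.1, ?_, ?_, ?_⟩
    · exact h.1.closed.inter (h.1.closed.preimage (continuous_add_const τ))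
    · rintro z ⟨h1, h2⟩ q
      refine ⟨h.1.lam z h1 q, ?_⟩
      rw [add_right_comm]; exact h.1.lam _ h2 q
    · rintro z ⟨h1, h2⟩ w hw
      refine ⟨h.1.tr z h1 w hw, ?_⟩
      rw [add_right_comm]; exact h.1.tr _ h2 w hw
    · rintro u hu z ⟨h1, h2⟩
      refine ⟨h.1.act u hu z h1, ?_⟩
      obtain ⟨q, hq⟩ := hτ u hu
      have h3 := h.1.lam_sub (h.1.act u hu _ h2) q
      have h4 : io (u:K) * (z + τ) - io (q:K) = io (u:K) * z + τ := by
        rw [← hq]; ring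
      rwa [h4] at h3
  have h2 := h.2 _ (fun z hz => hz.1) h1
  have : z ∈ {z | z ∈ M ∧ z + τ ∈ M} := by rw [h2]; exact hz
  exact this.2

/-- difference sets -/
def Df (M : Set (V K)) : Set (V K) := {d | ∃ z ∈ M, z + d ∈ M}

section Df

variable {W : Submodule ℝ (V K)} {H : Subgroup (𝓞 K)ˣ} {M : Set (V K)} (h : Inv W H M)

include h

theorem Df_closed : IsClosed (Df M) := by
  rw [← isSeqClosed_iff_isClosed]
  intro d d0 hd hlim
  choose z hz hz' using hd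
  choose q hq1 hq2 using fun n => h.exists_bdd (hz n)
  obtain ⟨z0, _, φ, hφ, hzlim⟩ := tendsto_subseq_of_bounded
    (Metric.isBounded_closedBall (x := (0 : V K)) (r := cov K))
    (x := fun n => z n - io (q n : K)) (fun n => by rw [mem_closedBall_zero_iff]; exact hq2 n)
  refine ⟨z0, h.closed.mem_of_tendsto hzlim (Eventually.of_forall fun n => hq1 _), ?_⟩
  have h1 := hzlim.add (hlim.comp hφ.tendsto_atTop)
  refine h.closed.mem_of_tendsto h1 (Eventually.of_forall fun n => ?_)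
  have h2 := h.lam_sub (hz' (φ n)) (q (φ n))
  have h3 : z (φ n) + d (φ n) - io (q (φ n) : K) = z (φ n) - io (q (φ n) : K) + d (φ n) := by abel
  rwa [h3] at h2

theorem Df_lam : ∀ z ∈ Df M, ∀ q : 𝓞 K, z + io (q:K) ∈ Df M := by
  rintro d ⟨z, hz, hz'⟩ q
  refine ⟨z, hz, ?_⟩
  rw [← add_assoc]; exact h.lam _ hz' q

theorem Df_lam1 : ∀ z ∈ Df M, ∀ q : 𝓞 K, z + io (((1:ℕ) : K) * (q:K)) ∈ Df M := by
  intro z hz q
  rw [Nat.cast_one, one_mul]; exact Df_lam h z hz q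

theorem Df_tr : ∀ z ∈ Df M, ∀ w ∈ W, z + w ∈ Df M := by
  rintro d ⟨z, hz, hz'⟩ w hw
  refine ⟨z, hz, ?_⟩
  rw [← add_assoc]; exact h.tr _ hz' w hw

theorem Df_act : ∀ u ∈ H, ∀ z ∈ Df M, io ((u : (𝓞 K)ˣ) : K) * z ∈ Df M := by
  rintro u hu d ⟨z, hz, hz'⟩
  refine ⟨io (u:K) * z, h.act u hu z hz, ?_⟩
  rw [← mul_add]; exact h.act u hu _ hz'

theorem Df_neg : ∀ z ∈ Df M, -z ∈ Df M := by
  rintro d ⟨z, hz, hz'⟩
  exact ⟨z + d, hz', by rw [add_neg_cancel_right]; exact hz⟩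

theorem Df_sub : ∀ z ∈ Df M, z ∈ V0 K := by
  rintro d ⟨z, hz, hz'⟩
  have := Submodule.sub_mem _ (h.sub _ hz') (h.sub _ hz)
  rwa [add_sub_cancel_left] at this

/-- small nontrivial differences -/
theorem Df_small (hK : 1 ≤ Units.rank K) (hH : FE H)
    (hWH : ∀ u ∈ H, ∀ w ∈ W, io ((u : (𝓞 K)ˣ) : K) * w ∈ W)
    (hrat : ∀ ρ : K, io ρ ∉ M) {ε : ℝ} (hε : 0 < ε) : ∃ δ ∈ Df M, δ ∉ W ∧ ‖δ‖ < ε := by
  obtain ⟨z, hz⟩ := h.nonempty
  set j : InfinitePlace K := Classical.ofNonempty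
  obtain ⟨c, hcH, hc1, hc2⟩ := exists_contr_FE hH j hK
  have hza : ∀ a : ℕ, io ((c ^ a : (𝓞 K)ˣ) : K) * z ∈ M := fun a => h.act _ (H.pow_mem hcH a) z hz
  choose q hq1 hq2 using fun a => h.exists_bdd (hza a)
  obtain ⟨a, b, hab, hclose⟩ := exists_close (x := fun a => io ((c ^ a : (𝓞 K)ˣ) : K) * z - io (q a : K))
    (Metric.isBounded_closedBall (x := (0 : V K)) (r := cov K))
    (fun n => by rw [mem_closedBall_zero_iff]; exact hq2 n) hε
  set ra := io ((c ^ a : (𝓞 K)ˣ) : K) * z - io (q a : K) with hra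
  set rb := io ((c ^ b : (𝓞 K)ˣ) : K) * z - io (q b : K) with hrb
  refine ⟨rb - ra, ⟨ra, hq1 a, by rw [add_sub_cancel]; exact hq1 b⟩, ?_, ?_⟩
  · intro hW
    set g : K := ((c ^ b : (𝓞 K)ˣ) : K) - ((c ^ a : (𝓞 K)ˣ) : K) with hg
    have hg0 : g ≠ 0 := by
      intro h0
      have h1 : ((c ^ b : (𝓞 K)ˣ) : K) = ((c ^ a : (𝓞 K)ˣ) : K) := sub_eq_zero.1 h0
      have h2 := congrArg (fun x => ‖io x j‖) h1
      rw [io_pow_apply, io_pow_apply, norm_pow, norm_pow] at h2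
      have h3 : ‖io (c:K) j‖ ^ a < ‖io (c:K) j‖ ^ b := pow_lt_pow_right₀ hc2 hab
      linarith
    -- multiplication by g on W
    have hgW : ∀ w ∈ W, io g * w ∈ W := by
      intro w hw
      rw [hg, map_sub, sub_mul]
      exact W.sub_mem (hWH _ (H.pow_mem hcH b) w hw) (hWH _ (H.pow_mem hcH a) w hw)
    set T : W →ₗ[ℝ] W :=
      { toFun := fun w => ⟨io g * w, hgW w w.2⟩
        map_add' := fun x y => by
          apply Subtype.ext
          change io g * ((x : V K) + y) = io g * x + io g * y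
          rw [mul_add]
        map_smul' := fun r x => by
          apply Subtype.ext
          change io g * (r • (x : V K)) = r • (io g * x)
          rw [mul_smul_comm] } with hT
    have hTinj : Function.Injective T := by
      intro x y hxy
      have h1 := congrArg (fun w : W => (w : V K)) hxy
      change io g * (x : V K) = io g * (y : V K) at h1
      have h2 : io g⁻¹ * (io g * (x : V K)) = io g⁻¹ * (io g * (y : V K)) := by rw [h1]
      rw [← mul_assoc, ← mul_assoc, ← map_mul, inv_mul_cancel₀ hg0, map_one, one_mul, one_mul] at h2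
      exact Subtype.ext h2
    obtain ⟨w', hw'⟩ := LinearMap.surjective_of_injective hTinj ⟨rb - ra, hW⟩
    have h1 := congrArg (fun w : W => (w : V K)) hw'
    change io g * (w' : V K) = rb - ra at h1
    apply hrat (g⁻¹ * ((q b : K) - (q a : K)))
    have h2 := h.tr z hz (-(w' : V K)) (W.neg_mem w'.2)
    have h3 : z + -(w' : V K) = io (g⁻¹ * ((q b : K) - (q a : K))) := by
      have h4 : io g * (z + -(w' : V K)) = io ((q b : K) - (q a : K)) := by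
        rw [mul_add, mul_neg, h1, hra, hrb, hg, map_sub, map_sub]; ring
      have h5 : io g⁻¹ * (io g * (z + -(w' : V K))) = io g⁻¹ * io ((q b : K) - (q a : K)) := by
        rw [h4]
      rw [← mul_assoc, ← map_mul, inv_mul_cancel₀ hg0, map_one, one_mul, ← map_mul] at h5
      exact h5
    rwa [h3] at h2
  · rw [dist_comm, dist_eq_norm] at hclose
    exact hclose

end Df

/-- expansion along a place -/
theorem expand (hK : 1 ≤ Units.rank K) {H : Subgroup (𝓞 K)ˣ} (hH : FE H) (j : InfinitePlace K)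
    {D : Set (V K)} (hD : IsClosed D) (hHD : ∀ u ∈ H, ∀ z ∈ D, io ((u : (𝓞 K)ˣ) : K) * z ∈ D)
    {Qs : Set ℂ} (hQ : IsClosed Qs) (hQH : ∀ u ∈ H, ∀ y ∈ Qs, io ((u : (𝓞 K)ˣ) : K) j * y ∈ Qs)
    (h : ∀ ε > 0, ∃ δ ∈ D, ‖δ‖ < ε ∧ δ j ≠ 0 ∧ δ j ∈ Qs) : ∃ x ∈ Qs, 1 ≤ ‖x‖ ∧ ax j x ∈ D := by
  obtain ⟨c, hcH, hc1, hc2⟩ := exists_contr_FE hH j hK
  have key : ∀ n : ℕ, ∃ d ∈ D, d j ∈ Qs ∧ 1 ≤ ‖d j‖ ∧ ‖d j‖ ≤ ‖io (c:K) j‖ ∧
      ∀ w, w ≠ j → ‖d w‖ ≤ 1 / ((n:ℝ) + 1) := by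
    intro n
    have hn1 : 1 / ((n:ℝ) + 1) ≤ 1 := by
      rw [div_le_one (by positivity)]; linarith [(Nat.cast_nonneg n : (0:ℝ) ≤ n)]
    obtain ⟨δ, hδD, hδn, hδ0, hδQ⟩ := h (1 / ((n:ℝ) + 1)) (by positivity)
    have hδj : ‖δ j‖ ≤ 1 := ((norm_le_pi_norm δ j).trans hδn.le).trans hn1
    obtain ⟨k, hk1, hk2⟩ := dil hc2 (norm_pos_iff.2 hδ0) hδj
    refine ⟨io ((c ^ k : (𝓞 K)ˣ) : K) * δ, hHD _ (H.pow_mem hcH k) _ hδD, ?_, ?_, ?_, ?_⟩
    · rw [Pi.mul_apply]; exact hQH _ (H.pow_mem hcH k) _ hδQ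
    · rw [Pi.mul_apply, norm_mul, io_pow_apply, norm_pow]; exact hk1
    · rw [Pi.mul_apply, norm_mul, io_pow_apply, norm_pow]
      rw [one_mul] at hk2; exact hk2
    · intro w hw
      rw [Pi.mul_apply, norm_mul, io_pow_apply, norm_pow]
      have h1 : ‖io (c:K) w‖ ^ k ≤ 1 := pow_le_one₀ (norm_nonneg _) (hc1 w hw).le
      calc ‖io (c:K) w‖ ^ k * ‖δ w‖ ≤ 1 * ‖δ w‖ := mul_le_mul_of_nonneg_right h1 (norm_nonneg _)
        _ ≤ 1 / ((n:ℝ) + 1) := by rw [one_mul]; exact (norm_le_pi_norm δ w).trans hδn.le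
  choose d hdD hdQ hd1 hd2 hd3 using key
  have hbd : ∀ n, ‖d n‖ ≤ ‖io (c:K) j‖ := by
    intro n
    rw [pi_norm_le_iff_of_nonneg (norm_nonneg _)]
    intro w
    by_cases hw : w = j
    · subst hw; exact hd2 n
    · refine (hd3 n w hw).trans ?_
      have : 1 / ((n:ℝ) + 1) ≤ 1 := by
        rw [div_le_one (by positivity)]; linarith [(Nat.cast_nonneg n : (0:ℝ) ≤ n)]
      linarith
  obtain ⟨z, hz, φ, hφ, hlim⟩ := tendsto_subseq_of_bounded
    (Metric.isBounded_closedBall (x := (0 : V K)) (r := ‖io (c:K) j‖))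
    (x := d) (fun n => by rw [mem_closedBall_zero_iff]; exact hbd n)
  have hj : Tendsto (fun n => d (φ n) j) atTop (𝓝 (z j)) := (tendsto_pi_nhds.1 hlim) j
  have hzax : ∀ w, w ≠ j → z w = 0 := by
    intro w hw
    have h4 : Tendsto (fun n => ‖d (φ n) w‖) atTop (𝓝 ‖z w‖) := ((tendsto_pi_nhds.1 hlim) w).norm
    have h5 : Tendsto (fun n => ‖d (φ n) w‖) atTop (𝓝 0) := by
      have h6 : Tendsto (fun n : ℕ => 1 / (((φ n : ℕ) : ℝ) + 1)) atTop (𝓝 0) :=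
        tendsto_one_div_add_atTop_nhds_zero_nat.comp hφ.tendsto_atTop
      exact squeeze_zero (fun n => norm_nonneg _) (fun n => hd3 (φ n) w hw) h6
    exact norm_eq_zero.1 (tendsto_nhds_unique h4 h5)
  refine ⟨z j, hQ.mem_of_tendsto hj (Eventually.of_forall fun n => hdQ _),
    ge_of_tendsto hj.norm (Eventually.of_forall fun n => hd1 _), ?_⟩
  rw [← eq_ax hzax]
  exact hD.mem_of_tendsto hlim (Eventually.of_forall fun n => hdD _)

/-- congruence subgroups -/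
def Uc (K : Type*) [Field K] [NumberField K] (m : ℕ) : Subgroup (𝓞 K)ˣ where
  carrier := {u | ∃ q : 𝓞 K, (u : 𝓞 K) - 1 = (m : 𝓞 K) * q}
  one_mem' := ⟨0, by simp⟩
  mul_mem' := by
    rintro u v ⟨q, hq⟩ ⟨r, hr⟩
    refine ⟨(u : 𝓞 K) * r + q, ?_⟩
    rw [Units.val_mul]
    linear_combination hq + (u : 𝓞 K) * hr
  inv_mem' := by
    rintro u ⟨q, hq⟩
    refine ⟨-((u⁻¹ : (𝓞 K)ˣ) : 𝓞 K) * q, ?_⟩
    have h1 : ((u⁻¹ : (𝓞 K)ˣ) : 𝓞 K) * (u : 𝓞 K) = 1 := by simp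
    linear_combination (-((u⁻¹ : (𝓞 K)ˣ) : 𝓞 K)) * hq + h1

theorem FE_Uc {m : ℕ} (hm : 1 ≤ m) : FE (Uc K m) := by
  obtain ⟨h, hh, H⟩ := unit_pow_cong (K := K) m hm
  exact ⟨h, hh, H⟩

theorem Uc_fix {m : ℕ} (hm : 1 ≤ m) {u : (𝓞 K)ˣ} (hu : u ∈ Uc K m) (q : 𝓞 K) :
    ∃ q' : 𝓞 K, io (u : K) * ((m:ℝ)⁻¹ • io (q:K)) - (m:ℝ)⁻¹ • io (q:K) = io (q' : K) := by
  obtain ⟨r, hr⟩ := hu
  refine ⟨r * q, ?_⟩
  have h1 : (u:K) - 1 = (m:K) * (r:K) := by
    have := congrArg (algebraMap (𝓞 K) K) hr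
    rw [map_sub, map_one, map_mul, map_natCast] at this
    exact this
  have hm0 : (m:ℝ) ≠ 0 := by positivity
  have h2 : io (u : K) * ((m:ℝ)⁻¹ • io (q:K)) - (m:ℝ)⁻¹ • io (q:K)
      = (m:ℝ)⁻¹ • (io ((u:K) - 1) * io (q:K)) := by
    rw [mul_smul_comm, ← smul_sub, map_sub, map_one]; congr 1; ring
  rw [h2, h1, map_mul, map_natCast]
  have h3 : ((r * q : 𝓞 K) : K) = (r:K) * q := by simp
  rw [h3, map_mul]
  ext w
  simp only [Pi.smul_apply, Pi.mul_apply, Pi.natCast_apply]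
  rw [Complex.real_smul]
  push_cast
  have : (m:ℂ) ≠ 0 := by exact_mod_cast hm0
  field_simp

end Pool.Agent.EuclW
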