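import Pool.Agent.EuclW.R1a

open NumberField Module IsDedekindDomain nonZeroDivisors Filter Topology

set_option linter.unusedSectionVars false
set_option linter.unusedVariables false

namespace Pool.Agent.EuclW

variable {K : Type*} [Field K] [NumberField K] {𝔭 : HeightOneSpectrum (𝓞 K)}

/-- normalized absolute value -/
noncomputable def NN (w : InfinitePlace K) (x : K) : ℝ := ‖io x w‖ ^ w.mult

theorem mult_cases (w : InfinitePlace K) : w.mult = 1 ∨ w.mult = 2 := by
  unfold InfinitePlace.mult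
  split_ifs <;> simp

theorem NN_nonneg (w : InfinitePlace K) (x : K) : 0 ≤ NN w x := by unfold NN; positivity

theorem NN_mul (w : InfinitePlace K) (x y : K) : NN w (x * y) = NN w x * NN w y := by
  unfold NN; rw [map_mul, Pi.mul_apply, norm_mul, mul_pow]

theorem NN_neg (w : InfinitePlace K) (x : K) : NN w (-x) = NN w x := by
  unfold NN; rw [map_neg, Pi.neg_apply, norm_neg]

theorem NN_pos (w : InfinitePlace K) {x : K} (hx : x ≠ 0) : 0 < NN w x := by
  unfold NN
  have : 0 < ‖io x w‖ := by rw [norm_io, InfinitePlace.pos_iff]; exact hx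
  positivity

theorem NN_zero (w : InfinitePlace K) : NN w (0:K) = 0 := by
  unfold NN
  rw [map_zero, Pi.zero_apply, norm_zero, zero_pow InfinitePlace.mult_ne_zero]

theorem NN_small {w : InfinitePlace K} {x : K} (h : NN w x < 1/4) : ‖io x w‖ < 1/2 := by
  unfold NN at h
  have := norm_nonneg (io x w)
  rcases mult_cases w with hm | hm
  · rw [hm, pow_one] at h; linarith
  · rw [hm] at h; nlinarith

theorem pow_mult_le {w : InfinitePlace K} {c : ℝ} (hc : 1 ≤ c) : c ^ w.mult ≤ c ^ 2 := by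
  apply pow_le_pow_right₀ hc
  rcases mult_cases w with hm | hm <;> omega

theorem NN_add_le (w : InfinitePlace K) (x y : K) :
    NN w (x + y) ≤ 4 * max (NN w x) (NN w y) := by
  unfold NN
  set m := max ‖io x w‖ ‖io y w‖ with hm
  have hm0 : 0 ≤ m := le_max_of_le_left (norm_nonneg _)
  have h1 : ‖io (x + y) w‖ ≤ 2 * m := by
    rw [map_add, Pi.add_apply]
    have := norm_add_le (io x w) (io y w)
    have h2 : ‖io x w‖ ≤ m := le_max_left _ _
    have h3 : ‖io y w‖ ≤ m := le_max_right _ _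
    linarith
  have h2 : m ^ w.mult ≤ max (‖io x w‖ ^ w.mult) (‖io y w‖ ^ w.mult) := by
    rcases le_total ‖io x w‖ ‖io y w‖ with h | h
    · rw [hm, max_eq_right h]; exact le_max_right _ _
    · rw [hm, max_eq_left h]; exact le_max_left _ _
  calc ‖io (x + y) w‖ ^ w.mult ≤ (2 * m) ^ w.mult := pow_le_pow_left₀ (norm_nonneg _) h1 _
    _ = 2 ^ w.mult * m ^ w.mult := mul_pow _ _ _
    _ ≤ 2 ^ 2 * m ^ w.mult := mul_le_mul_of_nonneg_right (pow_mult_le (by norm_num)) (by positivity)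
    _ ≤ 4 * max (‖io x w‖ ^ w.mult) (‖io y w‖ ^ w.mult) := by nlinarith

theorem NN_rel {w : InfinitePlace K} {x y : K} {θ : ℝ} (h0 : 0 ≤ θ) (h1 : θ ≤ 1)
    (h : NN w y ≤ θ ^ 2 * NN w x) :
    NN w (x + y) ≤ (1 + θ) ^ 2 * NN w x ∧ (1 - θ) ^ 2 * NN w x ≤ NN w (x + y) := by
  unfold NN at *
  have hx := norm_nonneg (io x w)
  have hy := norm_nonneg (io y w)
  have hxy := norm_nonneg (io (x + y) w)
  have hyx : ‖io y w‖ ≤ θ * ‖io x w‖ := by
    rcases mult_cases w with hm | hm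
    · rw [hm, pow_one, pow_one] at h
      have h9 : θ ^ 2 ≤ θ := by nlinarith
      have : θ ^ 2 * ‖io x w‖ ≤ θ * ‖io x w‖ := mul_le_mul_of_nonneg_right h9 hx
      linarith
    · rw [hm, ← mul_pow] at h
      exact le_of_sq_le_sq h (by positivity)
  have h2 : ‖io (x + y) w‖ ≤ (1 + θ) * ‖io x w‖ := by
    rw [map_add, Pi.add_apply]
    have := norm_add_le (io x w) (io y w)
    linarith
  have h3 : (1 - θ) * ‖io x w‖ ≤ ‖io (x + y) w‖ := by
    rw [map_add, Pi.add_apply]
    have h4 := norm_sub_le (io x w + io y w) (io y w)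
    rw [add_sub_cancel_right] at h4
    linarith
  rcases mult_cases w with hm | hm
  · rw [hm, pow_one, pow_one]
    constructor
    · have : (1 + θ) * ‖io x w‖ ≤ (1 + θ) ^ 2 * ‖io x w‖ := by nlinarith
      linarith
    · have : (1 - θ) ^ 2 * ‖io x w‖ ≤ (1 - θ) * ‖io x w‖ := by
        have : (1 - θ) ^ 2 ≤ (1 - θ) := by nlinarith
        exact mul_le_mul_of_nonneg_right this hx
      linarith
  · rw [hm, ← mul_pow, ← mul_pow]
    constructor
    · exact pow_le_pow_left₀ hxy h2 2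
    · exact pow_le_pow_left₀ (mul_nonneg (by linarith) hx) h3 2

theorem max_pow_mult (w : InfinitePlace K) (x y : K) :
    (max ‖io x w‖ ‖io y w‖) ^ w.mult ≤ max (NN w x) (NN w y) := by
  unfold NN
  rcases le_total ‖io x w‖ ‖io y w‖ with h | h
  · rw [max_eq_right h]; exact le_max_right _ _
  · rw [max_eq_left h]; exact le_max_left _ _

theorem est1 {w : InfinitePlace K} {e s σ ω ρ : K} (hs : s = 1 ∨ s = -1)
    (hρ : (e ^ 2 + 1) * ρ = (e + s) * (e * σ - ω)) (he : 2 ≤ ‖io e w‖) :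
    NN w e * NN w (ρ - σ) ≤ 16 * max (NN w σ) (NN w ω) := by
  have h1 : (e ^ 2 + 1) * (ρ - σ) = s * e * σ - e * ω - s * ω - σ := by
    rw [mul_sub, hρ]; ring
  have h2 := congrArg (fun z => ‖io z w‖) h1
  simp only [map_mul, map_sub, map_add, map_pow, map_one, Pi.mul_apply, Pi.sub_apply, Pi.add_apply,
    Pi.pow_apply, Pi.one_apply, norm_mul] at h2
  set m := max ‖io σ w‖ ‖io ω w‖ with hm
  have hm0 : 0 ≤ m := le_max_of_le_left (norm_nonneg _)
  have hσ : ‖io σ w‖ ≤ m := le_max_left _ _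
  have hω : ‖io ω w‖ ≤ m := le_max_right _ _
  have hs1 : ‖io s w‖ = 1 := by
    rcases hs with h | h
    · rw [h]; simp
    · rw [h]; simp
  set E := ‖io e w‖ with hE
  have h3 : E ^ 2 - 1 ≤ ‖(io e w) ^ 2 + 1‖ := by
    have := norm_sub_norm_le ((io e w) ^ 2) (-1)
    rw [norm_neg, norm_one, norm_pow, sub_neg_eq_add] at this
    exact this
  have h4 : ‖io s w * io e w * io σ w - io e w * io ω w - io s w * io ω w - io σ w‖
      ≤ E * m + E * m + m + m := by
    refine (norm_sub_le _ _).trans ?_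
    refine add_le_add ((norm_sub_le _ _).trans ?_) hσ
    refine add_le_add ((norm_sub_le _ _).trans ?_) ?_
    · refine add_le_add ?_ ?_
      · rw [norm_mul, norm_mul, hs1, one_mul]
        exact mul_le_mul_of_nonneg_left hσ (by positivity)
      · rw [norm_mul]
        exact mul_le_mul_of_nonneg_left hω (by positivity)
    · rw [norm_mul, hs1, one_mul]; exact hω
  rw [← h2] at h4
  have hd : ‖io ρ w - io σ w‖ = ‖io (ρ - σ) w‖ := by rw [map_sub, Pi.sub_apply]
  rw [hd] at h4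
  have hd0 := norm_nonneg (io (ρ - σ) w)
  have h5 : (E ^ 2 - 1) * ‖io (ρ - σ) w‖ ≤ 2 * m * (E + 1) := by
    have := mul_le_mul_of_nonneg_right h3 hd0
    linarith
  have h6 : (E - 1) * ‖io (ρ - σ) w‖ ≤ 2 * m := by
    have h7 : (E + 1) * ((E - 1) * ‖io (ρ - σ) w‖) ≤ (E + 1) * (2 * m) := by nlinarith
    exact le_of_mul_le_mul_left h7 (by linarith)
  have h8 : E * ‖io (ρ - σ) w‖ ≤ 4 * m := by nlinarith
  calc NN w e * NN w (ρ - σ) = (E * ‖io (ρ - σ) w‖) ^ w.mult := by
        unfold NN; rw [mul_pow]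
    _ ≤ (4 * m) ^ w.mult := pow_le_pow_left₀ (by positivity) h8 _
    _ = 4 ^ w.mult * m ^ w.mult := mul_pow _ _ _
    _ ≤ 4 ^ 2 * m ^ w.mult := mul_le_mul_of_nonneg_right (pow_mult_le (by norm_num)) (by positivity)
    _ ≤ 16 * max (NN w σ) (NN w ω) := by
        have := max_pow_mult w σ ω
        rw [← hm] at this
        nlinarith

theorem est2 {w : InfinitePlace K} {e s σ ω ρ : K} (hs : s = 1 ∨ s = -1)
    (hρ : (e ^ 2 + 1) * ρ = (e + s) * (e * σ - ω)) (he : ‖io e w‖ ≤ 1/4) :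
    NN w (ρ - σ) ≤ 16 * max (NN w σ) (NN w ω) := by
  have h2 := congrArg (fun z => ‖io z w‖) hρ
  simp only [map_mul, map_sub, map_add, map_pow, map_one, Pi.mul_apply, Pi.sub_apply, Pi.add_apply,
    Pi.pow_apply, Pi.one_apply, norm_mul] at h2
  set m := max ‖io σ w‖ ‖io ω w‖ with hm
  have hm0 : 0 ≤ m := le_max_of_le_left (norm_nonneg _)
  have hσ : ‖io σ w‖ ≤ m := le_max_left _ _
  have hω : ‖io ω w‖ ≤ m := le_max_right _ _
  have hs1 : ‖io s w‖ = 1 := by
    rcases hs with h | h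
    · rw [h]; simp
    · rw [h]; simp
  set E := ‖io e w‖ with hE
  have hE0 : 0 ≤ E := norm_nonneg _
  have h3 : 15/16 ≤ ‖(io e w) ^ 2 + 1‖ := by
    have := norm_sub_norm_le 1 (-(io e w) ^ 2)
    rw [norm_neg, norm_one, norm_pow, sub_neg_eq_add, add_comm (1:ℂ)] at this
    have h4 : E ^ 2 ≤ 1/16 := by nlinarith
    linarith
  have h4 : ‖io e w + io s w‖ * ‖io e w * io σ w - io ω w‖ ≤ 5/4 * (5/4 * m) := by
    apply mul_le_mul
    · refine (norm_add_le _ _).trans ?_
      rw [hs1]; linarith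
    · refine (norm_sub_le _ _).trans ?_
      rw [norm_mul]
      have : E * ‖io σ w‖ ≤ 1/4 * m := mul_le_mul he hσ (norm_nonneg _) (by norm_num)
      linarith
    · positivity
    · norm_num
  rw [← h2] at h4
  have h5 : 15/16 * ‖io ρ w‖ ≤ 5/4 * (5/4 * m) :=
    (mul_le_mul_of_nonneg_right h3 (norm_nonneg _)).trans h4
  have h6 : ‖io (ρ - σ) w‖ ≤ 4 * m := by
    rw [map_sub, Pi.sub_apply]
    refine (norm_sub_le _ _).trans ?_
    linarith
  calc NN w (ρ - σ) = (‖io (ρ - σ) w‖) ^ w.mult := rfl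
    _ ≤ (4 * m) ^ w.mult := pow_le_pow_left₀ (norm_nonneg _) h6 _
    _ = 4 ^ w.mult * m ^ w.mult := mul_pow _ _ _
    _ ≤ 4 ^ 2 * m ^ w.mult := mul_le_mul_of_nonneg_right (pow_mult_le (by norm_num)) (by positivity)
    _ ≤ 16 * max (NN w σ) (NN w ω) := by
        have := max_pow_mult w σ ω
        rw [← hm] at this
        nlinarith

theorem NN_zpow_mul (w : InfinitePlace K) (c : (𝓞 K)ˣ) (k : ℤ) (x : K) :
    NN w (((c ^ k : (𝓞 K)ˣ) : K) * x) = (NN w (c : K)) ^ k * NN w x := by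
  rw [NN_mul]
  congr 1
  unfold NN
  rw [io_zpow_norm, ← zpow_natCast, ← zpow_natCast, ← zpow_mul, ← zpow_mul, mul_comm]

theorem nm_NN {w1 w2 : InfinitePlace K} (hne : w1 ≠ w2) (hall : ∀ w, w = w1 ∨ w = w2) (x : K) :
    nm (io x) = NN w1 x * NN w2 x := nm_two hne hall _

end Pool.Agent.EuclW
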