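import Pool.Agent.EuclW.Un

open NumberField Module IsDedekindDomain nonZeroDivisors Filter Topology

set_option linter.unusedSectionVars false
set_option linter.unusedVariables false

namespace Pool.Agent.EuclW

variable {K : Type*} [Field K] [NumberField K] {𝔭 : HeightOneSpectrum (𝓞 K)}

theorem two_places (hr : Units.rank K = 1) :
    ∃ w1 w2 : InfinitePlace K, w1 ≠ w2 ∧ ∀ w, w = w1 ∨ w = w2 := by
  have hc : (Finset.univ : Finset (InfinitePlace K)).card = 2 := by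
    have : Fintype.card (InfinitePlace K) - 1 = 1 := hr
    have h2 : (Finset.univ : Finset (InfinitePlace K)).card = Fintype.card (InfinitePlace K) := rfl
    omega
  classical
  obtain ⟨x, y, hxy, h⟩ := Finset.card_eq_two.1 hc
  refine ⟨x, y, hxy, fun w => ?_⟩
  have : w ∈ (Finset.univ : Finset (InfinitePlace K)) := Finset.mem_univ w
  rw [h] at this
  simpa using this

theorem nm_two {w1 w2 : InfinitePlace K} (hne : w1 ≠ w2) (hall : ∀ w, w = w1 ∨ w = w2) (z : V K) :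
    nm z = ‖z w1‖ ^ w1.mult * ‖z w2‖ ^ w2.mult := by
  classical
  unfold nm
  rw [Fintype.prod_eq_mul w1 w2 hne]
  rintro x ⟨h1, h2⟩
  rcases hall x with h | h
  · exact absurd h h1
  · exact absurd h h2

theorem closing (hr : Units.rank K = 1) {B B2 : ℝ} (hB2 : B2 < B) {z : V K} (hz : z ∈ V0 K)
    (h : ∀ q : 𝓞 K, B ≤ nm (z - io (q:K))) : ∃ ρ : K, ∀ q : 𝓞 K, B2 ≤ nm (io (ρ - q)) := by
  obtain ⟨w1, w2, hne, hall⟩ := two_places hr
  obtain ⟨c, hc1, hc2⟩ := exists_contr w1 (by omega : 1 ≤ Units.rank K)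
  set a : ℝ := ‖io (c:K) w1‖ with ha
  set b : ℝ := ‖io (c:K) w2‖ with hb
  have hb1 : b < 1 := hc1 w2 hne.symm
  have hb0 : 0 ≤ b := norm_nonneg _
  have ha0 : 0 < a := by linarith
  set R : ℝ := max a (max 1 B2) with hR
  have hR1 : 1 ≤ R := le_max_of_le_right (le_max_left _ _)
  have hRa : a ≤ R := le_max_left _ _
  have hRB : B2 ≤ R := le_max_of_le_right (le_max_right _ _)
  -- uniform continuity
  have huc : UniformContinuousOn (nm : V K → ℝ) (Metric.closedBall 0 (R + 1)) :=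
    (isCompact_closedBall _ _).uniformContinuousOn_of_continuous continuous_nm.continuousOn
  rw [Metric.uniformContinuousOn_iff] at huc
  obtain ⟨δ, hδ, huc⟩ := huc (B - B2) (by linarith)
  set C : ℝ := max (a / (a - 1)) (1 / (1 - b)) with hC
  have hC0 : 0 < C := lt_max_of_lt_right (by apply div_pos one_pos; linarith)
  set η : ℝ := min (δ / 2) 1 / C with hη
  have hη0 : 0 < η := div_pos (lt_min (by linarith) one_pos) hC0
  have hCη : C * η = min (δ / 2) 1 := by rw [hη]; field_simp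
  -- orbit
  have hmem : ∀ k : ℕ, io ((c ^ k : (𝓞 K)ˣ) : K) * z ∈ V0 K := fun k => io_mul_mem_V0 _ hz
  choose p hp using fun k => exists_near (hmem k)
  set r : ℕ → V K := fun k => io ((c ^ k : (𝓞 K)ˣ) : K) * z - io (p k : K) with hrdef
  obtain ⟨z', hz', φ, hφ, hlim⟩ := tendsto_subseq_of_bounded
    (Metric.isBounded_closedBall (x := (0 : V K)) (r := cov K))
    (x := r) (fun n => by
    rw [mem_closedBall_zero_iff]; exact hp n)
  obtain ⟨N, hN⟩ := (Metric.tendsto_atTop.1 hlim) (η / 2) (by linarith)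
  set l := φ N with hl
  set k := φ (N + 1) with hk
  have hlk : l < k := hφ (Nat.lt_succ_self N)
  have hclose : ‖r l - r k‖ ≤ η := by
    have h1 := hN N le_rfl
    have h2 := hN (N+1) (Nat.le_succ N)
    have h3 := dist_triangle_right (r l) (r k) z'
    rw [dist_eq_norm] at h3
    simp only [Function.comp] at h1 h2
    linarith
  obtain ⟨P, hP, hkP⟩ : ∃ P : ℕ, 1 ≤ P ∧ k = l + P := ⟨k - l, by omega, by omega⟩
  set e : K := ((c ^ P : (𝓞 K)ˣ) : K) with he
  have he1 : ‖io e w1‖ = a ^ P := by rw [he, io_pow_apply, norm_pow]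
  have he2 : ‖io e w2‖ = b ^ P := by rw [he, io_pow_apply, norm_pow]
  have haP : 1 < a ^ P := one_lt_pow₀ hc2 (by omega)
  have hbP : b ^ P < 1 := pow_lt_one₀ hb0 hb1 (by omega)
  have he_ne : e - 1 ≠ 0 := by
    intro h0
    have : e = 1 := sub_eq_zero.1 h0
    rw [this, map_one, Pi.one_apply, norm_one] at he1
    linarith
  set Q : 𝓞 K := p k - ((c ^ P : (𝓞 K)ˣ) : 𝓞 K) * p l with hQ
  have hQK : (Q:K) = (p k : K) - e * (p l : K) := by
    rw [hQ, he]; simp
  set ρ : K := (Q:K) / (e - 1) with hρ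
  have hρ1 : (e - 1) * ρ = Q := by rw [hρ]; field_simp
  have hck : ((c ^ k : (𝓞 K)ˣ) : K) = e * ((c ^ l : (𝓞 K)ˣ) : K) := by
    rw [he, ← unit_mul_coe, ← pow_add, hkP, add_comm]
  have hrk : io e * r l = r k + io (Q:K) := by
    simp only [hrdef]
    rw [hQK, hck, map_mul io e, map_sub, map_mul io e]
    ring
  have hδ1 : (io e - 1) * (io ρ - r l) = r l - r k := by
    have h1 : (io e - 1) * io ρ = io (Q:K) := by
      rw [← hρ1, map_mul, map_sub, map_one]
    rw [mul_sub, h1, sub_mul, hrk, one_mul]; ring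
  have hd1 : ‖(io ρ - r l) w1‖ * (a ^ P - 1) ≤ η := by
    have h1 := congrFun hδ1 w1
    have h2 : ‖(r l - r k) w1‖ ≤ η := (norm_le_pi_norm _ w1).trans hclose
    rw [← h1, Pi.mul_apply, norm_mul, Pi.sub_apply, Pi.one_apply] at h2
    have h3 : a ^ P - 1 ≤ ‖io e w1 - 1‖ := by
      rw [← he1]
      have := norm_sub_norm_le (io e w1) 1
      rw [norm_one] at this
      exact this
    calc ‖(io ρ - r l) w1‖ * (a ^ P - 1) ≤ ‖(io ρ - r l) w1‖ * ‖io e w1 - 1‖ :=
          mul_le_mul_of_nonneg_left h3 (norm_nonneg _)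
      _ ≤ η := by rw [mul_comm]; exact h2
  have hd2 : ‖(io ρ - r l) w2‖ * (1 - b) ≤ η := by
    have h1 := congrFun hδ1 w2
    have h2 : ‖(r l - r k) w2‖ ≤ η := (norm_le_pi_norm _ w2).trans hclose
    rw [← h1, Pi.mul_apply, norm_mul, Pi.sub_apply, Pi.one_apply] at h2
    have h3 : 1 - b ≤ ‖io e w2 - 1‖ := by
      have := norm_sub_norm_le 1 (io e w2)
      rw [norm_one, norm_sub_rev, he2] at this
      have h4 : b ^ P ≤ b := by
        have := pow_le_pow_of_le_one hb0 hb1.le hP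
        rwa [pow_one] at this
      linarith
    calc ‖(io ρ - r l) w2‖ * (1 - b) ≤ ‖(io ρ - r l) w2‖ * ‖io e w2 - 1‖ :=
          mul_le_mul_of_nonneg_left h3 (norm_nonneg _)
      _ ≤ η := by rw [mul_comm]; exact h2
  -- shadowing
  have hshadow : ∀ j : ℕ, j ≤ P → ‖io ((c ^ j : (𝓞 K)ˣ) : K) * (io ρ - r l)‖ ≤ C * η := by
    intro j hj
    rw [pi_norm_le_iff_of_nonneg (by positivity)]
    intro w
    rw [Pi.mul_apply, norm_mul, io_pow_apply, norm_pow]
    rcases hall w with rfl | rfl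
    · have h1 : a ^ j ≤ a ^ P := pow_le_pow_right₀ hc2.le hj
      have h2 : a ^ P * (a - 1) ≤ a * (a ^ P - 1) := by
        have : a ≤ a ^ P := le_self_pow₀ hc2.le (by omega)
        nlinarith
      have h3 : a ^ P * ‖(io ρ - r l) w‖ * (a - 1) ≤ a * η := by
        calc a ^ P * ‖(io ρ - r l) w‖ * (a - 1) = (a ^ P * (a - 1)) * ‖(io ρ - r l) w‖ := by ring
          _ ≤ (a * (a ^ P - 1)) * ‖(io ρ - r l) w‖ := mul_le_mul_of_nonneg_right h2 (norm_nonneg _)
          _ = a * (‖(io ρ - r l) w‖ * (a ^ P - 1)) := by ring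
          _ ≤ a * η := mul_le_mul_of_nonneg_left hd1 ha0.le
      calc a ^ j * ‖(io ρ - r l) w‖ ≤ a ^ P * ‖(io ρ - r l) w‖ :=
            mul_le_mul_of_nonneg_right h1 (norm_nonneg _)
        _ ≤ a * η / (a - 1) := by rw [le_div_iff₀ (by linarith)]; exact h3
        _ = a / (a - 1) * η := by ring
        _ ≤ C * η := mul_le_mul_of_nonneg_right (le_max_left _ _) hη0.le
    · have h1 : b ^ j ≤ 1 := pow_le_one₀ hb0 hb1.le
      calc b ^ j * ‖(io ρ - r l) w‖ ≤ 1 * ‖(io ρ - r l) w‖ :=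
            mul_le_mul_of_nonneg_right h1 (norm_nonneg _)
        _ ≤ η / (1 - b) := by rw [le_div_iff₀ (by linarith), one_mul]; exact hd2
        _ = 1 / (1 - b) * η := by ring
        _ ≤ C * η := mul_le_mul_of_nonneg_right (le_max_right _ _) hη0.le
  refine ⟨ρ, fun q => ?_⟩
  by_contra hcon
  push Not at hcon
  set x : K := ρ - q with hx
  -- a balanced time
  obtain ⟨m, hm⟩ : ∃ m : ℤ, ‖io (((c ^ m : (𝓞 K)ˣ) : K) * x)‖ ≤ R := by
    by_cases hx0 : x = 0
    · exact ⟨0, by rw [hx0]; simp; linarith⟩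
    · have hx1 : 0 < ‖io x w1‖ := by rw [norm_io, InfinitePlace.pos_iff]; exact hx0
      obtain ⟨m, hm1, hm2⟩ := exists_zpow_balance (s := 1) hc2 hx1 one_pos
      refine ⟨m, ?_⟩
      rw [pi_norm_le_iff_of_nonneg (by linarith)]
      set y : K := ((c ^ m : (𝓞 K)ˣ) : K) * x with hy
      have hy1 : ‖io y w1‖ = a ^ m * ‖io x w1‖ := by
        rw [hy, map_mul, Pi.mul_apply, norm_mul, io_zpow_norm]
      have hynm : nm (io y) < B2 := by rw [hy, map_mul, nm_mul, nm_unit, one_mul]; exact hcon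
      rw [← hy1] at hm1 hm2
      rw [nm_two hne hall] at hynm
      have h5 : ‖io y w2‖ ^ w2.mult < B2 := by
        have : 1 ≤ ‖io y w1‖ ^ w1.mult := one_le_pow₀ hm1
        have h6 : ‖io y w2‖ ^ w2.mult ≤ ‖io y w1‖ ^ w1.mult * ‖io y w2‖ ^ w2.mult :=
          le_mul_of_one_le_left (by positivity) this
        linarith
      intro w
      rcases hall w with rfl | rfl
      · linarith
      · by_contra hcon2
        push Not at hcon2
        have h7 : ‖io y w‖ ≤ ‖io y w‖ ^ w.mult :=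
          le_self_pow₀ (by linarith) InfinitePlace.mult_ne_zero
        linarith
  -- reduce the time modulo P
  have hPpos : (0:ℤ) < P := by omega
  set s : ℤ := m / P with hs
  obtain ⟨j, hj⟩ : ∃ j : ℕ, (j : ℤ) = m % P := ⟨(m % P).toNat, Int.toNat_of_nonneg (Int.emod_nonneg _ (by omega))⟩
  have hjP : j < P := by
    have := Int.emod_lt_of_pos m hPpos
    omega
  have hmdecomp : m = j + P * s := by
    rw [hj, hs]; exact (Int.emod_add_mul_ediv m P).symm
  have hstab : (c ^ P) ^ s ∈ stab ρ := by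
    apply Subgroup.zpow_mem
    refine ⟨Q, ?_⟩
    rw [← hρ1, he]; ring
  obtain ⟨q1, hq1⟩ := hstab
  have hcm : ((c ^ m : (𝓞 K)ˣ) : K) = ((c ^ j : (𝓞 K)ˣ) : K) * ((((c ^ P) ^ s : (𝓞 K)ˣ)) : K) := by
    rw [← unit_mul_coe, ← zpow_natCast c j, ← zpow_natCast c P, ← zpow_mul, ← zpow_add, hmdecomp]
  set q' : 𝓞 K := ((c ^ m : (𝓞 K)ˣ) : 𝓞 K) * q - ((c ^ j : (𝓞 K)ˣ) : 𝓞 K) * q1 with hq'
  have hq'K : (q' : K) = ((c ^ m : (𝓞 K)ˣ) : K) * q - ((c ^ j : (𝓞 K)ˣ) : K) * q1 := by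
    rw [hq']; simp
  set y : K := ((c ^ m : (𝓞 K)ˣ) : K) * x with hy
  have hydec : y = ((c ^ j : (𝓞 K)ˣ) : K) * ρ - q' := by
    rw [hq'K, ← hq1, hy, hx, hcm]; ring
  -- comparison point
  set τ : V K := io ((c ^ j : (𝓞 K)ˣ) : K) * r l - io (q' : K) with hτ
  have hτnm : B ≤ nm τ := by
    set u : (𝓞 K)ˣ := c ^ (j + l) with hu
    set q2 : 𝓞 K := ((c ^ j : (𝓞 K)ˣ) : 𝓞 K) * p l + q' with hq2
    have hq2K : (q2 : K) = ((c ^ j : (𝓞 K)ˣ) : K) * p l + q' := by rw [hq2]; simp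
    have hcu : (u : K) = ((c ^ j : (𝓞 K)ˣ) : K) * ((c ^ l : (𝓞 K)ˣ) : K) := by
      rw [hu, ← unit_mul_coe, ← pow_add]
    have h1 : τ = io (u:K) * (z - io ((((u⁻¹ : (𝓞 K)ˣ) : 𝓞 K) * q2 : 𝓞 K) : K)) := by
      have h2 : ((((u⁻¹ : (𝓞 K)ˣ) : 𝓞 K) * q2 : 𝓞 K) : K) = (u:K)⁻¹ * (q2:K) := by simp
      rw [h2, mul_sub, ← map_mul io (u:K), mul_inv_cancel_left₀ (unit_ne_zero u), hq2K, hcu, hτ,
        hrdef]
      simp only [map_mul, map_add]
      ring
    rw [h1, nm_mul, nm_unit, one_mul]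
    exact h _
  have hdiff : io y - τ = io ((c ^ j : (𝓞 K)ˣ) : K) * (io ρ - r l) := by
    rw [hydec, hτ, map_sub, map_mul]; ring
  have hdn : ‖io y - τ‖ ≤ min (δ / 2) 1 := by
    rw [hdiff, ← hCη]; exact hshadow j hjP.le
  have hτb : ‖τ‖ ≤ R + 1 := by
    have h1 : ‖τ‖ ≤ ‖io y‖ + ‖io y - τ‖ := by
      have := norm_sub_le (io y) (io y - τ)
      rwa [sub_sub_cancel] at this
    have h2 := hdn.trans (min_le_right _ _)
    linarith
  have hfin := huc (io y) (by rw [mem_closedBall_zero_iff]; linarith) τ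
    (by rw [mem_closedBall_zero_iff]; exact hτb) (by
      rw [dist_eq_norm]
      have := hdn.trans (min_le_left _ _)
      linarith)
  rw [Real.dist_eq, abs_lt] at hfin
  have hynm : nm (io y) < B2 := by rw [hy, map_mul, nm_mul, nm_unit, one_mul]; exact hcon
  linarith [hfin.1]

end Pool.Agent.EuclW
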