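import Pool.Agent.EuclW.NN

open NumberField Module IsDedekindDomain nonZeroDivisors Filter Topology

set_option linter.unusedSectionVars false
set_option linter.unusedVariables false

namespace Pool.Agent.EuclW

variable {K : Type*} [Field K] [NumberField K] {𝔭 : HeightOneSpectrum (𝓞 K)}

theorem NN_pow_mul (w : InfinitePlace K) (c : (𝓞 K)ˣ) (k : ℕ) (x : K) :
    NN w (((c ^ k : (𝓞 K)ˣ) : K) * x) = (NN w (c : K)) ^ k * NN w x := by
  have := NN_zpow_mul w c k x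
  rwa [zpow_natCast, zpow_natCast] at this

theorem eq_zero_two {w1 w2 : InfinitePlace K} (hall : ∀ w, w = w1 ∨ w = w2) {q : 𝓞 K} {x y : K}
    (h : (q : K) = x - y) (hx1 : NN w1 x < 1/4) (hx2 : NN w2 x < 1/4)
    (hy1 : NN w1 y < 1/4) (hy2 : NN w2 y < 1/4) : q = 0 := by
  apply eq_zero_of_small
  intro w
  rw [h, map_sub, Pi.sub_apply]
  have hx : NN w x < 1/4 := by rcases hall w with rfl | rfl <;> assumption
  have hy : NN w y < 1/4 := by rcases hall w with rfl | rfl <;> assumption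
  have := norm_sub_le (io x w) (io y w)
  have h1 := NN_small hx
  have h2 := NN_small hy
  linarith

theorem compare {w1 w2 : InfinitePlace K} (hne : w1 ≠ w2) (hall : ∀ w, w = w1 ∨ w = w2)
    {c : (𝓞 K)ˣ} {A : ℝ} (hA : 1 < A) (hc1 : NN w1 (c:K) = A) (hc2 : NN w2 (c:K) = A⁻¹)
    {t B B2 κ μ θ L l : ℝ} {W J T : ℕ}
    (ht : 1 < t) (hB2 : 0 < B2) (hB : B2 < B) (hκ : κ * t ^ W = B) (hκ0 : 0 < κ)
    (hμ : μ ^ 2 = 4 * A ^ 2 * κ) (hμ0 : 0 < μ)
    (hθ0 : 0 < θ) (hθ1 : θ < 1) (hθ2 : (1 + θ) ^ 4 * B2 ≤ B) (hθ3 : (1 + θ) ^ 4 ≤ 2)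
    (hθ4 : 1/2 ≤ (1 - θ) ^ 4)
    (hL : 16 * A ≤ θ ^ 2 * L) (hl : l * (16 * A ^ 2) = 1) (hJ : 256 * A ^ 3 ≤ θ ^ 2 * A ^ J)
    (hsmall : 16 * A * L * A ^ J * μ < 1)
    {σ ω ρ : K} {Q : 𝓞 K}
    (hσω : ((c ^ T : (𝓞 K)ˣ) : K) * σ - Q = ω)
    (hσ1 : NN w1 σ < μ) (hσ2 : NN w2 σ < μ) (hω1 : NN w1 ω < μ) (hω2 : NN w2 ω < μ)
    (hd1 : A ^ T * NN w1 (ρ - σ) ≤ 16 * μ) (hd2 : NN w2 (ρ - σ) ≤ 16 * μ)
    (hdv : Pd 𝔭 W (ρ - σ))
    (hF1 : B2 ≤ F 𝔭 t ρ) (hF2 : B2 ≤ F 𝔭 t (((c ^ T : (𝓞 K)ˣ) : K) * ρ - Q))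
    (hgap : ∀ j : ℕ, 0 < j → j < T → ∀ q : 𝓞 K, ¬ (nm (io (((c ^ j : (𝓞 K)ˣ) : K) * σ - q)) < κ ∧
      NN w1 (((c ^ j : (𝓞 K)ˣ) : K) * σ - q) < μ ∧ NN w2 (((c ^ j : (𝓞 K)ˣ) : K) * σ - q) < μ))
    (hlow : ∀ j : ℕ, ∀ q : 𝓞 K, ((c ^ j : (𝓞 K)ˣ) : K) * σ - q ≠ 0 ∧
      (vv 𝔭 (((c ^ j : (𝓞 K)ˣ) : K) * σ - q) < W → B ≤ F 𝔭 t (((c ^ j : (𝓞 K)ˣ) : K) * σ - q)))
    {j : ℕ} (hj : j < T) (q : 𝓞 K) {s : ℝ} {x : K} (hx : x = ((c ^ j : (𝓞 K)ˣ) : K) * ρ - q)
    (hs : 0 ≤ s) (hx0 : nm (io x) = s ^ 2) (hx1 : NN w1 x ≤ s * A) (hx2 : NN w2 x ≤ s)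
    (hx3 : s ≤ NN w1 x) (hx4 : s ≤ A * NN w2 x) :
    B2 ≤ F 𝔭 t x := by
  by_contra hcon
  push Not at hcon
  have hA0 : 0 < A := by linarith
  have ht0 : 0 < t := by linarith
  have hL0 : 16 * A ≤ L := by
    have : θ ^ 2 ≤ 1 := pow_le_one₀ hθ0.le hθ1.le
    have hLpos : 0 < L := by
      by_contra h
      push Not at h
      have : θ ^ 2 * L ≤ 0 := mul_nonpos_of_nonneg_of_nonpos (by positivity) h
      linarith
    have h2 : θ ^ 2 * L ≤ 1 * L := mul_le_mul_of_nonneg_right this hLpos.le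
    linarith
  have hAJ1 : 1 ≤ A ^ J := one_le_pow₀ hA.le
  have hμs : 16 * A * L * A ^ J * μ < 1 := hsmall
  set τ : K := ((c ^ j : (𝓞 K)ˣ) : K) * σ - q with hτ
  set d : K := ((c ^ j : (𝓞 K)ˣ) : K) * (ρ - σ) with hd
  have hxd : x - τ = d := by rw [hx, hτ, hd]; ring
  have hτx : τ = x + (-d) := by rw [← hxd]; ring
  have hdN1 : NN w1 d = A ^ j * NN w1 (ρ - σ) := by rw [hd, NN_pow_mul, hc1]
  have hdN2 : NN w2 d = (A⁻¹) ^ j * NN w2 (ρ - σ) := by rw [hd, NN_pow_mul, hc2]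
  -- the error at the first place, multiplied by A^(T-j)
  have hD1 : A ^ (T - j) * NN w1 d ≤ 16 * μ := by
    rw [hdN1, ← mul_assoc, ← pow_add, Nat.sub_add_cancel hj.le]; exact hd1
  have hD2 : A ^ j * NN w2 d ≤ 16 * μ := by
    rw [hdN2, ← mul_assoc, ← mul_pow, mul_inv_cancel₀ hA0.ne', one_pow, one_mul]; exact hd2
  have hdnn1 := NN_nonneg w1 d
  have hdnn2 := NN_nonneg w2 d
  have hD1' : NN w1 d ≤ 16 * μ := by
    have : 1 ≤ A ^ (T - j) := one_le_pow₀ hA.le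
    exact (le_mul_of_one_le_left hdnn1 this).trans hD1
  have hD2' : NN w2 d ≤ 16 * μ := by
    have : 1 ≤ A ^ j := one_le_pow₀ hA.le
    exact (le_mul_of_one_le_left hdnn2 this).trans hD2
  have hdv' : Pd 𝔭 W (x - τ) := by rw [hxd]; exact Pd_int_mul _ hdv
  obtain ⟨hτ0, hτF⟩ := hlow j q
  rw [← hτ] at hτ0 hτF
  have hτnm0 : 0 < nm (io τ) := nm_io_pos hτ0
  -- Step A
  have hA1 : κ ≤ nm (io τ) → nm (io x) * B < B2 * nm (io τ) := by
    intro hk
    by_cases hx00 : x = 0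
    · rw [hx00, nm_io_zero, zero_mul]; positivity
    by_cases hv : vv 𝔭 x < W
    · have h1 := (vv_eq_of_sub hdv' hx00 hv).2
      have h2 := hτF (by rw [h1]; exact hv)
      unfold F at h2 hcon
      rw [h1] at h2
      have h3 : 0 < t ^ (vv 𝔭 x) := zpow_pos ht0 _
      have h4 : (nm (io x) * B) * t ^ (vv 𝔭 x) < (B2 * nm (io τ)) * t ^ (vv 𝔭 x) := by
        calc (nm (io x) * B) * t ^ (vv 𝔭 x) = (nm (io x) * t ^ (vv 𝔭 x)) * B := by ring
          _ < B2 * B := mul_lt_mul_of_pos_right hcon (by linarith)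
          _ ≤ B2 * (nm (io τ) * t ^ (vv 𝔭 x)) := mul_le_mul_of_nonneg_left h2 hB2.le
          _ = _ := by ring
      exact lt_of_mul_lt_mul_right h4 h3.le
    · push Not at hv
      unfold F at hcon
      have h3 : t ^ W ≤ t ^ (vv 𝔭 x) := by
        have := zpow_le_zpow_right₀ ht.le hv
        rwa [zpow_natCast] at this
      have h4 : nm (io x) * t ^ W < B2 :=
        lt_of_le_of_lt (mul_le_mul_of_nonneg_left h3 (nm_nonneg _)) hcon
      have h5 : 0 < t ^ W := by positivity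
      have h6 : (nm (io x) * B) * t ^ W < (B2 * nm (io τ)) * t ^ W := by
        calc (nm (io x) * B) * t ^ W = (nm (io x) * t ^ W) * B := by ring
          _ < B2 * B := mul_lt_mul_of_pos_right h4 (by linarith)
          _ = B2 * (κ * t ^ W) := by rw [hκ]
          _ ≤ B2 * (nm (io τ) * t ^ W) :=
              mul_le_mul_of_nonneg_left (mul_le_mul_of_nonneg_right hk h5.le) hB2.le
          _ = _ := by ring
      exact lt_of_mul_lt_mul_right h6 h5.le
  -- Step B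
  have rel : NN w1 d ≤ θ ^ 2 * NN w1 x → NN w2 d ≤ θ ^ 2 * NN w2 x →
      nm (io τ) < κ ∧ s ^ 2 < 2 * κ ∧ NN w1 τ < μ ∧ NN w2 τ < μ := by
    intro h1 h2
    obtain ⟨a1, a2⟩ := NN_rel hθ0.le hθ1.le (x := x) (y := -d) (w := w1) (by rw [NN_neg]; exact h1)
    obtain ⟨b1, b2⟩ := NN_rel hθ0.le hθ1.le (x := x) (y := -d) (w := w2) (by rw [NN_neg]; exact h2)
    rw [← hτx] at a1 a2 b1 b2
    have hN := nm_NN hne hall x
    have hNτ := nm_NN hne hall τ
    have hup : nm (io τ) ≤ (1 + θ) ^ 4 * nm (io x) := by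
      rw [hN, hNτ]
      calc NN w1 τ * NN w2 τ ≤ ((1 + θ) ^ 2 * NN w1 x) * ((1 + θ) ^ 2 * NN w2 x) :=
            mul_le_mul a1 b1 (NN_nonneg _ _) (mul_nonneg (by positivity) (NN_nonneg _ _))
        _ = (1 + θ) ^ 4 * (NN w1 x * NN w2 x) := by ring
    have hlo : (1 - θ) ^ 4 * nm (io x) ≤ nm (io τ) := by
      rw [hN, hNτ]
      calc (1 - θ) ^ 4 * (NN w1 x * NN w2 x) = ((1 - θ) ^ 2 * NN w1 x) * ((1 - θ) ^ 2 * NN w2 x) := by
            ring
        _ ≤ NN w1 τ * NN w2 τ :=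
            mul_le_mul a2 b2 (mul_nonneg (by positivity) (NN_nonneg _ _)) (NN_nonneg _ _)
    have hnx := nm_nonneg (io x)
    have hk : nm (io τ) < κ := by
      by_contra hk
      push Not at hk
      have h3 := hA1 hk
      have h4 : B2 * nm (io τ) ≤ B * nm (io x) := by
        calc B2 * nm (io τ) ≤ B2 * ((1 + θ) ^ 4 * nm (io x)) := mul_le_mul_of_nonneg_left hup hB2.le
          _ = ((1 + θ) ^ 4 * B2) * nm (io x) := by ring
          _ ≤ B * nm (io x) := mul_le_mul_of_nonneg_right hθ2 hnx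
      linarith
    have hs2 : s ^ 2 < 2 * κ := by
      rw [← hx0]
      have : 1/2 * nm (io x) ≤ (1 - θ) ^ 4 * nm (io x) := mul_le_mul_of_nonneg_right hθ4 hnx
      linarith
    refine ⟨hk, hs2, ?_, ?_⟩
    · have h5 : NN w1 τ ≤ (1 + θ) ^ 2 * (s * A) := a1.trans (mul_le_mul_of_nonneg_left hx1 (by positivity))
      have h6 : ((1 + θ) ^ 2 * (s * A)) ^ 2 < μ ^ 2 := by
        rw [hμ]
        calc ((1 + θ) ^ 2 * (s * A)) ^ 2 = (1 + θ) ^ 4 * (s ^ 2 * A ^ 2) := by ring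
          _ ≤ 2 * (s ^ 2 * A ^ 2) := mul_le_mul_of_nonneg_right hθ3 (by positivity)
          _ < 2 * ((2 * κ) * A ^ 2) := by
              have : s ^ 2 * A ^ 2 < (2 * κ) * A ^ 2 := mul_lt_mul_of_pos_right hs2 (by positivity)
              linarith
          _ = 4 * A ^ 2 * κ := by ring
      exact lt_of_le_of_lt h5 (lt_of_pow_lt_pow_left₀ 2 hμ0.le h6)
    · have h5 : NN w2 τ ≤ (1 + θ) ^ 2 * s := b1.trans (mul_le_mul_of_nonneg_left hx2 (by positivity))
      have h6 : ((1 + θ) ^ 2 * s) ^ 2 < μ ^ 2 := by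
        rw [hμ]
        have hA2 : 1 ≤ A ^ 2 := one_le_pow₀ hA.le
        calc ((1 + θ) ^ 2 * s) ^ 2 = (1 + θ) ^ 4 * s ^ 2 := by ring
          _ ≤ 2 * s ^ 2 := mul_le_mul_of_nonneg_right hθ3 (by positivity)
          _ < 2 * (2 * κ) := by linarith
          _ ≤ 4 * A ^ 2 * κ := by
              have : κ ≤ A ^ 2 * κ := le_mul_of_one_le_left hκ0.le hA2
              linarith
      exact lt_of_le_of_lt h5 (lt_of_pow_lt_pow_left₀ 2 hμ0.le h6)
  -- Step C
  have hsL : s < L * μ := by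
    by_contra hsL
    push Not at hsL
    have hLμ : 0 < L * μ := mul_pos (by linarith) hμ0
    have e1 : NN w1 d ≤ θ ^ 2 * NN w1 x := by
      calc NN w1 d ≤ 16 * μ := hD1'
        _ ≤ (16 * A) * μ := mul_le_mul_of_nonneg_right (by linarith) hμ0.le
        _ ≤ (θ ^ 2 * L) * μ := mul_le_mul_of_nonneg_right hL hμ0.le
        _ = θ ^ 2 * (L * μ) := by ring
        _ ≤ θ ^ 2 * NN w1 x := mul_le_mul_of_nonneg_left (hsL.trans hx3) (by positivity)
    have e2 : NN w2 d ≤ θ ^ 2 * NN w2 x := by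
      have h3 : A * NN w2 d ≤ A * (θ ^ 2 * NN w2 x) := by
        calc A * NN w2 d ≤ A * (16 * μ) := mul_le_mul_of_nonneg_left hD2' hA0.le
          _ = (16 * A) * μ := by ring
          _ ≤ (θ ^ 2 * L) * μ := mul_le_mul_of_nonneg_right hL hμ0.le
          _ = θ ^ 2 * (L * μ) := by ring
          _ ≤ θ ^ 2 * (A * NN w2 x) := mul_le_mul_of_nonneg_left (hsL.trans hx4) (by positivity)
          _ = A * (θ ^ 2 * NN w2 x) := by ring
      exact le_of_mul_le_mul_left h3 hA0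
    obtain ⟨_, h2, _, _⟩ := rel e1 e2
    have h3 : (L * μ) ^ 2 ≤ s ^ 2 := pow_le_pow_left₀ hLμ.le hsL 2
    have h4 : μ ^ 2 ≤ (L * μ) ^ 2 := by
      apply pow_le_pow_left₀ hμ0.le
      exact le_mul_of_one_le_left hμ0.le (by linarith)
    have hA2 : 1 ≤ A ^ 2 := one_le_pow₀ hA.le
    have h5 : κ ≤ A ^ 2 * κ := le_mul_of_one_le_left hκ0.le hA2
    linarith
  -- Step D
  have hL00 : 0 < L := by linarith
  have hAL : 16 ≤ A * L := by
    have : L ≤ A * L := le_mul_of_one_le_left hL00.le hA.le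
    linarith
  have hALμ : 0 < A * L * μ := by positivity
  have hX1 : NN w1 x ≤ A * L * μ := by
    calc NN w1 x ≤ s * A := hx1
      _ ≤ (L * μ) * A := mul_le_mul_of_nonneg_right hsL.le hA0.le
      _ = A * L * μ := by ring
  have hX2 : NN w2 x ≤ A * L * μ := by
    have : L * μ ≤ A * (L * μ) := le_mul_of_one_le_left (mul_pos hL00 hμ0).le hA.le
    exact (hx2.trans hsL.le).trans (this.trans_eq (by ring))
  have hmaxd : ∀ {y : ℝ}, y ≤ 16 * μ → y ≤ A * L * μ := by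
    intro y hy
    have : 16 * μ ≤ A * L * μ := mul_le_mul_of_nonneg_right hAL hμ0.le
    linarith
  have hT1 : NN w1 τ ≤ 4 * (A * L * μ) := by
    rw [hτx]
    refine (NN_add_le _ _ _).trans ?_
    rw [NN_neg]
    have : max (NN w1 x) (NN w1 d) ≤ A * L * μ := max_le hX1 (hmaxd hD1')
    linarith
  have hT2 : NN w2 τ ≤ 4 * (A * L * μ) := by
    rw [hτx]
    refine (NN_add_le _ _ _).trans ?_
    rw [NN_neg]
    have : max (NN w2 x) (NN w2 d) ≤ A * L * μ := max_le hX2 (hmaxd hD2')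
    linarith
  have hquart : A ^ J * (4 * (A * L * μ)) < 1/4 := by
    have : A ^ J * (4 * (A * L * μ)) = (16 * A * L * A ^ J * μ) / 4 := by ring
    rw [this]; linarith
  have hquart' : 4 * (A * L * μ) < 1/4 := by
    have := le_mul_of_one_le_left (by positivity : 0 ≤ 4 * (A * L * μ)) hAJ1
    linarith
  have hμALμ : μ ≤ 4 * (A * L * μ) := by
    have : 16 * μ ≤ A * L * μ := mul_le_mul_of_nonneg_right hAL hμ0.le
    linarith
  have hμ4 : A ^ J * μ < 1/4 := by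
    have : A ^ J * μ ≤ A ^ J * (4 * (A * L * μ)) :=
      mul_le_mul_of_nonneg_left hμALμ (by positivity)
    linarith
  have hμ4' : μ < 1/4 := by linarith
  have hJlt : J < j := by
    by_contra hcon2
    push Not at hcon2
    have hq0 : q = 0 := by
      apply eq_zero_two hall (x := ((c ^ j : (𝓞 K)ˣ) : K) * σ) (y := τ) (by rw [hτ]; ring)
      · rw [NN_pow_mul, hc1]
        have : A ^ j ≤ A ^ J := pow_le_pow_right₀ hA.le hcon2
        have h1 : A ^ j * NN w1 σ ≤ A ^ J * μ := mul_le_mul this hσ1.le (NN_nonneg _ _) (by positivity)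
        linarith
      · rw [NN_pow_mul, hc2]
        have : (A⁻¹) ^ j ≤ 1 := pow_le_one₀ (by positivity) (inv_le_one_of_one_le₀ hA.le)
        have h1 : (A⁻¹) ^ j * NN w2 σ ≤ 1 * μ := mul_le_mul this hσ2.le (NN_nonneg _ _) (by positivity)
        linarith
      · linarith
      · linarith
    rw [hx, hq0] at hcon
    have : ((c ^ j : (𝓞 K)ˣ) : K) * ρ - ((0 : 𝓞 K) : K) = ((c ^ j : (𝓞 K)ˣ) : K) * ρ := by simp
    rw [this, F_unit_mul] at hcon
    linarith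
  have hJT : j + J < T := by
    by_contra hcon2
    push Not at hcon2
    have hcT : ((c ^ T : (𝓞 K)ˣ) : K) = ((c ^ (T - j) : (𝓞 K)ˣ) : K) * ((c ^ j : (𝓞 K)ˣ) : K) := by
      rw [← unit_mul_coe, ← pow_add, Nat.sub_add_cancel hj.le]
    have hq0 : ((c ^ (T - j) : (𝓞 K)ˣ) : 𝓞 K) * q - Q = 0 := by
      apply eq_zero_two hall (x := ω) (y := ((c ^ (T - j) : (𝓞 K)ˣ) : K) * τ)
      · have : ((((c ^ (T - j) : (𝓞 K)ˣ) : 𝓞 K) * q - Q : 𝓞 K) : K)
            = ((c ^ (T - j) : (𝓞 K)ˣ) : K) * q - Q := by simp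
        rw [this, ← hσω, hcT, hτ]; ring
      · linarith
      · linarith
      · rw [NN_pow_mul, hc1]
        have : A ^ (T - j) ≤ A ^ J := pow_le_pow_right₀ hA.le (by omega)
        have h1 : A ^ (T - j) * NN w1 τ ≤ A ^ J * (4 * (A * L * μ)) :=
          mul_le_mul this hT1 (NN_nonneg _ _) (by positivity)
        linarith
      · rw [NN_pow_mul, hc2]
        have : (A⁻¹) ^ (T - j) ≤ 1 := pow_le_one₀ (by positivity) (inv_le_one_of_one_le₀ hA.le)
        have h1 : (A⁻¹) ^ (T - j) * NN w2 τ ≤ 1 * (4 * (A * L * μ)) :=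
          mul_le_mul this hT2 (NN_nonneg _ _) (by positivity)
        linarith
    have hQq : (Q : K) = ((c ^ (T - j) : (𝓞 K)ˣ) : K) * q := by
      have h1 : Q = ((c ^ (T - j) : (𝓞 K)ˣ) : 𝓞 K) * q := (sub_eq_zero.1 hq0).symm
      rw [h1]; simp
    have hFx : F 𝔭 t x = F 𝔭 t (((c ^ T : (𝓞 K)ˣ) : K) * ρ - Q) := by
      rw [hQq, hcT, ← F_unit_mul t (c ^ (T - j)) x, hx]
      congr 1; ring
    linarith
  -- Step E
  have hJT' : J ≤ T - j := by omega
  have hAd1 : A ^ J * NN w1 d ≤ 16 * μ := by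
    have : A ^ J ≤ A ^ (T - j) := pow_le_pow_right₀ hA.le hJT'
    have := mul_le_mul_of_nonneg_right this hdnn1
    linarith
  have hAd2 : A ^ J * NN w2 d ≤ 16 * μ := by
    have : A ^ J ≤ A ^ j := pow_le_pow_right₀ hA.le hJlt.le
    have := mul_le_mul_of_nonneg_right this hdnn2
    linarith
  have hlpos : 0 < l := by
    by_contra h
    push Not at h
    have : l * (16 * A ^ 2) ≤ 0 := mul_nonpos_of_nonpos_of_nonneg h (by positivity)
    linarith
  have hgapj := hgap j (by omega) hj q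
  rw [← hτ] at hgapj
  apply hgapj
  by_cases hsl : s < l * μ
  · -- tiny
    have hbound : ∀ {y : ℝ}, 0 ≤ y → A ^ J * y ≤ 16 * μ → 16 * A * y ≤ μ := by
      intro y hy0 hy
      have h1 : 256 * A ≤ A ^ J := by
        have e1 : θ ^ 2 * A ^ J ≤ A ^ J :=
          mul_le_of_le_one_left (by positivity) (pow_le_one₀ hθ0.le hθ1.le)
        have e2 : 256 * A ≤ 256 * A ^ 3 := by
          have : A ≤ A ^ 3 := le_self_pow₀ hA.le (by norm_num)
          linarith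
        linarith
      have h2 := mul_le_mul_of_nonneg_right h1 hy0
      linarith
    have hd1b := hbound hdnn1 hAd1
    have hd2b := hbound hdnn2 hAd2
    have hslA : 16 * A * (s * A) ≤ μ := by
      calc 16 * A * (s * A) = (16 * A ^ 2) * s := by ring
        _ ≤ (16 * A ^ 2) * (l * μ) := mul_le_mul_of_nonneg_left hsl.le (by positivity)
        _ = (l * (16 * A ^ 2)) * μ := by ring
        _ = μ := by rw [hl, one_mul]
    have hm1 : 16 * A * max (NN w1 x) (NN w1 d) ≤ μ := by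
      rw [mul_max_of_nonneg _ _ (by positivity)]
      refine max_le ?_ hd1b
      exact (mul_le_mul_of_nonneg_left hx1 (by positivity)).trans hslA
    have hm2 : 16 * A * max (NN w2 x) (NN w2 d) ≤ μ := by
      rw [mul_max_of_nonneg _ _ (by positivity)]
      refine max_le ?_ hd2b
      have : s ≤ s * A := le_mul_of_one_le_right hs hA.le
      exact (mul_le_mul_of_nonneg_left (hx2.trans this) (by positivity)).trans hslA
    have ht1 : 4 * A * NN w1 τ ≤ μ := by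
      have h1 := NN_add_le w1 x (-d)
      rw [← hτx, NN_neg] at h1
      have := mul_le_mul_of_nonneg_left h1 (by positivity : 0 ≤ 4 * A)
      linarith
    have ht2 : 4 * A * NN w2 τ ≤ μ := by
      have h1 := NN_add_le w2 x (-d)
      rw [← hτx, NN_neg] at h1
      have := mul_le_mul_of_nonneg_left h1 (by positivity : 0 ≤ 4 * A)
      linarith
    have hτn1 := NN_nonneg w1 τ
    have hτn2 := NN_nonneg w2 τ
    refine ⟨?_, ?_, ?_⟩
    · rw [nm_NN hne hall]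
      have h1 : (4 * A * NN w1 τ) * (4 * A * NN w2 τ) ≤ μ * μ :=
        mul_le_mul ht1 ht2 (by positivity) hμ0.le
      have h2 : 16 * A ^ 2 * (NN w1 τ * NN w2 τ) ≤ 4 * A ^ 2 * κ := by
        calc 16 * A ^ 2 * (NN w1 τ * NN w2 τ) = (4 * A * NN w1 τ) * (4 * A * NN w2 τ) := by ring
          _ ≤ μ * μ := h1
          _ = 4 * A ^ 2 * κ := by rw [← hμ]; ring
      have h3 : 4 * A ^ 2 * (4 * (NN w1 τ * NN w2 τ)) ≤ 4 * A ^ 2 * κ := by linarith
      have h4 := le_of_mul_le_mul_left h3 (by positivity)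
      linarith
    · have : NN w1 τ ≤ A * NN w1 τ := le_mul_of_one_le_left hτn1 hA.le
      linarith
    · have : NN w2 τ ≤ A * NN w2 τ := le_mul_of_one_le_left hτn2 hA.le
      linarith
  · push Not at hsl
    have hkey : ∀ {y : ℝ}, 0 ≤ y → A ^ J * y ≤ 16 * μ → A * y ≤ θ ^ 2 * s := by
      intro y hy0 hy
      have h2 : 256 * A ^ 3 * y ≤ θ ^ 2 * A ^ J * y := mul_le_mul_of_nonneg_right hJ hy0
      have h3 : θ ^ 2 * A ^ J * y ≤ θ ^ 2 * (16 * μ) := by
        calc θ ^ 2 * A ^ J * y = θ ^ 2 * (A ^ J * y) := by ring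
          _ ≤ θ ^ 2 * (16 * μ) := mul_le_mul_of_nonneg_left hy (by positivity)
      have h4 : 16 * A ^ 2 * (A * y) ≤ θ ^ 2 * μ := by
        have : 16 * (16 * A ^ 2 * (A * y)) = 256 * A ^ 3 * y := by ring
        linarith
      have h5 : θ ^ 2 * (l * μ) ≤ θ ^ 2 * s := mul_le_mul_of_nonneg_left hsl (by positivity)
      have h6 : A * y ≤ θ ^ 2 * (l * μ) := by
        have h7 := mul_le_mul_of_nonneg_left h4 hlpos.le
        have h8 : l * (16 * A ^ 2 * (A * y)) = A * y := by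
          calc l * (16 * A ^ 2 * (A * y)) = (l * (16 * A ^ 2)) * (A * y) := by ring
            _ = A * y := by rw [hl, one_mul]
        rw [h8] at h7
        linarith
      linarith
    have e1 : NN w1 d ≤ θ ^ 2 * NN w1 x := by
      have h1 := hkey hdnn1 hAd1
      have h2 : NN w1 d ≤ A * NN w1 d := le_mul_of_one_le_left hdnn1 hA.le
      have h3 : θ ^ 2 * s ≤ θ ^ 2 * NN w1 x := mul_le_mul_of_nonneg_left hx3 (by positivity)
      linarith
    have e2 : NN w2 d ≤ θ ^ 2 * NN w2 x := by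
      have h1 := hkey hdnn2 hAd2
      have h3 : θ ^ 2 * s ≤ θ ^ 2 * (A * NN w2 x) := mul_le_mul_of_nonneg_left hx4 (by positivity)
      have h4 : A * NN w2 d ≤ A * (θ ^ 2 * NN w2 x) := by linarith
      exact le_of_mul_le_mul_left h4 hA0
    obtain ⟨r1, r2, r3, r4⟩ := rel e1 e2
    exact ⟨r1, r3, r4⟩

end Pool.Agent.EuclW
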