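import Pool.Agent.EuclW.R1b

open NumberField Module IsDedekindDomain nonZeroDivisors Filter Topology

set_option linter.unusedSectionVars false
set_option linter.unusedVariables false

namespace Pool.Agent.EuclW

variable {K : Type*} [Field K] [NumberField K] {𝔭 : HeightOneSpectrum (𝓞 K)}

theorem exists_theta {B B2 : ℝ} (hB2 : 0 < B2) (hB : B2 < B) : ∃ θ : ℝ, 0 < θ ∧ θ < 1 ∧
    (1 + θ) ^ 4 * B2 ≤ B ∧ (1 + θ) ^ 4 ≤ 2 ∧ 1/2 ≤ (1 - θ) ^ 4 := by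
  set r : ℝ := B / B2 - 1 with hr
  have hr0 : 0 < r := by
    rw [hr, sub_pos, one_lt_div hB2]; exact hB
  set θ : ℝ := min (1/10) (r / 5) with hθ
  have h0 : 0 < θ := lt_min (by norm_num) (by positivity)
  have h1 : θ ≤ 1/10 := min_le_left _ _
  have h2 : θ ≤ r / 5 := min_le_right _ _
  have h3 : (1 + θ) ^ 4 ≤ 1 + 5 * θ := by
    have e2 : θ ^ 2 ≤ 1/10 * θ := by nlinarith
    have e3 : θ ^ 3 ≤ 1/100 * θ := by nlinarith
    have e4 : θ ^ 4 ≤ 1/1000 * θ := by nlinarith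
    nlinarith
  refine ⟨θ, h0, by linarith, ?_, by linarith, ?_⟩
  · calc (1 + θ) ^ 4 * B2 ≤ (1 + 5 * θ) * B2 := mul_le_mul_of_nonneg_right h3 hB2.le
      _ ≤ (1 + r) * B2 := mul_le_mul_of_nonneg_right (by linarith) hB2.le
      _ = B := by rw [hr]; field_simp; ring
  · have h4 : (9/10:ℝ) ^ 4 ≤ (1 - θ) ^ 4 := pow_le_pow_left₀ (by norm_num) (by linarith) 4
    norm_num at h4
    linarith

theorem shift_eq (u : (𝓞 K)ˣ) (ξ : K) (q1 q : 𝓞 K) :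
    (u : K) * (ξ - q1) - q = (u : K) * (ξ - ((q1 + ((u⁻¹ : (𝓞 K)ˣ) : 𝓞 K) * q : 𝓞 K) : K)) := by
  have h : ((q1 + ((u⁻¹ : (𝓞 K)ˣ) : 𝓞 K) * q : 𝓞 K) : K) = q1 + (u:K)⁻¹ * q := by simp
  rw [h]
  have := unit_ne_zero u
  field_simp
  ring

theorem nm_unit_mul (u : (𝓞 K)ˣ) (x : K) : nm (io ((u : K) * x)) = nm (io x) := by
  rw [map_mul, nm_mul, nm_unit, one_mul]

theorem gap {w1 w2 : InfinitePlace K} (hne : w1 ≠ w2) (hall : ∀ w, w = w1 ∨ w = w2)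
    {c : (𝓞 K)ˣ} {A : ℝ} (hA : 1 < A) (hc1 : NN w1 (c:K) = A) (hc2 : NN w2 (c:K) = A⁻¹)
    {κ μ : ℝ} {N0 : ℕ} (hκ0 : 0 < κ) (hμ : μ ^ 2 = 4 * A ^ 2 * κ) (hμ0 : 0 < μ)
    (hsmall : A ^ (N0 + 1) * μ < 1/4) {ξ : K} (hξ : ∀ q : 𝓞 K, ξ ≠ q) (q0 : 𝓞 K)
    (hq0 : nm (io (ξ - q0)) < κ) :
    ∃ (k : ℤ) (T : ℕ) (q1 q2 : 𝓞 K) (σ ω : K), N0 < T ∧ σ = ((c ^ k : (𝓞 K)ˣ) : K) * (ξ - q1) ∧
      ω = ((c ^ (k + T) : (𝓞 K)ˣ) : K) * (ξ - q2) ∧ μ ≤ A * NN w1 σ ∧ NN w1 σ < μ ∧ NN w2 σ < μ ∧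
      μ ≤ A * NN w2 ω ∧ NN w2 ω < μ ∧ NN w1 ω < μ ∧ nm (io (ξ - q1)) < κ ∧ nm (io (ξ - q2)) < κ ∧
      ∀ j : ℕ, 0 < j → j < T → ∀ q : 𝓞 K, ¬ (nm (io (((c ^ j : (𝓞 K)ˣ) : K) * σ - q)) < κ ∧
      NN w1 (((c ^ j : (𝓞 K)ˣ) : K) * σ - q) < μ ∧ NN w2 (((c ^ j : (𝓞 K)ˣ) : K) * σ - q) < μ) := by
  classical
  have hA0 : 0 < A := by linarith
  have hμ4 : μ < 1/4 := by
    have : μ ≤ A ^ (N0 + 1) * μ := le_mul_of_one_le_left hμ0.le (one_le_pow₀ hA.le)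
    linarith
  have hAμ4 : A * μ < 1/4 := by
    have : A ≤ A ^ (N0 + 1) := le_self_pow₀ hA.le (by omega)
    have := mul_le_mul_of_nonneg_right this hμ0.le
    linarith
  -- product bound
  have hprod : ∀ x : K, nm (io x) < κ → μ ≤ A * NN w1 x → 4 * A * NN w2 x < μ := by
    intro x hx h1
    rw [nm_NN hne hall] at hx
    have h2 : NN w2 x * μ ≤ A * (NN w1 x * NN w2 x) := by
      calc NN w2 x * μ ≤ NN w2 x * (A * NN w1 x) := mul_le_mul_of_nonneg_left h1 (NN_nonneg _ _)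
        _ = _ := by ring
    have h3 : A * (NN w1 x * NN w2 x) < A * κ := mul_lt_mul_of_pos_left hx hA0
    have h4 : (4 * A * NN w2 x) * μ < μ * μ := by
      calc (4 * A * NN w2 x) * μ = 4 * A * (NN w2 x * μ) := by ring
        _ ≤ 4 * A * (A * (NN w1 x * NN w2 x)) := mul_le_mul_of_nonneg_left h2 (by positivity)
        _ < 4 * A * (A * κ) := mul_lt_mul_of_pos_left h3 (by positivity)
        _ = μ * μ := by rw [← sq, hμ]; ring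
    exact lt_of_mul_lt_mul_right h4 hμ0.le
  have hprod' : ∀ x : K, nm (io x) < κ → μ ≤ A * NN w2 x → 4 * A * NN w1 x < μ := by
    intro x hx h1
    rw [nm_NN hne hall] at hx
    have h2 : NN w1 x * μ ≤ A * (NN w1 x * NN w2 x) := by
      calc NN w1 x * μ ≤ NN w1 x * (A * NN w2 x) := mul_le_mul_of_nonneg_left h1 (NN_nonneg _ _)
        _ = _ := by ring
    have h3 : A * (NN w1 x * NN w2 x) < A * κ := mul_lt_mul_of_pos_left hx hA0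
    have h4 : (4 * A * NN w1 x) * μ < μ * μ := by
      calc (4 * A * NN w1 x) * μ = 4 * A * (NN w1 x * μ) := by ring
        _ ≤ 4 * A * (A * (NN w1 x * NN w2 x)) := mul_le_mul_of_nonneg_left h2 (by positivity)
        _ < 4 * A * (A * κ) := mul_lt_mul_of_pos_left h3 (by positivity)
        _ = μ * μ := by rw [← sq, hμ]; ring
    exact lt_of_mul_lt_mul_right h4 hμ0.le
  have hdrop : ∀ {y : ℝ}, 0 ≤ y → 4 * A * y < μ → y < μ := by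
    intro y hy h
    have : y ≤ A * y := le_mul_of_one_le_left hy hA.le
    linarith
  set Tm : ℤ → Prop := fun k => ∃ q : 𝓞 K, nm (io (ξ - q)) < κ ∧
    NN w1 (((c ^ k : (𝓞 K)ˣ) : K) * (ξ - q)) < μ ∧ NN w2 (((c ^ k : (𝓞 K)ˣ) : K) * (ξ - q)) < μ with hTm
  -- the exit time
  obtain ⟨k, hk1, hk2⟩ := exists_zpow_balance (a := A) (x := NN w1 (ξ - q0)) (s := μ / A) hA
    (NN_pos _ (sub_ne_zero.2 (hξ q0))) (by positivity)
  rw [div_mul_cancel₀ _ hA0.ne'] at hk2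
  rw [div_le_iff₀ hA0] at hk1
  set σ : K := ((c ^ k : (𝓞 K)ˣ) : K) * (ξ - q0) with hσ
  have hσN1 : NN w1 σ = A ^ k * NN w1 (ξ - q0) := by rw [hσ, NN_zpow_mul, hc1]
  rw [← hσN1] at hk1 hk2
  have hk1' : μ ≤ A * NN w1 σ := by linarith
  have hσnm : nm (io σ) < κ := by rw [hσ, nm_unit_mul]; exact hq0
  have hσ2' := hprod σ hσnm hk1'
  have hσ2 := hdrop (NN_nonneg w2 σ) hσ2'
  have hTk : Tm k := ⟨q0, hq0, hk2, hσ2⟩
  have hck1 : ((c ^ (k + 1) : (𝓞 K)ˣ) : K) * (ξ - q0) = (c:K) * σ := by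
    rw [hσ, zpow_add, unit_mul_coe, zpow_one]; ring
  have hnT : ¬ Tm (k + 1) := by
    rintro ⟨q', hq'1, hq'2, hq'3⟩
    have e1 : q' - q0 = 0 ∨ True := Or.inr trivial
    have h0 : ((c ^ (k + 1) : (𝓞 K)ˣ) : 𝓞 K) * (q' - q0) = 0 := by
      apply eq_zero_two hall (x := ((c ^ (k + 1) : (𝓞 K)ˣ) : K) * (ξ - q0))
        (y := ((c ^ (k + 1) : (𝓞 K)ˣ) : K) * (ξ - q'))
      · have : ((((c ^ (k + 1) : (𝓞 K)ˣ) : 𝓞 K) * (q' - q0) : 𝓞 K) : K)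
            = ((c ^ (k + 1) : (𝓞 K)ˣ) : K) * ((q' : K) - q0) := by simp
        rw [this]; ring
      · rw [hck1, NN_mul, hc1]
        have := mul_lt_mul_of_pos_left hk2 hA0
        linarith
      · rw [hck1, NN_mul, hc2]
        have h1 : A⁻¹ * NN w2 σ ≤ 1 * NN w2 σ :=
          mul_le_mul_of_nonneg_right (inv_le_one_of_one_le₀ hA.le) (NN_nonneg _ _)
        linarith
      · linarith
      · linarith
    have h1 : q' = q0 := by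
      rcases mul_eq_zero.1 h0 with h | h
      · exact absurd h (Units.ne_zero _)
      · exact sub_eq_zero.1 h
    rw [h1, hck1, NN_mul, hc1] at hq'2
    linarith
  -- next time
  obtain ⟨h, hh, hper⟩ := exists_period ξ
  have hTper : Tm (k + h) := by
    obtain ⟨a, ha⟩ := hper c
    set u : (𝓞 K)ˣ := c ^ h with hu
    refine ⟨((u⁻¹ : (𝓞 K)ˣ) : 𝓞 K) * (a + q0), ?_⟩
    have e1 : ((((u⁻¹ : (𝓞 K)ˣ) : 𝓞 K) * (a + q0) : 𝓞 K) : K) = (u:K)⁻¹ * (a + q0) := by simp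
    have e2 : (u:K) * (ξ - ((((u⁻¹ : (𝓞 K)ˣ) : 𝓞 K) * (a + q0) : 𝓞 K) : K)) = ξ - q0 := by
      rw [e1, ← ha, mul_sub, mul_inv_cancel_left₀ (unit_ne_zero u)]; ring
    have e3 : ((c ^ (k + h) : (𝓞 K)ˣ) : K) = ((c ^ k : (𝓞 K)ˣ) : K) * (u:K) := by
      rw [← unit_mul_coe, hu, ← zpow_natCast, ← zpow_add]
    refine ⟨?_, ?_, ?_⟩
    · rw [← nm_unit_mul u, e2]; exact hq0
    · rw [e3, mul_assoc, e2]; exact hk2
    · rw [e3, mul_assoc, e2]; exact hσ2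
  have hex : ∃ n : ℕ, 1 ≤ n ∧ Tm (k + n) := ⟨h, hh, hTper⟩
  set T := Nat.find hex with hT
  obtain ⟨hT1, hTT⟩ := Nat.find_spec hex
  rw [← hT] at hT1 hTT
  have hmin : ∀ n : ℕ, 1 ≤ n → n < T → ¬ Tm (k + n) := fun n hn1 hn2 hn3 =>
    Nat.find_min hex hn2 ⟨hn1, hn3⟩
  have hT2 : 2 ≤ T := by
    by_contra hcon
    have : T = 1 := by omega
    rw [this] at hTT
    exact hnT (by exact_mod_cast hTT)
  obtain ⟨q2, hq21, hq22, hq23⟩ := hTT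
  set ω : K := ((c ^ (k + T) : (𝓞 K)ˣ) : K) * (ξ - q2) with hω
  have hωnm : nm (io ω) < κ := by rw [hω, nm_unit_mul]; exact hq21
  have hω2 : μ ≤ A * NN w2 ω := by
    by_contra hcon
    push Not at hcon
    apply hmin (T - 1) (by omega) (by omega)
    have e1 : ((c ^ (k + ((T - 1 : ℕ) : ℤ)) : (𝓞 K)ˣ) : K) * (ξ - q2) = ((c⁻¹ : (𝓞 K)ˣ) : K) * ω := by
      have : (k + ((T - 1 : ℕ) : ℤ)) = -1 + (k + T) := by omega
      rw [this, hω, zpow_add, unit_mul_coe, zpow_neg_one]; ring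
    have hci : ∀ w, NN w ((c⁻¹ : (𝓞 K)ˣ) : K) = (NN w (c:K))⁻¹ := by
      intro w
      have := NN_zpow_mul w c (-1) 1
      rw [mul_one, zpow_neg_one, zpow_neg_one] at this
      rw [this]
      have : NN w (1:K) = 1 := by unfold NN; simp
      rw [this, mul_one]
    refine ⟨q2, hq21, ?_, ?_⟩
    · rw [e1, NN_mul, hci, hc1]
      have h1 : A⁻¹ * NN w1 ω ≤ 1 * NN w1 ω :=
        mul_le_mul_of_nonneg_right (inv_le_one_of_one_le₀ hA.le) (NN_nonneg _ _)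
      linarith
    · rw [e1, NN_mul, hci, hc2, inv_inv]; exact hcon
  refine ⟨k, T, q0, q2, σ, ω, ?_, rfl, rfl, hk1', hk2, hσ2, hω2, hq23, hq22, hq0, hq21, ?_⟩
  · by_contra hcon
    push Not at hcon
    have hcT : ((c ^ (k + T) : (𝓞 K)ˣ) : K) = ((c ^ T : (𝓞 K)ˣ) : K) * ((c ^ k : (𝓞 K)ˣ) : K) := by
      rw [← unit_mul_coe, ← zpow_natCast, ← zpow_add, add_comm]
    have h0 : ((c ^ (k + T) : (𝓞 K)ˣ) : 𝓞 K) * (q2 - q0) = 0 := by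
      apply eq_zero_two hall (x := ((c ^ T : (𝓞 K)ˣ) : K) * σ) (y := ω)
      · have : ((((c ^ (k + T) : (𝓞 K)ˣ) : 𝓞 K) * (q2 - q0) : 𝓞 K) : K)
            = ((c ^ (k + T) : (𝓞 K)ˣ) : K) * ((q2 : K) - q0) := by simp
        rw [this, hω, hσ, hcT]; ring
      · rw [NN_pow_mul, hc1]
        have e1 : A ^ T ≤ A ^ (N0 + 1) := pow_le_pow_right₀ hA.le (by omega)
        have e2 : A ^ T * NN w1 σ ≤ A ^ (N0 + 1) * μ :=
          mul_le_mul e1 hk2.le (NN_nonneg _ _) (by positivity)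
        linarith
      · rw [NN_pow_mul, hc2]
        have e1 : (A⁻¹) ^ T ≤ 1 := pow_le_one₀ (by positivity) (inv_le_one_of_one_le₀ hA.le)
        have e2 : (A⁻¹) ^ T * NN w2 σ ≤ 1 * NN w2 σ :=
          mul_le_mul_of_nonneg_right e1 (NN_nonneg _ _)
        linarith
      · linarith
      · linarith
    have h1 : q2 = q0 := by
      rcases mul_eq_zero.1 h0 with h | h
      · exact absurd h (Units.ne_zero _)
      · exact sub_eq_zero.1 h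
    have h2 : ω = ((c ^ T : (𝓞 K)ˣ) : K) * σ := by
      rw [hω, hσ, hcT, h1]; ring
    rw [h2, NN_pow_mul, hc2] at hω2
    have e1 : (A⁻¹) ^ T ≤ 1 := pow_le_one₀ (by positivity) (inv_le_one_of_one_le₀ hA.le)
    have e2 : (A⁻¹) ^ T * NN w2 σ ≤ 1 * NN w2 σ :=
      mul_le_mul_of_nonneg_right e1 (NN_nonneg _ _)
    have e3 : A * ((A⁻¹) ^ T * NN w2 σ) ≤ A * (1 * NN w2 σ) := mul_le_mul_of_nonneg_left e2 hA0.le
    linarith
  · intro j hj1 hj2 q hq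
    apply hmin j (by omega) hj2
    have hcj : ((c ^ (k + j) : (𝓞 K)ˣ) : K) = ((c ^ j : (𝓞 K)ˣ) : K) * ((c ^ k : (𝓞 K)ˣ) : K) := by
      rw [← unit_mul_coe, ← zpow_natCast, ← zpow_add, add_comm]
    have e1 : ((c ^ j : (𝓞 K)ˣ) : K) * σ - q = ((c ^ (k + j) : (𝓞 K)ˣ) : K) * (ξ -
        ((q0 + (((c ^ (k + j))⁻¹ : (𝓞 K)ˣ) : 𝓞 K) * q : 𝓞 K) : K)) := by
      rw [← shift_eq, hσ, hcj]; ring
    rw [e1] at hq
    refine ⟨_, ?_, hq.2.1, hq.2.2⟩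
    have := hq.1
    rwa [nm_unit_mul] at this

end Pool.Agent.EuclW
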