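import Pool.Agent.EuclW.R1c

open NumberField Module IsDedekindDomain nonZeroDivisors Filter Topology

set_option linter.unusedSectionVars false
set_option linter.unusedVariables false

namespace Pool.Agent.EuclW

variable {K : Type*} [Field K] [NumberField K] {𝔭 : HeightOneSpectrum (𝓞 K)}

theorem Pd_div {W : ℤ} {D N Q ρ : K} (hD : D ≠ 0) (h : D * ρ = N * Q) (hN : Pd 𝔭 (vv 𝔭 D) N)
    (hQ : Pd 𝔭 W Q) : Pd 𝔭 W ρ := by
  by_cases hρ : ρ = 0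
  · exact Or.inl hρ
  right
  have hNQ : N * Q ≠ 0 := by rw [← h]; exact mul_ne_zero hD hρ
  have hN0 : N ≠ 0 := left_ne_zero_of_mul hNQ
  have hQ0 : Q ≠ 0 := right_ne_zero_of_mul hNQ
  have h1 := congrArg (vv 𝔭) h
  rw [vv_mul 𝔭 hD hρ, vv_mul 𝔭 hN0 hQ0] at h1
  rcases hN with hN | hN
  · exact absurd hN hN0
  rcases hQ with hQ | hQ
  · exact absurd hQ hQ0
  omega

theorem Pd_pow_sub {W : ℤ} {c : (𝓞 K)ˣ} (h : Pd 𝔭 W ((c : K) - 1)) (T : ℕ) :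
    Pd 𝔭 W (((c ^ T : (𝓞 K)ˣ) : K) - 1) := by
  induction T with
  | zero => left; simp
  | succ n ih =>
    have : ((c ^ (n+1) : (𝓞 K)ˣ) : K) - 1 = ((c : 𝓞 K) : K) * (((c ^ n : (𝓞 K)ˣ) : K) - 1) + ((c:K) - 1) := by
      rw [pow_succ, unit_mul_coe]; ring
    rw [this]
    exact Pd_add (Pd_int_mul _ ih) h

/-- valuations of `e^2+1` and `e±1` -/
theorem Pd_D {e : K} (h : Pd 𝔭 (vv 𝔭 (2:K) + 1) (e - 1)) (he : Pd 𝔭 0 e) :
    e ^ 2 + 1 ≠ 0 ∧ Pd 𝔭 (vv 𝔭 (e ^ 2 + 1)) (e + 1) ∧ Pd 𝔭 (vv 𝔭 (e ^ 2 + 1)) (e + -1) := by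
  have h1 : Pd 𝔭 0 (e + 1) := Pd_add he (Or.inr vv_one.ge)
  have h2 : Pd 𝔭 (vv 𝔭 (2:K) + 1) ((2:K) - (e ^ 2 + 1)) := by
    have : (2:K) - (e ^ 2 + 1) = -((e + 1) * (e - 1)) := by ring
    rw [this]
    have := Pd_mul h1 h
    rw [zero_add] at this
    exact Pd_neg this
  obtain ⟨hD, hv⟩ := vv_eq_of_sub h2 two_ne_zero (by omega)
  refine ⟨hD, ?_, ?_⟩
  · have h3 : Pd 𝔭 (vv 𝔭 (2:K) + 1) ((2:K) - (e + 1)) := by
      have : (2:K) - (e + 1) = -(e - 1) := by ring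
      rw [this]; exact Pd_neg h
    obtain ⟨_, hv'⟩ := vv_eq_of_sub h3 two_ne_zero (by omega)
    right; omega
  · rw [← sub_eq_add_neg, hv]
    exact Pd_mono (by omega) h

/-- A contraction unit congruent to one. -/
theorem exists_contr_cong (w₁ : InfinitePlace K) (hK : 1 ≤ Units.rank K) (W : ℕ) :
    ∃ u : (𝓞 K)ˣ, (∀ w, w ≠ w₁ → ‖io (u : K) w‖ < 1) ∧ 1 < ‖io (u : K) w₁‖ ∧
      Pd 𝔭 W ((u : K) - 1) := by
  obtain ⟨c, hc1, hc2⟩ := exists_contr w₁ hK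
  obtain ⟨m, hm, hmP⟩ := exists_nat_Pd 𝔭 W
  obtain ⟨h, hh, H⟩ := unit_pow_cong (K := K) m hm
  refine ⟨c ^ h, fun w hw => ?_, ?_, ?_⟩
  · rw [io_pow_apply, norm_pow]
    exact pow_lt_one₀ (norm_nonneg _) (hc1 w hw) (by omega)
  · rw [io_pow_apply, norm_pow]
    exact one_lt_pow₀ hc2 (by omega)
  · obtain ⟨q, hq⟩ := H c
    have h1 : ((c ^ h : (𝓞 K)ˣ) : K) - 1 = (q : K) * (m : K) := by
      have := congrArg (algebraMap (𝓞 K) K) hq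
      rw [map_sub, map_one, map_mul] at this
      simp only [map_natCast] at this
      rw [mul_comm (q:K)]
      exact this
    rw [h1]
    exact Pd_int_mul q hmP

theorem F_ge_of {t κ : ℝ} {W : ℕ} (ht : 1 < t) {x : K} (hx : x ≠ 0) (hv : Pd 𝔭 W x)
    (h : κ ≤ nm (io x)) : κ * t ^ W ≤ F 𝔭 t x := by
  unfold F
  rcases hv with hv | hv
  · exact absurd hv hx
  have h3 : t ^ W ≤ t ^ (vv 𝔭 x) := by
    have := zpow_le_zpow_right₀ ht.le hv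
    rwa [zpow_natCast] at this
  exact mul_le_mul h h3 (by positivity) (nm_nonneg _)

theorem rank1_t (hr : Units.rank K = 1) {t B B2 : ℝ} (ht : 1 < t) (hB0 : 0 < B)
    (hyp : ∀ W : ℕ, ∃ ξ : K, Hyp 𝔭 t B W ξ) (hB2' : B2 < B) :
    ∃ ρ : K, ∀ q : 𝓞 K, B2 ≤ F 𝔭 t (ρ - q) := by
  have ht0 : 0 < t := by linarith
  by_cases hB2 : 0 < B2
  swap
  · push Not at hB2
    exact ⟨0, fun q => hB2.trans (F_nonneg ht0.le _)⟩
  obtain ⟨w1, w2, hne, hall⟩ := two_places hr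
  obtain ⟨c, hcc1, hcc2, hccP⟩ := exists_contr_cong (𝔭 := 𝔭) w1 (by omega : 1 ≤ Units.rank K)
    (vv 𝔭 (2:K) + 1).toNat
  have hv2 : 0 ≤ vv 𝔭 (2:K) := by
    have : (2:K) = ((2 : 𝓞 K) : K) := (map_ofNat (algebraMap (𝓞 K) K) 2).symm
    rw [this]; exact vv_nonneg _
  rw [Int.toNat_of_nonneg (by omega)] at hccP
  set A : ℝ := NN w1 (c:K) with hAdef
  have hA : 1 < A := one_lt_pow₀ hcc2 InfinitePlace.mult_ne_zero
  have hA0 : 0 < A := by linarith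
  have hc2 : NN w2 (c:K) = A⁻¹ := by
    have := nm_unit c
    rw [nm_NN hne hall, ← hAdef] at this
    field_simp
    linarith
  obtain ⟨θ, hθ0, hθ1, hθ2, hθ3, hθ4⟩ := exists_theta hB2 hB2'
  set L : ℝ := 16 * A / θ ^ 2 with hLdef
  have hL0 : 0 < L := by positivity
  have hL : 16 * A ≤ θ ^ 2 * L := by rw [hLdef]; field_simp; exact le_rfl
  set l : ℝ := 1 / (16 * A ^ 2) with hldef
  have hl : l * (16 * A ^ 2) = 1 := by rw [hldef]; field_simp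
  obtain ⟨J, hJ'⟩ := pow_unbounded_of_one_lt (256 * A ^ 3 / θ ^ 2) hA
  have hJ : 256 * A ^ 3 ≤ θ ^ 2 * A ^ J := by
    rw [div_lt_iff₀ (by positivity)] at hJ'
    linarith
  obtain ⟨N0, hN0⟩ : ∃ N0 : ℕ, ∀ T, N0 ≤ T → 2 ≤ ‖io (c:K) w1‖ ^ T ∧
      ‖io (c:K) w2‖ ^ T ≤ 1/4 ∧ 256 * A ≤ A ^ T := by
    have e1 := (tendsto_pow_atTop_atTop_of_one_lt hcc2).eventually_ge_atTop 2
    have e2 := (tendsto_pow_atTop_nhds_zero_of_lt_one (norm_nonneg _)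
      (hcc1 w2 hne.symm)).eventually_le_const (by norm_num : (0:ℝ) < 1/4)
    have e3 := (tendsto_pow_atTop_atTop_of_one_lt hA).eventually_ge_atTop (256 * A)
    obtain ⟨N0, hN0⟩ := (e1.and (e2.and e3)).exists_forall_of_atTop
    exact ⟨N0, hN0⟩
  set μ0 : ℝ := min (1 / (16 * A * L * A ^ J)) (1 / (4 * A ^ (N0 + 1))) with hμ0def
  have hμ00 : 0 < μ0 := lt_min (by positivity) (by positivity)
  obtain ⟨W, hW⟩ := pow_unbounded_of_one_lt (4 * A ^ 2 * B / μ0 ^ 2) ht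
  set κ : ℝ := B / t ^ W with hκdef
  have hκ0 : 0 < κ := by positivity
  have hκ : κ * t ^ W = B := by rw [hκdef]; field_simp
  set μ : ℝ := Real.sqrt (4 * A ^ 2 * κ) with hμdef
  have hμ : μ ^ 2 = 4 * A ^ 2 * κ := Real.sq_sqrt (by positivity)
  have hμpos : 0 < μ := Real.sqrt_pos.2 (by positivity)
  have hμlt : μ < μ0 := by
    rw [hμdef, Real.sqrt_lt' hμ00, hκdef]
    rw [div_lt_iff₀ (by positivity)] at hW
    have : 4 * A ^ 2 * (B / t ^ W) = 4 * A ^ 2 * B / t ^ W := by ring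
    rw [this, div_lt_iff₀ (by positivity)]
    linarith
  have hsmall1 : 16 * A * L * A ^ J * μ < 1 := by
    have := hμlt.trans_le (min_le_left _ _)
    rw [lt_div_iff₀ (by positivity)] at this
    linarith
  have hsmall2 : A ^ (N0 + 1) * μ < 1/4 := by
    have := hμlt.trans_le (min_le_right _ _)
    rw [lt_div_iff₀ (by positivity)] at this
    linarith
  obtain ⟨ξ, hξ⟩ := hyp W
  by_cases hq0 : ∃ q0 : 𝓞 K, nm (io (ξ - q0)) < κ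
  swap
  · push Not at hq0
    refine ⟨ξ, fun q => ?_⟩
    by_cases hv : vv 𝔭 (ξ - q) < W
    · exact hB2'.le.trans (hξ.2.2 q hv)
    · push Not at hv
      have := F_ge_of ht (sub_ne_zero.2 (hξ.2.1 q)) (Or.inr hv) (hq0 q)
      rw [hκ] at this
      linarith
  obtain ⟨q0, hq0⟩ := hq0
  obtain ⟨k, T, q1, q2, σ, ω, hTN, hσ, hω, hσ1, hσ2, hσ3, hω1, hω2, hω3, hq1, hq2, hgap⟩ :=
    gap hne hall hA hAdef.symm hc2 hκ0 hμ hμpos hsmall2 hξ.2.1 q0 hq0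
  obtain ⟨hT1, hT2, hT3⟩ := hN0 T hTN.le
  -- small norm implies high divisibility
  have hdiv : ∀ q : 𝓞 K, nm (io (ξ - q)) < κ → Pd 𝔭 W (ξ - q) := by
    intro q hq
    right
    by_contra hcon
    push Not at hcon
    have h1 := hξ.2.2 q hcon
    unfold F at h1
    have h2 : t ^ (vv 𝔭 (ξ - q)) ≤ t ^ W := by
      have := zpow_le_zpow_right₀ ht.le hcon.le
      rwa [zpow_natCast] at this
    have h3 : nm (io (ξ - q)) * t ^ (vv 𝔭 (ξ - q)) ≤ nm (io (ξ - q)) * t ^ W :=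
      mul_le_mul_of_nonneg_left h2 (nm_nonneg _)
    have h4 : nm (io (ξ - q)) * t ^ W < κ * t ^ W := mul_lt_mul_of_pos_right hq (by positivity)
    rw [hκ] at h4
    linarith
  have hσP : Pd 𝔭 W σ := by rw [hσ]; exact Pd_int_mul _ (hdiv q1 hq1)
  have hωP : Pd 𝔭 W ω := by rw [hω]; exact Pd_int_mul _ (hdiv q2 hq2)
  set e : K := ((c ^ T : (𝓞 K)ˣ) : K) with he
  have hckT : ((c ^ (k + T) : (𝓞 K)ˣ) : K) = e * ((c ^ k : (𝓞 K)ˣ) : K) := by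
    rw [he, ← unit_mul_coe, ← zpow_natCast, ← zpow_add, add_comm]
  set Q : 𝓞 K := ((c ^ (k + T) : (𝓞 K)ˣ) : 𝓞 K) * (q2 - q1) with hQ
  have hQK : (Q : K) = e * σ - ω := by
    have : (Q : K) = ((c ^ (k + T) : (𝓞 K)ˣ) : K) * ((q2 : K) - q1) := by rw [hQ]; simp
    rw [this, hω, hσ, hckT]; ring
  have hePd : Pd 𝔭 (vv 𝔭 (2:K) + 1) (e - 1) := Pd_pow_sub hccP T
  have hePd0 : Pd 𝔭 0 e := Pd_int _
  obtain ⟨hD, hDp, hDm⟩ := Pd_D hePd hePd0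
  have hQP : Pd 𝔭 W (Q : K) := by
    rw [hQK]; exact Pd_sub (Pd_int_mul _ hσP) hωP
  set ρ1 : K := (e + 1) * Q / (e ^ 2 + 1) with hρ1
  set ρ2 : K := (e + -1) * Q / (e ^ 2 + 1) with hρ2
  have hρ1D : (e ^ 2 + 1) * ρ1 = (e + 1) * Q := by rw [hρ1]; field_simp
  have hρ2D : (e ^ 2 + 1) * ρ2 = (e + -1) * Q := by rw [hρ2]; field_simp
  have hrel1 : e * ρ1 - Q = ρ2 := by
    apply mul_left_cancel₀ hD
    rw [mul_sub, hρ2D, mul_left_comm, hρ1D]; ring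
  have hrel2 : e * ρ2 - Q = -ρ1 := by
    apply mul_left_cancel₀ hD
    rw [mul_sub, mul_neg, hρ1D, mul_left_comm, hρ2D]; ring
  have hρ1P : Pd 𝔭 W ρ1 := Pd_div hD hρ1D hDp hQP
  have hρ2P : Pd 𝔭 W ρ2 := Pd_div hD hρ2D hDm hQP
  have hρ1D' := hρ1D
  have hρ2D' := hρ2D
  rw [hQK] at hρ1D' hρ2D'
  have hNe1 : NN w1 e = A ^ T := by
    have := NN_pow_mul w1 c T 1
    rw [mul_one] at this
    rw [he, this]
    have : NN w1 (1:K) = 1 := by unfold NN; simp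
    rw [this, mul_one]
  have hNe2 : NN w2 e = (A⁻¹) ^ T := by
    have := NN_pow_mul w2 c T 1
    rw [mul_one] at this
    rw [he, this, hc2]
    have : NN w2 (1:K) = 1 := by unfold NN; simp
    rw [this, mul_one]
  have hen1 : 2 ≤ ‖io e w1‖ := by rw [he, io_pow_apply, norm_pow]; exact hT1
  have hen2 : ‖io e w2‖ ≤ 1/4 := by rw [he, io_pow_apply, norm_pow]; exact hT2
  have hmax1 : max (NN w1 σ) (NN w1 ω) ≤ μ := max_le hσ2.le hω3.le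
  have hmax2 : max (NN w2 σ) (NN w2 ω) ≤ μ := max_le hσ3.le hω2.le
  have d11 : A ^ T * NN w1 (ρ1 - σ) ≤ 16 * μ := by
    have := est1 (w := w1) (Or.inl rfl) hρ1D' hen1
    rw [hNe1] at this
    linarith
  have d12 : A ^ T * NN w1 (ρ2 - σ) ≤ 16 * μ := by
    have := est1 (w := w1) (Or.inr rfl) hρ2D' hen1
    rw [hNe1] at this
    linarith
  have d21 : NN w2 (ρ1 - σ) ≤ 16 * μ := by
    have := est2 (w := w2) (Or.inl rfl) hρ1D' hen2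
    linarith
  have d22 : NN w2 (ρ2 - σ) ≤ 16 * μ := by
    have := est2 (w := w2) (Or.inr rfl) hρ2D' hen2
    linarith
  -- lower bounds
  have low1 : ∀ ρ : K, A ^ T * NN w1 (ρ - σ) ≤ 16 * μ → 9/16 * NN w1 σ ≤ NN w1 ρ := by
    intro ρ hρ
    have h1 : 256 * A * NN w1 (ρ - σ) ≤ A ^ T * NN w1 (ρ - σ) :=
      mul_le_mul_of_nonneg_right hT3 (NN_nonneg _ _)
    have h2 : A * (16 * NN w1 (ρ - σ)) ≤ A * NN w1 σ := by linarith
    have h3 := le_of_mul_le_mul_left h2 hA0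
    have h4 := (NN_rel (w := w1) (x := σ) (y := ρ - σ) (θ := 1/4) (by norm_num) (by norm_num)
      (by linarith)).2
    rw [add_sub_cancel] at h4
    linarith
  have low2 : ∀ ρ ρ' : K, NN w2 (ρ - σ) ≤ 16 * μ → e * ρ - Q = ρ' → 9/16 * NN w2 ω ≤ NN w2 ρ' := by
    intro ρ ρ' hρ hρ'
    have h0 : ρ' = ω + e * (ρ - σ) := by rw [← hρ', hQK]; ring
    have h1 : NN w2 (e * (ρ - σ)) = (A⁻¹) ^ T * NN w2 (ρ - σ) := by rw [NN_mul, hNe2]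
    have h2 : A ^ T * NN w2 (e * (ρ - σ)) ≤ 16 * μ := by
      rw [h1, ← mul_assoc, ← mul_pow, mul_inv_cancel₀ hA0.ne', one_pow, one_mul]; exact hρ
    have h3 : 256 * A * NN w2 (e * (ρ - σ)) ≤ A ^ T * NN w2 (e * (ρ - σ)) :=
      mul_le_mul_of_nonneg_right hT3 (NN_nonneg _ _)
    have h4 : A * (16 * NN w2 (e * (ρ - σ))) ≤ A * NN w2 ω := by linarith
    have h5 := le_of_mul_le_mul_left h4 hA0
    have h6 := (NN_rel (w := w2) (x := ω) (y := e * (ρ - σ)) (θ := 1/4) (by norm_num) (by norm_num)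
      (by linarith)).2
    rw [← h0] at h6
    linarith
  have hlow11 := low1 ρ1 d11
  have hlow12 := low1 ρ2 d12
  have hlow21 : 9/16 * NN w2 ω ≤ NN w2 ρ1 := by
    have := low2 ρ2 (-ρ1) d22 hrel2
    rwa [NN_neg] at this
  have hlow22 := low2 ρ1 ρ2 d21 hrel1
  have hnmlow : ∀ ρ : K, 9/16 * NN w1 σ ≤ NN w1 ρ → 9/16 * NN w2 ω ≤ NN w2 ρ → κ ≤ nm (io ρ) := by
    intro ρ h1 h2
    rw [nm_NN hne hall]
    have e1 : 9/16 * μ ≤ A * NN w1 ρ := by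
      have := mul_le_mul_of_nonneg_left h1 hA0.le
      linarith
    have e2 : 9/16 * μ ≤ A * NN w2 ρ := by
      have := mul_le_mul_of_nonneg_left h2 hA0.le
      linarith
    have e3 : (9/16 * μ) * (9/16 * μ) ≤ (A * NN w1 ρ) * (A * NN w2 ρ) :=
      mul_le_mul e1 e2 (by positivity) (mul_nonneg hA0.le (NN_nonneg _ _))
    have e4 : (9/16 * μ) * (9/16 * μ) = A ^ 2 * (81/64 * κ) := by
      calc (9/16 * μ) * (9/16 * μ) = 81/256 * μ ^ 2 := by ring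
        _ = _ := by rw [hμ]; ring
    have e5 : A ^ 2 * (81/64 * κ) ≤ A ^ 2 * (NN w1 ρ * NN w2 ρ) := by
      rw [← e4]; refine e3.trans_eq ?_; ring
    have e6 := le_of_mul_le_mul_left e5 (by positivity)
    linarith
  have hnm1 := hnmlow ρ1 hlow11 hlow21
  have hnm2 := hnmlow ρ2 hlow12 hlow22
  have hne_of : ∀ ρ : K, κ ≤ nm (io ρ) → ρ ≠ 0 := by
    rintro ρ h rfl
    rw [nm_io_zero] at h
    linarith
  have hF1 : B2 ≤ F 𝔭 t ρ1 := by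
    have := F_ge_of ht (hne_of _ hnm1) hρ1P hnm1
    rw [hκ] at this; linarith
  have hF2 : B2 ≤ F 𝔭 t ρ2 := by
    have := F_ge_of ht (hne_of _ hnm2) hρ2P hnm2
    rw [hκ] at this; linarith
  have hlow : ∀ j : ℕ, ∀ q : 𝓞 K, ((c ^ j : (𝓞 K)ˣ) : K) * σ - q ≠ 0 ∧
      (vv 𝔭 (((c ^ j : (𝓞 K)ˣ) : K) * σ - q) < W → B ≤ F 𝔭 t (((c ^ j : (𝓞 K)ˣ) : K) * σ - q)) := by
    intro j q
    have hcj : ((c ^ (k + j) : (𝓞 K)ˣ) : K) = ((c ^ j : (𝓞 K)ˣ) : K) * ((c ^ k : (𝓞 K)ˣ) : K) := by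
      rw [← unit_mul_coe, ← zpow_natCast, ← zpow_add, add_comm]
    have e1 : ((c ^ j : (𝓞 K)ˣ) : K) * σ - q = ((c ^ (k + j) : (𝓞 K)ˣ) : K) * (ξ -
        ((q1 + (((c ^ (k + j))⁻¹ : (𝓞 K)ˣ) : 𝓞 K) * q : 𝓞 K) : K)) := by
      rw [← shift_eq, hσ, hcj]; ring
    rw [e1, vv_unit_mul, F_unit_mul]
    exact ⟨mul_ne_zero (unit_ne_zero _) (sub_ne_zero.2 (hξ.2.1 _)), hξ.2.2 _⟩
  have hσω : ((c ^ T : (𝓞 K)ˣ) : K) * σ - Q = ω := by rw [hQK]; ring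
  have hcomp1 : ∀ {j : ℕ}, j < T → ∀ (q : 𝓞 K) {s : ℝ} {x : K},
      x = ((c ^ j : (𝓞 K)ˣ) : K) * ρ1 - q → 0 ≤ s → nm (io x) = s ^ 2 → NN w1 x ≤ s * A →
      NN w2 x ≤ s → s ≤ NN w1 x → s ≤ A * NN w2 x → B2 ≤ F 𝔭 t x := by
    intro j hj q s x hx h1 h2 h3 h4 h5 h6
    exact compare hne hall hA hAdef.symm hc2 ht hB2 hB2' hκ hκ0 hμ hμpos hθ0 hθ1 hθ2 hθ3 hθ4 hL hl hJ
      hsmall1 hσω hσ2 hσ3 hω3 hω2 d11 d21 (Pd_sub hρ1P hσP) hF1 (by rw [← he, hrel1]; exact hF2)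
      hgap hlow hj q hx h1 h2 h3 h4 h5 h6
  have hcomp2 : ∀ {j : ℕ}, j < T → ∀ (q : 𝓞 K) {s : ℝ} {x : K},
      x = ((c ^ j : (𝓞 K)ˣ) : K) * ρ2 - q → 0 ≤ s → nm (io x) = s ^ 2 → NN w1 x ≤ s * A →
      NN w2 x ≤ s → s ≤ NN w1 x → s ≤ A * NN w2 x → B2 ≤ F 𝔭 t x := by
    intro j hj q s x hx h1 h2 h3 h4 h5 h6
    exact compare hne hall hA hAdef.symm hc2 ht hB2 hB2' hκ hκ0 hμ hμpos hθ0 hθ1 hθ2 hθ3 hθ4 hL hl hJ
      hsmall1 hσω hσ2 hσ3 hω3 hω2 d12 d22 (Pd_sub hρ2P hσP) hF2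
      (by rw [← he, hrel2, F_neg]; exact hF1)
      hgap hlow hj q hx h1 h2 h3 h4 h5 h6
  refine ⟨ρ1, fun q => ?_⟩
  set x0 : K := ρ1 - q with hx0
  -- balanced time
  obtain ⟨m, s, hs0, hy0, hy1, hy2, hy3, hy4⟩ : ∃ (m : ℤ) (s : ℝ), 0 ≤ s ∧
      nm (io (((c ^ m : (𝓞 K)ˣ) : K) * x0)) = s ^ 2 ∧
      NN w1 (((c ^ m : (𝓞 K)ˣ) : K) * x0) ≤ s * A ∧ NN w2 (((c ^ m : (𝓞 K)ˣ) : K) * x0) ≤ s ∧
      s ≤ NN w1 (((c ^ m : (𝓞 K)ˣ) : K) * x0) ∧ s ≤ A * NN w2 (((c ^ m : (𝓞 K)ˣ) : K) * x0) := by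
    by_cases hx00 : x0 = 0
    · refine ⟨0, 0, le_rfl, ?_, ?_, ?_, ?_, ?_⟩
      · rw [hx00, mul_zero, nm_io_zero]; norm_num
      · rw [hx00, mul_zero, NN_zero]; norm_num
      · rw [hx00, mul_zero, NN_zero]
      · rw [hx00, mul_zero, NN_zero]
      · rw [hx00, mul_zero, NN_zero]; norm_num
    · set s : ℝ := Real.sqrt (nm (io x0)) with hs
      have hnmpos := nm_io_pos hx00
      have hs1 : 0 < s := Real.sqrt_pos.2 hnmpos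
      have hs2 : s ^ 2 = nm (io x0) := Real.sq_sqrt hnmpos.le
      obtain ⟨m, hm1, hm2⟩ := exists_zpow_balance (a := A) (x := NN w1 x0) (s := s) hA
        (NN_pos _ hx00) hs1
      set y : K := ((c ^ m : (𝓞 K)ˣ) : K) * x0 with hy
      have hyN : NN w1 y = A ^ m * NN w1 x0 := by rw [hy, NN_zpow_mul]
      rw [← hyN] at hm1 hm2
      have hynm : nm (io y) = s ^ 2 := by rw [hy, nm_unit_mul, hs2]
      have hprod : NN w1 y * NN w2 y = s ^ 2 := by rw [← nm_NN hne hall, hynm]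
      refine ⟨m, s, hs1.le, hynm, hm2.le, ?_, hm1, ?_⟩
      · have h1 : s * NN w2 y ≤ s * s := by
          calc s * NN w2 y ≤ NN w1 y * NN w2 y := mul_le_mul_of_nonneg_right hm1 (NN_nonneg _ _)
            _ = s * s := by rw [hprod]; ring
        exact le_of_mul_le_mul_left h1 hs1
      · have h1 : s * s ≤ s * (A * NN w2 y) := by
          calc s * s = NN w1 y * NN w2 y := by rw [hprod]; ring
            _ ≤ (s * A) * NN w2 y := mul_le_mul_of_nonneg_right hm2.le (NN_nonneg _ _)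
            _ = _ := by ring
        exact le_of_mul_le_mul_left h1 hs1
  set y : K := ((c ^ m : (𝓞 K)ˣ) : K) * x0 with hy
  have hFy : F 𝔭 t y = F 𝔭 t x0 := F_unit_mul _ _ _
  -- reduction modulo 2T
  have hTpos : 0 < T := by omega
  set n : ℤ := m / (2 * T : ℕ) with hn
  obtain ⟨r, hr'⟩ : ∃ r : ℕ, (r : ℤ) = m % (2 * T : ℕ) :=
    ⟨(m % (2 * T : ℕ)).toNat, Int.toNat_of_nonneg (Int.emod_nonneg _ (by omega))⟩
  have hrT : r < 2 * T := by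
    have := Int.emod_lt_of_pos m (b := ((2 * T : ℕ) : ℤ)) (by omega)
    omega
  have hm : m = r + (2 * T : ℕ) * n := by
    rw [hr', hn]; exact (Int.emod_add_mul_ediv m _).symm
  have hcm : ((c ^ m : (𝓞 K)ˣ) : K) = ((c ^ r : (𝓞 K)ˣ) : K) * ((((c ^ (2 * T)) ^ n : (𝓞 K)ˣ)) : K) := by
    rw [← unit_mul_coe, ← zpow_natCast c r, ← zpow_natCast c (2 * T), ← zpow_mul, ← zpow_add, hm]
  have hstab : (-(c ^ (2 * T)) : (𝓞 K)ˣ) ∈ stab ρ1 := by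
    refine ⟨-(((c ^ T : (𝓞 K)ˣ) : 𝓞 K) + 1) * Q, ?_⟩
    have e1 : ((-(((c ^ T : (𝓞 K)ˣ) : 𝓞 K) + 1) * Q : 𝓞 K) : K) = -(e + 1) * Q := by
      rw [he]; simp
    have e2 : ((-(c ^ (2 * T)) : (𝓞 K)ˣ) : K) = - e ^ 2 := by
      have : c ^ (2 * T) = (c ^ T) ^ 2 := by rw [← pow_mul, mul_comm]
      rw [he, this]; simp
    rw [e1, e2]
    linear_combination (-1 : K) * hρ1D
  obtain ⟨ε, hε, q3, hq3⟩ : ∃ ε : K, (ε = 1 ∨ ε = -1) ∧ ∃ q3 : 𝓞 K,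
      ε * ((((c ^ (2 * T)) ^ n : (𝓞 K)ˣ)) : K) * ρ1 - ρ1 = q3 := by
    obtain ⟨q3, hq3⟩ := Subgroup.zpow_mem _ hstab n
    rcases Int.even_or_odd n with hn' | hn'
    · refine ⟨1, Or.inl rfl, q3, ?_⟩
      rw [hn'.neg_zpow] at hq3
      rw [one_mul]; exact hq3
    · refine ⟨-1, Or.inr rfl, q3, ?_⟩
      rw [hn'.neg_zpow] at hq3
      rw [← hq3]; simp
  have hεint : ∃ ei : 𝓞 K, (ei : K) = ε := by
    rcases hε with h | h
    · exact ⟨1, by rw [h]; simp⟩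
    · exact ⟨-1, by rw [h]; simp⟩
  obtain ⟨ei, hei⟩ := hεint
  set q4 : 𝓞 K := ei * ((c ^ m : (𝓞 K)ˣ) : 𝓞 K) * q - ((c ^ r : (𝓞 K)ˣ) : 𝓞 K) * q3 with hq4
  have hq4K : (q4 : K) = ε * ((c ^ m : (𝓞 K)ˣ) : K) * q - ((c ^ r : (𝓞 K)ˣ) : K) * q3 := by
    rw [hq4, ← hei]; simp
  have hyeq : ε * y = ((c ^ r : (𝓞 K)ˣ) : K) * ρ1 - q4 := by
    rw [hq4K, ← hq3, hy, hx0, hcm]; ring
  have hNε : ∀ w, NN w (ε * y) = NN w y := by
    intro w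
    rcases hε with h | h
    · rw [h, one_mul]
    · rw [h, neg_one_mul, NN_neg]
  have hnmε : nm (io (ε * y)) = nm (io y) := by
    rw [nm_NN hne hall, nm_NN hne hall, hNε, hNε]
  have hFε : F 𝔭 t (ε * y) = F 𝔭 t y := by
    rcases hε with h | h
    · rw [h, one_mul]
    · rw [h, neg_one_mul, F_neg]
  rw [← hFy, ← hFε]
  rw [← hNε] at hy1 hy2 hy3 hy4
  rw [← hnmε] at hy0
  by_cases hrT' : r < T
  · exact hcomp1 hrT' q4 hyeq hs0 hy0 hy1 hy2 hy3 hy4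
  · push Not at hrT'
    obtain ⟨j, rfl⟩ := Nat.exists_eq_add_of_le hrT'
    have hj : j < T := by omega
    refine hcomp2 hj (q4 - ((c ^ j : (𝓞 K)ˣ) : 𝓞 K) * Q) ?_ hs0 hy0 hy1 hy2 hy3 hy4
    have e1 : ((q4 - ((c ^ j : (𝓞 K)ˣ) : 𝓞 K) * Q : 𝓞 K) : K) = q4 - ((c ^ j : (𝓞 K)ˣ) : K) * Q := by
      simp
    have e2 : ((c ^ (T + j) : (𝓞 K)ˣ) : K) = e * ((c ^ j : (𝓞 K)ˣ) : K) := by
      rw [he, ← unit_mul_coe, ← pow_add]
    rw [e1, hyeq, e2, ← hrel1]; ring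

end Pool.Agent.EuclW
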