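import Pool.Agent.EuclW.Min

open NumberField Module IsDedekindDomain nonZeroDivisors Filter Topology

set_option linter.unusedSectionVars false
set_option linter.unusedVariables false

namespace Pool.Agent.EuclW

variable {K : Type*} [Field K] [NumberField K]

/-- if all small translations are available then zero belongs to the set -/
theorem zero_mem_of_dense {Z : Set (V K)} (hZ : IsClosed Z)
    (h : ∀ k : ℕ, 1 ≤ k → ∃ z ∈ V0 K, ∀ q : 𝓞 K, z + (k:ℝ)⁻¹ • io (q:K) ∈ Z) : (0 : V K) ∈ Z := by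
  rw [← hZ.closure_eq, Metric.mem_closure_iff]
  intro ε hε
  obtain ⟨k, hk⟩ := exists_nat_gt (cov K / ε)
  have hcov := cov_nonneg K
  have hk0 : (0:ℝ) < k := lt_of_le_of_lt (div_nonneg hcov hε.le) hk
  have hk1 : 1 ≤ k := by
    have : 0 < k := by exact_mod_cast hk0
    exact this
  obtain ⟨z, hz, hzZ⟩ := h k hk1
  obtain ⟨q, hq⟩ := exists_near (Submodule.smul_mem (V0 K) (-(k:ℝ)) hz)
  refine ⟨_, hzZ q, ?_⟩
  rw [dist_zero_left]
  have h1 : z + (k:ℝ)⁻¹ • io (q:K) = -((k:ℝ)⁻¹ • ((-(k:ℝ)) • z - io (q:K))) := by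
    rw [smul_sub, smul_smul]
    have : (k:ℝ)⁻¹ * -(k:ℝ) = -1 := by field_simp
    rw [this, neg_smul, one_smul]; abel
  rw [h1, norm_neg, norm_smul, Real.norm_eq_abs, abs_of_pos (inv_pos.2 hk0)]
  rw [div_lt_iff₀ hε] at hk
  calc (k:ℝ)⁻¹ * ‖(-(k:ℝ)) • z - io (q:K)‖ ≤ (k:ℝ)⁻¹ * cov K :=
        mul_le_mul_of_nonneg_left hq (inv_pos.2 hk0).le
    _ < ε := by
        rw [inv_mul_lt_iff₀ hk0]; linarith

/-- Case A of the rationality theorem -/
theorem caseA (hK : 2 ≤ Units.rank K) {j : InfinitePlace K} (hj : ¬ FA j) {Z : Set (V K)}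
    (hZ : Inv ⊥ ⊤ Z) : ∃ ρ : K, io ρ ∈ Z := by
  by_contra hrat
  push Not at hrat
  have hK1 : 1 ≤ Units.rank K := by omega
  have h0 : (0 : V K) ∈ Z := by
    apply zero_mem_of_dense hZ.closed
    intro k hk
    obtain ⟨M, hMZ, hM⟩ := exists_min (hZ.mono (le_top : Uc K k ≤ ⊤))
    have hMi := hM.1
    have hFE := FE_Uc (K := K) hk
    have hsmall : ∀ ε > 0, ∃ δ ∈ Df M, δ ∉ (⊥ : Submodule ℝ (V K)) ∧ ‖δ‖ < ε := fun ε hε =>
      Df_small hMi hK1 hFE (fun u _ w hw => by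
        rw [Submodule.mem_bot] at hw ⊢; rw [hw, mul_zero]) (fun ρ hρ => hrat ρ (hMZ hρ)) hε
    -- a place where small differences are nonzero
    obtain ⟨i, hi⟩ : ∃ i : InfinitePlace K, ∀ ε > 0, ∃ δ ∈ Df M, ‖δ‖ < ε ∧ δ i ≠ 0 := by
      by_contra hcon
      push Not at hcon
      choose ε hε0 hε using hcon
      obtain ⟨i0, hi0⟩ := Finite.exists_min ε
      obtain ⟨δ, hδD, hδ0, hδn⟩ := hsmall (ε i0) (hε0 i0)
      apply hδ0
      rw [Submodule.mem_bot]
      ext i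
      exact hε i δ hδD (hδn.trans_le (hi0 i))
    have hexp : ∀ i : InfinitePlace K, (∀ ε > 0, ∃ δ ∈ Df M, ‖δ‖ < ε ∧ δ i ≠ 0) →
        ∃ x : ℂ, 1 ≤ ‖x‖ ∧ ax i x ∈ Df M := by
      intro i hi
      obtain ⟨x, _, h1, h2⟩ := expand hK1 hFE i (Df_closed hMi) (Df_act hMi) (Qs := Set.univ)
        isClosed_univ (fun _ _ _ _ => trivial) (fun ε hε => by
          obtain ⟨δ, h1, h2, h3⟩ := hi ε hε
          exact ⟨δ, h1, h2, h3, trivial⟩)
      exact ⟨x, h1, h2⟩
    obtain ⟨xi, hxi1, hxi2⟩ := hexp i hi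
    obtain ⟨j', hj', x, hx1, hx2⟩ : ∃ j' : InfinitePlace K, ¬ FA j' ∧
        ∃ x : ℂ, 1 ≤ ‖x‖ ∧ ax j' x ∈ Df M := by
      by_cases hFA : FA i
      · -- a full line, hence a rational line
        have hline : ∀ s : ℝ, s • (ax i xi : V K) ∈ Df M := fun s =>
          smul_mem_of_pos hK (FE_inf hFE (FE_pos hFA)) inf_le_right (Df_closed hMi)
            (fun u hu z hz => Df_act hMi u hu.1 z hz) (Df_neg hMi) hxi2 s
        have hxi0 : (ax i xi : V K) ≠ 0 := by
          intro h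
          have := norm_ax i xi
          rw [h, norm_zero] at this
          linarith
        obtain ⟨q0, hq0, hq0'⟩ := line_case (Df_sub hMi _ hxi2) hxi0
        have hrline : ∀ r : ℝ, r • io (q0:K) ∈ Df M := by
          intro r
          rw [← (Df_closed hMi).closure_eq, Metric.mem_closure_iff]
          intro ε hε
          obtain ⟨q, s, hqs⟩ := hq0' 1 le_rfl r ε hε
          refine ⟨s • ax i xi + io (((1:ℕ) : K) * (q:K)), Df_lam1 hMi _ (hline s) q, ?_⟩
          rw [dist_eq_norm, add_comm (s • ax i xi)]; exact hqs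
        refine ⟨j, hj, ?_⟩
        apply hexp j
        intro ε hε
        have hq0n : 0 < ‖io (q0:K)‖ := by
          rw [norm_pos_iff]
          intro h
          have h1 : io (q0:K) j = 0 := by rw [h]; rfl
          rw [io_apply, map_eq_zero] at h1
          exact int_ne_zero hq0 h1
        refine ⟨(ε / (2 * ‖io (q0:K)‖)) • io (q0:K), hrline _, ?_, ?_⟩
        · rw [norm_smul, Real.norm_eq_abs, abs_of_pos (by positivity)]
          have : ε / (2 * ‖io (q0:K)‖) * ‖io (q0:K)‖ = ε / 2 := by field_simp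
          rw [this]; linarith
        · rw [Pi.smul_apply, smul_ne_zero_iff]
          refine ⟨by positivity, ?_⟩
          rw [io_apply, Ne, map_eq_zero]
          exact int_ne_zero hq0
      · exact ⟨i, hFA, xi, hxi1, hxi2⟩
    have hx0 : x ≠ 0 := by
      intro h; rw [h, norm_zero] at hx1; linarith
    have hall : ∀ z ∈ V0 K, z ∈ Df M := fun z hz =>
      lemA hK hFE hj' (Df_closed hMi) le_rfl (Df_lam1 hMi) (Df_act hMi) hx0 (Df_sub hMi _ hx2) hx2 hz
    obtain ⟨z, hz⟩ := hMi.nonempty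
    refine ⟨z, hMi.sub z hz, fun q => hMZ ?_⟩
    obtain ⟨z0, hz0, hz0'⟩ := hall _ (Submodule.smul_mem (V0 K) ((k:ℝ)⁻¹) (io_mem_V0 (q:K)))
    exact hM.trans (fun u hu => Uc_fix hk hu q) hz0 hz0' hz
  exact hrat 0 (by rw [map_zero]; exact h0)

end Pool.Agent.EuclW
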