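import Pool.Agent.EuclW.Basic

open NumberField Module IsDedekindDomain nonZeroDivisors

set_option linter.unusedSectionVars false
set_option linter.unusedVariables false

namespace Pool.Agent.EuclW

variable {K : Type*} [Field K] [NumberField K] (𝔭 : HeightOneSpectrum (𝓞 K))

/-- The exponent of `𝔭` in the principal fractional ideal of `x` (`0` for `x = 0`). -/
noncomputable def vv (x : K) : ℤ :=
  FractionalIdeal.count K 𝔭 (FractionalIdeal.spanSingleton (𝓞 K)⁰ x)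

theorem vv_mul {x y : K} (hx : x ≠ 0) (hy : y ≠ 0) : vv 𝔭 (x * y) = vv 𝔭 x + vv 𝔭 y := by
  unfold vv
  rw [← FractionalIdeal.spanSingleton_mul_spanSingleton, FractionalIdeal.count_mul]
  · exact (FractionalIdeal.spanSingleton_ne_zero_iff).2 hx
  · exact (FractionalIdeal.spanSingleton_ne_zero_iff).2 hy

theorem vv_int (q : 𝓞 K) (hq : q ≠ 0) : 𝔭.valuation K (q : K) = WithZero.exp (-vv 𝔭 (q : K)) := by
  rw [show ((q:K)) = algebraMap (𝓞 K) K q from rfl, HeightOneSpectrum.valuation_of_algebraMap,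
    HeightOneSpectrum.intValuation_if_neg _ hq]
  congr 2
  unfold vv
  rw [← FractionalIdeal.coeIdeal_span_singleton, FractionalIdeal.count_coe]
  · simpa using hq

theorem vv_eq (x : K) (hx : x ≠ 0) : 𝔭.valuation K x = WithZero.exp (-vv 𝔭 x) := by
  obtain ⟨a, b, hb, rfl⟩ := IsFractionRing.div_surjective (A := 𝓞 K) x
  have hb0 : b ≠ 0 := nonZeroDivisors.ne_zero hb
  have ha0 : a ≠ 0 := by rintro rfl; simp at hx
  have hbK : (b : K) ≠ 0 := by simpa using hb0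
  have haK : (a : K) ≠ 0 := by simpa using ha0
  have h1 : vv 𝔭 ((a:K) / (b:K)) = vv 𝔭 (a:K) - vv 𝔭 (b:K) := by
    have := vv_mul 𝔭 hx hbK
    rw [show (algebraMap (𝓞 K) K a / algebraMap (𝓞 K) K b) * (b:K) = (a:K) from div_mul_cancel₀ _ hbK] at this
    change vv 𝔭 (algebraMap (𝓞 K) K a / algebraMap (𝓞 K) K b) = _
    omega
  rw [map_div₀]
  change 𝔭.valuation K (a:K) / 𝔭.valuation K (b:K) = _
  rw [vv_int 𝔭 a ha0, vv_int 𝔭 b hb0]
  change _ = WithZero.exp (-vv 𝔭 ((a:K) / (b:K)))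
  rw [h1, ← WithZero.exp_sub]
  congr 1; ring

/-- `x` is divisible by `𝔭 ^ W` (locally at `𝔭`). -/
def Pd (W : ℤ) (x : K) : Prop := x = 0 ∨ W ≤ vv 𝔭 x

theorem Pd_iff (W : ℤ) (x : K) : Pd 𝔭 W x ↔ 𝔭.valuation K x ≤ WithZero.exp (-W) := by
  unfold Pd
  by_cases hx : x = 0
  · simp [hx]
  · rw [vv_eq 𝔭 x hx, WithZero.exp_le_exp]
    constructor
    · rintro (h | h)
      · exact absurd h hx
      · omega
    · intro h; right; omega

variable {𝔭}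

theorem Pd_add {W : ℤ} {x y : K} (hx : Pd 𝔭 W x) (hy : Pd 𝔭 W y) : Pd 𝔭 W (x + y) := by
  rw [Pd_iff] at *
  exact (Valuation.map_add _ _ _).trans (max_le hx hy)

theorem Pd_neg {W : ℤ} {x : K} (hx : Pd 𝔭 W x) : Pd 𝔭 W (-x) := by
  rw [Pd_iff] at *
  rwa [Valuation.map_neg]

theorem Pd_sub {W : ℤ} {x y : K} (hx : Pd 𝔭 W x) (hy : Pd 𝔭 W y) : Pd 𝔭 W (x - y) := by
  rw [sub_eq_add_neg]; exact Pd_add hx (Pd_neg hy)

theorem vv_nonneg (q : 𝓞 K) : 0 ≤ vv 𝔭 (q : K) := by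
  unfold vv
  rw [show ((q:K)) = algebraMap (𝓞 K) K q from rfl, ← FractionalIdeal.coeIdeal_span_singleton]
  exact FractionalIdeal.count_coe_nonneg K 𝔭 _

theorem Pd_int (q : 𝓞 K) : Pd 𝔭 0 (q : K) := Or.inr (vv_nonneg q)

theorem Pd_mono {W W' : ℤ} (h : W ≤ W') {x : K} (hx : Pd 𝔭 W' x) : Pd 𝔭 W x := by
  rcases hx with hx | hx
  · exact Or.inl hx
  · exact Or.inr (h.trans hx)

theorem Pd_mul {W W' : ℤ} {x y : K} (hx : Pd 𝔭 W x) (hy : Pd 𝔭 W' y) : Pd 𝔭 (W + W') (x * y) := by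
  by_cases hx0 : x = 0
  · left; simp [hx0]
  by_cases hy0 : y = 0
  · left; simp [hy0]
  right
  rw [vv_mul 𝔭 hx0 hy0]
  rcases hx with hx | hx
  · exact absurd hx hx0
  rcases hy with hy | hy
  · exact absurd hy hy0
  omega

theorem Pd_int_mul {W : ℤ} (q : 𝓞 K) {x : K} (hx : Pd 𝔭 W x) : Pd 𝔭 W ((q : K) * x) := by
  have := Pd_mul (Pd_int (𝔭 := 𝔭) q) hx
  rwa [zero_add] at this

theorem vv_one : vv 𝔭 (1 : K) = 0 := by
  have := vv_mul 𝔭 (one_ne_zero (α := K)) (one_ne_zero (α := K))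
  rw [mul_one] at this
  omega

theorem unit_ne_zero (u : (𝓞 K)ˣ) : (u : K) ≠ 0 := by simp

theorem vv_unit (u : (𝓞 K)ˣ) : vv 𝔭 (u : K) = 0 := by
  have h1 : 0 ≤ vv 𝔭 (u : K) := vv_nonneg (u : 𝓞 K)
  have h2 : 0 ≤ vv 𝔭 ((u⁻¹ : (𝓞 K)ˣ) : K) := vv_nonneg ((u⁻¹ : (𝓞 K)ˣ) : 𝓞 K)
  have h3 := vv_mul 𝔭 (unit_ne_zero u) (unit_ne_zero u⁻¹)
  have h4 : (u : K) * ((u⁻¹ : (𝓞 K)ˣ) : K) = 1 := by
    rw [← map_mul (algebraMap (𝓞 K) K)]; simp
  rw [h4, vv_one] at h3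
  omega

theorem vv_unit_mul (u : (𝓞 K)ˣ) (x : K) : vv 𝔭 ((u : K) * x) = vv 𝔭 x := by
  by_cases hx : x = 0
  · simp [hx]
  rw [vv_mul 𝔭 (unit_ne_zero u) hx, vv_unit, zero_add]

theorem vv_neg (x : K) : vv 𝔭 (-x) = vv 𝔭 x := by
  have := vv_unit_mul (𝔭 := 𝔭) (-1 : (𝓞 K)ˣ) x
  simpa using this

/-- if `x - y` is highly divisible then the valuations agree -/
theorem vv_eq_of_sub {W : ℤ} {x y : K} (h : Pd 𝔭 W (x - y)) (hx : x ≠ 0) (hv : vv 𝔭 x < W) :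
    y ≠ 0 ∧ vv 𝔭 y = vv 𝔭 x := by
  have hy : y ≠ 0 := by
    rintro rfl
    rw [sub_zero] at h
    rcases h with h | h
    · exact hx h
    · omega
  refine ⟨hy, ?_⟩
  apply le_antisymm
  · by_contra hcon
    push Not at hcon
    have h1 : Pd 𝔭 (vv 𝔭 x + 1) y := Or.inr (by omega)
    have h2 : Pd 𝔭 (vv 𝔭 x + 1) (x - y) := Pd_mono (by omega) h
    have h3 := Pd_add h2 h1
    rw [sub_add_cancel] at h3
    rcases h3 with h3 | h3
    · exact hx h3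
    · omega
  · have h2 : Pd 𝔭 (vv 𝔭 x) (x - y) := Pd_mono (by omega) h
    have h3 := Pd_sub (Or.inr le_rfl : Pd 𝔭 (vv 𝔭 x) x) h2
    rw [sub_sub_cancel] at h3
    rcases h3 with h3 | h3
    · exact absurd h3 hy
    · exact h3

theorem exists_nat_Pd (𝔭 : HeightOneSpectrum (𝓞 K)) (W : ℕ) :
    ∃ m : ℕ, 1 ≤ m ∧ Pd 𝔭 W (m : K) := by
  set N := Ideal.absNorm 𝔭.asIdeal with hN
  have hN0 : N ≠ 0 := by
    rw [hN, Ne, Ideal.absNorm_eq_zero_iff]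
    exact 𝔭.ne_bot
  have hmem : (N : 𝓞 K) ∈ 𝔭.asIdeal := Ideal.absNorm_mem _
  have hv1 : 1 ≤ vv 𝔭 (N : K) := by
    have h1 : 𝔭.valuation K (algebraMap (𝓞 K) K (N : 𝓞 K)) < 1 :=
      (HeightOneSpectrum.valuation_lt_one_iff_mem 𝔭 _).2 hmem
    have h2 : algebraMap (𝓞 K) K (N : 𝓞 K) = (N : K) := by simp
    rw [h2, vv_eq 𝔭 (N : K) (by exact_mod_cast hN0)] at h1
    have h3 : WithZero.exp (-vv 𝔭 (N : K)) < WithZero.exp (0:ℤ) := by simpa using h1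
    rw [WithZero.exp_lt_exp] at h3
    omega
  refine ⟨N ^ W, Nat.one_le_iff_ne_zero.2 (pow_ne_zero _ hN0), Or.inr ?_⟩
  have : ∀ W : ℕ, vv 𝔭 ((N:K) ^ W) = W * vv 𝔭 (N : K) := by
    intro W
    induction W with
    | zero => simp [vv_one]
    | succ n ih =>
      rw [pow_succ, vv_mul 𝔭 (pow_ne_zero _ (by exact_mod_cast hN0)) (by exact_mod_cast hN0), ih]
      push_cast; ring
  push_cast
  rw [this]
  nlinarith

/-- The weighted norm, in terms of the norm form and the exponent of `𝔭`. -/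
noncomputable def F (𝔭 : HeightOneSpectrum (𝓞 K)) (t : ℝ) (x : K) : ℝ := nm (io x) * t ^ (vv 𝔭 x)

theorem F_zero (t : ℝ) : F 𝔭 t (0:K) = 0 := by
  unfold F; rw [nm_io_zero, zero_mul]

theorem F_nonneg {t : ℝ} (ht : 0 ≤ t) (x : K) : 0 ≤ F 𝔭 t x :=
  mul_nonneg (nm_nonneg _) (zpow_nonneg ht _)

theorem F_unit_mul (t : ℝ) (u : (𝓞 K)ˣ) (x : K) : F 𝔭 t ((u:K) * x) = F 𝔭 t x := by
  unfold F
  rw [vv_unit_mul, map_mul, nm_mul, nm_unit, one_mul]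

theorem F_neg (t : ℝ) (x : K) : F 𝔭 t (-x) = F 𝔭 t x := by
  have := F_unit_mul (𝔭 := 𝔭) t (-1 : (𝓞 K)ˣ) x
  simpa using this

end Pool.Agent.EuclW
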