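import Pool.Agent.EuclW.Defs
import Pool.Agent.EuclW.Val

open NumberField Module IsDedekindDomain nonZeroDivisors

set_option linter.unusedSectionVars false
set_option linter.unusedVariables false

namespace Pool.Agent.EuclW

variable {K : Type*} [Field K] [NumberField K] {𝔭 : HeightOneSpectrum (𝓞 K)}

theorem absNorm_pos (𝔭 : HeightOneSpectrum (𝓞 K)) : (0:ℝ) < (Ideal.absNorm 𝔭.asIdeal : ℝ) := by
  have : Ideal.absNorm 𝔭.asIdeal ≠ 0 := by
    rw [Ne, Ideal.absNorm_eq_zero_iff]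
    exact 𝔭.ne_bot
  positivity

theorem finprod_norm {x : K} (hx : x ≠ 0) :
    ∏ᶠ 𝔮 : HeightOneSpectrum (𝓞 K), (Ideal.absNorm 𝔮.asIdeal : ℝ) ^
      FractionalIdeal.count K 𝔮 (FractionalIdeal.spanSingleton (𝓞 K)⁰ x) = nm (io x) := by
  have hI : FractionalIdeal.spanSingleton (𝓞 K)⁰ x ≠ 0 :=
    (FractionalIdeal.spanSingleton_ne_zero_iff).2 hx
  have h := FractionalIdeal.finprod_heightOneSpectrum_factorization' K hI
  have h2 := congrArg (fun I => ((FractionalIdeal.absNorm I : ℚ) : ℝ)) h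
  rw [FractionalIdeal.absNorm_span_singleton] at h2
  rw [nm_io]
  rw [show |(Algebra.norm ℚ x : ℝ)| = ((|Algebra.norm ℚ x| : ℚ) : ℝ) by push_cast; rfl, ← h2]
  rw [map_finprod, ]
  · rw [← Rat.coe_castHom, map_finprod]
    · refine finprod_congr fun 𝔮 => ?_
      simp [FractionalIdeal.coeIdeal_absNorm]
    · have h0 := FractionalIdeal.finite_factors (K := K) (FractionalIdeal.spanSingleton (𝓞 K)⁰ x)
      refine Set.Finite.subset h0 ?_
      intro 𝔮 h𝔮 hc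
      apply h𝔮
      simp only
      rw [hc]; simp
  · have h0 := FractionalIdeal.finite_factors (K := K) (FractionalIdeal.spanSingleton (𝓞 K)⁰ x)
    refine Set.Finite.subset h0 ?_
    intro 𝔮 h𝔮 hc
    apply h𝔮
    simp only
    rw [hc]; simp

theorem weightedNorm_eq {c : ℝ} (hc : 0 < c) (x : K) :
    weightedNorm 𝔭 c x = F 𝔭 (c / Ideal.absNorm 𝔭.asIdeal) x := by
  by_cases hx : x = 0
  · subst hx
    rw [F_zero]; simp [weightedNorm]
  unfold weightedNorm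
  rw [if_neg hx]
  unfold phi F vv
  rw [← finprod_norm hx]
  classical
  have hfin : ∀ g : HeightOneSpectrum (𝓞 K) → ℝ, (∀ 𝔮, FractionalIdeal.count K 𝔮
      (FractionalIdeal.spanSingleton (𝓞 K)⁰ x) = 0 → g 𝔮 = 1) → Function.HasFiniteMulSupport g := by
    intro g hg
    have h0 := FractionalIdeal.finite_factors (K := K) (FractionalIdeal.spanSingleton (𝓞 K)⁰ x)
    refine Set.Finite.subset h0 ?_
    intro 𝔮 h𝔮 hc
    exact h𝔮 (hg 𝔮 hc)
  have h1 : (c / (Ideal.absNorm 𝔭.asIdeal : ℝ)) ^ FractionalIdeal.count K 𝔭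
      (FractionalIdeal.spanSingleton (𝓞 K)⁰ x) = ∏ᶠ 𝔮 : HeightOneSpectrum (𝓞 K),
      (if 𝔮 = 𝔭 then (c / (Ideal.absNorm 𝔭.asIdeal : ℝ)) ^ FractionalIdeal.count K 𝔭
      (FractionalIdeal.spanSingleton (𝓞 K)⁰ x) else 1) := by
    rw [finprod_eq_single _ 𝔭]
    · simp
    · intro y hy
      simp [hy]
  rw [h1, ← finprod_mul_distrib]
  · refine finprod_congr fun 𝔮 => ?_
    unfold primeWeight
    split_ifs with h
    · subst h
      rw [div_zpow, mul_div_cancel₀]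
      exact (zpow_pos (absNorm_pos _) _).ne'
    · rw [mul_one]
  · exact hfin _ fun 𝔮 h𝔮 => by rw [h𝔮]; simp
  · refine hfin _ fun 𝔮 h𝔮 => ?_
    split_ifs with h
    · subst h; rw [h𝔮]; simp
    · rfl


open Filter Topology

theorem F_mul {t : ℝ} (ht : 0 < t) (x y : K) : F 𝔭 t (x * y) = F 𝔭 t x * F 𝔭 t y := by
  by_cases hx : x = 0
  · subst hx; simp [F_zero]
  by_cases hy : y = 0
  · subst hy; simp [F_zero]
  unfold F
  rw [vv_mul 𝔭 hx hy, zpow_add₀ ht.ne', map_mul, nm_mul]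
  ring

theorem F_pos {t : ℝ} (ht : 0 < t) {x : K} (hx : x ≠ 0) : 0 < F 𝔭 t x :=
  mul_pos (nm_io_pos hx) (zpow_pos ht _)

/-- The set of admissible constants. -/
def Kap (𝔭 : HeightOneSpectrum (𝓞 K)) (t : ℝ) : Set ℝ := {κ | ∀ ξ : K, ∃ q : 𝓞 K, F 𝔭 t (ξ - q) < κ}

theorem euclMin_eq {c : ℝ} (hc : 0 < c) : euclideanMinimum 𝔭 c =
    sInf ((fun κ : ℝ => (κ : EReal)) '' Kap 𝔭 (c / Ideal.absNorm 𝔭.asIdeal)) := by
  unfold euclideanMinimum
  congr 2
  have ht : 0 < c / (Ideal.absNorm 𝔭.asIdeal : ℝ) := div_pos hc (absNorm_pos 𝔭)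
  ext κ
  simp only [Set.mem_ofPred_eq, Kap, weightedNorm_eq hc]
  constructor
  · intro h ξ
    obtain ⟨a, b, hb, rfl⟩ := IsFractionRing.div_surjective (A := 𝓞 K) ξ
    have hb0 : b ≠ 0 := nonZeroDivisors.ne_zero hb
    have hbK : (algebraMap (𝓞 K) K b) ≠ 0 := by simpa using hb0
    obtain ⟨q, hq⟩ := h a b hb0
    refine ⟨q, ?_⟩
    have h1 : (algebraMap (𝓞 K) K a) - (algebraMap (𝓞 K) K b) * (q:K)
        = (algebraMap (𝓞 K) K b) * (algebraMap (𝓞 K) K a / algebraMap (𝓞 K) K b - q) := by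
      field_simp
    change F 𝔭 _ ((algebraMap (𝓞 K) K a) - (algebraMap (𝓞 K) K b) * (q:K)) < κ * F 𝔭 _ (algebraMap (𝓞 K) K b) at hq
    rw [h1, F_mul ht, mul_comm κ] at hq
    exact lt_of_mul_lt_mul_left hq (F_pos ht hbK).le
  · intro h a b hb
    have hbK : (b:K) ≠ 0 := by simpa using hb
    obtain ⟨q, hq⟩ := h ((a:K) / (b:K))
    refine ⟨q, ?_⟩
    have h1 : (a:K) - (b:K) * (q:K) = (b:K) * ((a:K) / (b:K) - q) := by
      field_simp
    rw [h1, F_mul ht, mul_comm κ]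
    exact mul_lt_mul_of_pos_left hq (F_pos ht hbK)

/-- The approximate bad points. -/
def Hyp (𝔭 : HeightOneSpectrum (𝓞 K)) (t B : ℝ) (W : ℕ) (ξ : K) : Prop :=
  Pd 𝔭 0 ξ ∧ (∀ q : 𝓞 K, ξ ≠ q) ∧ ∀ q : 𝓞 K, vv 𝔭 (ξ - q) < W → B ≤ F 𝔭 t (ξ - q)

/-- The core statement. -/
def Core (𝔭 : HeightOneSpectrum (𝓞 K)) : Prop :=
  ∀ t : ℝ, 1 ≤ t → ∀ B : ℝ, 0 < B → (∀ W : ℕ, ∃ ξ : K, Hyp 𝔭 t B W ξ) →
    ∀ B2 < B, ∃ ρ : K, ∀ q : 𝓞 K, B2 ≤ F 𝔭 t (ρ - q)

theorem F_change {t t0 : ℝ} (ht0 : 0 < t0) (x : K) :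
    F 𝔭 t x = F 𝔭 t0 x * (t / t0) ^ (vv 𝔭 x) := by
  unfold F
  rw [mul_assoc, ← mul_zpow, mul_div_cancel₀ _ ht0.ne']

theorem vv_sub_int {ξ : K} (h : ¬ Pd 𝔭 0 ξ) (q : 𝓞 K) : ξ - q ≠ 0 ∧ vv 𝔭 (ξ - q) = vv 𝔭 ξ := by
  unfold Pd at h
  push Not at h
  have := vv_eq_of_sub (𝔭 := 𝔭) (W := 0) (x := ξ) (y := ξ - q) (by
    rw [sub_sub_cancel]; exact Pd_int q) h.1 h.2
  exact this

theorem zpow_near (t0 : ℝ) (ht0 : 0 < t0) (v : ℤ) (r : ℝ) (hr : r < 1) :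
    ∀ᶠ t in 𝓝 t0, r < (t / t0) ^ v := by
  have h : Tendsto (fun t : ℝ => (t / t0) ^ v) (𝓝 t0) (𝓝 ((t0 / t0) ^ v)) := by
    apply ContinuousAt.zpow₀
    · fun_prop
    · left; rw [div_self ht0.ne']; exact one_ne_zero
  rw [div_self ht0.ne', one_zpow] at h
  exact h.eventually_const_lt hr

theorem zpow_near' (t0 : ℝ) (ht0 : 0 < t0) (v : ℤ) (r : ℝ) (hr : 1 < r) :
    ∀ᶠ t in 𝓝 t0, (t / t0) ^ v < r := by
  have h : Tendsto (fun t : ℝ => (t / t0) ^ v) (𝓝 t0) (𝓝 ((t0 / t0) ^ v)) := by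
    apply ContinuousAt.zpow₀
    · fun_prop
    · left; rw [div_self ht0.ne']; exact one_ne_zero
  rw [div_self ht0.ne', one_zpow] at h
  exact h.eventually_lt_const hr

theorem nm_lower (ξ : K) (hξ : ∀ q : 𝓞 K, ξ ≠ q) : ∃ δ > 0, ∀ q : 𝓞 K, δ ≤ nm (io (ξ - q)) := by
  obtain ⟨a, b, hb, rfl⟩ := IsFractionRing.div_surjective (A := 𝓞 K) ξ
  have hb0 : b ≠ 0 := nonZeroDivisors.ne_zero hb
  have hbK : (algebraMap (𝓞 K) K b) ≠ 0 := by simpa using hb0
  refine ⟨(nm (io (algebraMap (𝓞 K) K b)))⁻¹, inv_pos.2 (nm_io_pos hbK), fun q => ?_⟩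
  have h1 : (algebraMap (𝓞 K) K a / algebraMap (𝓞 K) K b - q) * (algebraMap (𝓞 K) K b) =
      ((a - q * b : 𝓞 K) : K) := by
    change _ = algebraMap (𝓞 K) K (a - q * b)
    rw [map_sub, map_mul]
    field_simp
  have h2 : a - q * b ≠ 0 := by
    intro h
    apply hξ q
    have : algebraMap (𝓞 K) K a = algebraMap (𝓞 K) K q * algebraMap (𝓞 K) K b := by
      rw [← map_mul, sub_eq_zero.1 h]
    rw [this, mul_div_cancel_right₀ _ hbK]
  have h3 := one_le_nm_int h2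
  rw [← h1, map_mul, nm_mul] at h3
  rw [inv_le_iff_one_le_mul₀ (nm_io_pos hbK)]
  exact h3

theorem lsc {t0 : ℝ} (ht0 : 1 ≤ t0) {ξ : K} {B B' : ℝ} (h : ∀ q : 𝓞 K, B ≤ F 𝔭 t0 (ξ - q))
    (hB : B' < B) : ∀ᶠ t in 𝓝[Set.Ici 1] t0, ∀ q : 𝓞 K, B' ≤ F 𝔭 t (ξ - q) := by
  have ht00 : 0 < t0 := by linarith
  by_cases hB'0 : B' ≤ 0
  · filter_upwards [self_mem_nhdsWithin] with t ht q
    have : (0:ℝ) ≤ t := by have : (1:ℝ) ≤ t := ht; linarith
    exact hB'0.trans (F_nonneg this _)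
  push Not at hB'0
  have hB0 : 0 < B := by linarith
  have hξ : ∀ q : 𝓞 K, ξ ≠ q := by
    intro q hq
    have := h q
    rw [hq, sub_self, F_zero] at this
    linarith
  obtain ⟨δ, hδ, hδq⟩ := nm_lower ξ hξ
  set t1 : ℝ := (1 + t0) / 2 with ht1
  -- choose V
  obtain ⟨V, hV⟩ : ∃ V : ℕ, t0 = 1 ∨ (1 < t0 ∧ B' ≤ δ * t1 ^ V) := by
    rcases eq_or_lt_of_le ht0 with h1 | h1
    · exact ⟨0, Or.inl h1.symm⟩
    · have : 1 < t1 := by rw [ht1]; linarith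
      obtain ⟨V, hV⟩ := pow_unbounded_of_one_lt (B' / δ) this
      refine ⟨V, Or.inr ⟨h1, ?_⟩⟩
      rw [div_lt_iff₀ hδ] at hV
      linarith
  obtain ⟨a, ha⟩ : ∃ a : ℤ, ∀ q : 𝓞 K, a ≤ vv 𝔭 (ξ - q) := by
    by_cases hp : Pd 𝔭 0 ξ
    · refine ⟨0, fun q => ?_⟩
      rcases Pd_sub hp (Pd_int q) with h1 | h1
      · exact absurd (sub_eq_zero.1 h1) (hξ q)
      · exact h1
    · exact ⟨vv 𝔭 ξ, fun q => (vv_sub_int hp q).2.ge⟩
  have hfin : ∀ᶠ t in 𝓝[Set.Ici 1] t0, ∀ v ∈ Set.Icc a (V:ℤ), B' / B < (t / t0) ^ v := by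
    rw [Filter.eventually_all_finite (Set.finite_Icc a (V:ℤ))]
    intro v _
    exact (zpow_near t0 ht00 v (B' / B) ((div_lt_one hB0).2 hB)).filter_mono nhdsWithin_le_nhds
  have ht1' : ∀ᶠ t in 𝓝[Set.Ici 1] t0, t0 = 1 ∨ t1 < t := by
    rcases eq_or_lt_of_le ht0 with h1 | h1
    · exact Eventually.of_forall fun t => Or.inl h1.symm
    · have : t1 < t0 := by rw [ht1]; linarith
      filter_upwards [nhdsWithin_le_nhds (lt_mem_nhds this)] with t ht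
      exact Or.inr ht
  filter_upwards [hfin, self_mem_nhdsWithin, ht1'] with t h1 h2 h3 q
  have h2' : (1:ℝ) ≤ t := h2
  rw [F_change (t0 := t0) ht00]
  by_cases hv : vv 𝔭 (ξ - q) ≤ V
  · have := h1 _ ⟨ha q, hv⟩
    rw [div_lt_iff₀ hB0] at this
    have h4 := h q
    have h5 : (0:ℝ) < (t / t0) ^ vv 𝔭 (ξ - q) := zpow_pos (by positivity) _
    nlinarith
  · push Not at hv
    by_cases htt : t0 ≤ t
    · have h5 : (1:ℝ) ≤ (t / t0) ^ vv 𝔭 (ξ - q) := by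
        apply one_le_zpow₀
        · rwa [one_le_div ht00]
        · omega
      have h4 := h q
      nlinarith
    · push Not at htt
      rcases hV with hV | hV
      · linarith
      rcases h3 with h3 | h3
      · linarith
      rw [← F_change ht00]
      unfold F
      have h6 : δ ≤ nm (io (ξ - (q:K))) := hδq q
      have h7 : t1 ^ V ≤ t ^ (vv 𝔭 (ξ - q)) := by
        have e1 : t1 ^ V ≤ t ^ V := pow_le_pow_left₀ (by rw [ht1]; linarith) h3.le _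
        have e2 : t ^ (V:ℤ) ≤ t ^ (vv 𝔭 (ξ - q)) := zpow_le_zpow_right₀ h2' hv.le
        rw [zpow_natCast] at e2
        exact e1.trans e2
      have h8 : 0 ≤ t1 ^ V := pow_nonneg (by rw [ht1]; linarith) _
      calc B' ≤ δ * t1 ^ V := hV.2
        _ ≤ nm (io (ξ - (q:K))) * t ^ (vv 𝔭 (ξ - q)) := by
            apply mul_le_mul h6 h7 h8 (nm_nonneg _)

theorem usc (hcore : Core 𝔭) {t0 : ℝ} (ht0 : 1 ≤ t0) {κ B : ℝ} (h : κ ∈ Kap 𝔭 t0) (hB : κ < B) :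
    ∀ᶠ t in 𝓝[Set.Ici 1] t0, B ∈ Kap 𝔭 t := by
  have ht00 : 0 < t0 := by linarith
  have hκ0 : 0 < κ := by
    obtain ⟨q, hq⟩ := h 0
    exact lt_of_le_of_lt (F_nonneg ht00.le _) hq
  -- part 1
  have hp1 : ∀ᶠ t in 𝓝[Set.Ici 1] t0, ∀ ξ : K, ¬ Pd 𝔭 0 ξ → ∃ q : 𝓞 K, F 𝔭 t (ξ - q) < B := by
    set t1 : ℝ := (1 + t0) / 2 with ht1
    set C : ℝ := cov K ^ finrank ℚ K with hC
    have hC0 : 0 ≤ C := pow_nonneg (cov_nonneg K) _
    obtain ⟨V, hV⟩ : ∃ V : ℕ, t0 = 1 ∨ (1 < t0 ∧ C < B * t1 ^ V) := by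
      rcases eq_or_lt_of_le ht0 with h1 | h1
      · exact ⟨0, Or.inl h1.symm⟩
      · have : 1 < t1 := by rw [ht1]; linarith
        obtain ⟨V, hV⟩ := pow_unbounded_of_one_lt (C / B) this
        refine ⟨V, Or.inr ⟨h1, ?_⟩⟩
        rw [div_lt_iff₀ (by linarith)] at hV
        linarith
    have hfin : ∀ᶠ t in 𝓝[Set.Ici 1] t0, ∀ v ∈ Set.Icc (-(V:ℤ)) 0, (t / t0) ^ v < B / κ := by
      rw [Filter.eventually_all_finite (Set.finite_Icc _ _)]
      intro v _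
      exact (zpow_near' t0 ht00 v (B / κ) ((one_lt_div hκ0).2 hB)).filter_mono nhdsWithin_le_nhds
    have ht1' : ∀ᶠ t in 𝓝[Set.Ici 1] t0, t0 = 1 ∨ t1 < t := by
      rcases eq_or_lt_of_le ht0 with h1 | h1
      · exact Eventually.of_forall fun t => Or.inl h1.symm
      · have : t1 < t0 := by rw [ht1]; linarith
        filter_upwards [nhdsWithin_le_nhds (lt_mem_nhds this)] with t ht
        exact Or.inr ht
    filter_upwards [hfin, self_mem_nhdsWithin, ht1'] with t h1 h2 h3 ξ hξ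
    have h2' : (1:ℝ) ≤ t := h2
    have hvv : vv 𝔭 ξ < 0 := by
      unfold Pd at hξ
      push Not at hξ
      exact hξ.2
    by_cases hv : -(V:ℤ) ≤ vv 𝔭 ξ
    · obtain ⟨q, hq⟩ := h ξ
      refine ⟨q, ?_⟩
      rw [F_change ht00, (vv_sub_int hξ q).2]
      have e1 := h1 _ ⟨hv, hvv.le⟩
      have e2 : 0 < F 𝔭 t0 (ξ - q) := F_pos ht00 (vv_sub_int hξ q).1
      calc F 𝔭 t0 (ξ - q) * (t / t0) ^ vv 𝔭 ξ < F 𝔭 t0 (ξ - q) * (B / κ) :=
            mul_lt_mul_of_pos_left e1 e2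
        _ ≤ κ * (B / κ) := mul_le_mul_of_nonneg_right hq.le (div_nonneg (by linarith) hκ0.le)
        _ = B := by field_simp
    · push Not at hv
      rcases hV with hV | hV
      · -- t ≥ t0 = 1
        obtain ⟨q, hq⟩ := h ξ
        refine ⟨q, ?_⟩
        rw [F_change ht00, (vv_sub_int hξ q).2]
        have e2 : 0 < F 𝔭 t0 (ξ - q) := F_pos ht00 (vv_sub_int hξ q).1
        have e3 : (t / t0) ^ vv 𝔭 ξ ≤ 1 := by
          apply zpow_le_one_of_nonpos₀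
          · rw [one_le_div ht00]; linarith
          · omega
        nlinarith
      · rcases h3 with h3 | h3
        · linarith
        obtain ⟨q, hq⟩ := exists_near (io_mem_V0 ξ)
        refine ⟨q, ?_⟩
        unfold F
        rw [(vv_sub_int hξ q).2]
        have e1 : nm (io (ξ - (q:K))) ≤ C := by
          apply nm_le_of_le
          intro w
          rw [map_sub]
          exact (norm_le_pi_norm _ w).trans hq
        have e2 : t ^ (vv 𝔭 ξ) ≤ (t1 ^ V)⁻¹ := by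
          have e3 : t ^ (vv 𝔭 ξ) ≤ t ^ (-(V:ℤ)) := zpow_le_zpow_right₀ h2' hv.le
          rw [zpow_neg, zpow_natCast] at e3
          refine e3.trans ?_
          apply inv_anti₀
          · have : 0 < t1 := by rw [ht1]; linarith
            positivity
          · exact pow_le_pow_left₀ (by rw [ht1]; linarith) h3.le _
        have hpos : 0 < t1 ^ V := by
          have : 0 < t1 := by rw [ht1]; linarith
          positivity
        calc nm (io (ξ - (q:K))) * t ^ (vv 𝔭 ξ) ≤ C * (t1 ^ V)⁻¹ := by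
              apply mul_le_mul e1 e2 (zpow_nonneg (by linarith) _) hC0
          _ < B := by
              rw [mul_inv_lt_iff₀ hpos]
              exact hV.2
  -- part 3
  have hp3 : ∀ᶠ t in 𝓝[Set.Ioi t0] t0, ∀ ξ : K, Pd 𝔭 0 ξ → ∃ q : 𝓞 K, F 𝔭 t (ξ - q) < B := by
    by_contra hcon
    rw [Filter.not_eventually] at hcon
    set B1 : ℝ := (κ + B) / 2 with hB1
    have hB1B : B1 < B := by rw [hB1]; linarith
    have hκB1 : κ < B1 := by rw [hB1]; linarith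
    have hB10 : 0 < B1 := by linarith
    have hH : ∀ W : ℕ, ∃ ξ : K, Hyp 𝔭 t0 B1 W ξ := by
      intro W
      have hfin : ∀ᶠ t in 𝓝[Set.Ioi t0] t0, ∀ v ∈ Set.Icc (0:ℤ) W, (t / t0) ^ v < B / B1 := by
        rw [Filter.eventually_all_finite (Set.finite_Icc _ _)]
        intro v _
        exact (zpow_near' t0 ht00 v (B / B1) ((one_lt_div hB10).2 hB1B)).filter_mono
          nhdsWithin_le_nhds
      obtain ⟨t, hbad, h1, h2⟩ := (hcon.and_eventually (hfin.and self_mem_nhdsWithin)).exists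
      have h2' : t0 < t := h2
      push Not at hbad
      obtain ⟨ξ, hξ, hq⟩ := hbad
      have hξO : ∀ q : 𝓞 K, ξ ≠ q := by
        intro q hqq
        have := hq q
        rw [hqq, sub_self, F_zero] at this
        linarith
      refine ⟨ξ, hξ, hξO, fun q hv => ?_⟩
      have hv0 : 0 ≤ vv 𝔭 (ξ - q) := by
        rcases Pd_sub hξ (Pd_int q) with h5 | h5
        · exact absurd (sub_eq_zero.1 h5) (hξO q)
        · exact h5
      have e1 := h1 _ ⟨hv0, hv.le⟩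
      have e2 := hq q
      rw [F_change ht00] at e2
      have e3 : 0 < F 𝔭 t0 (ξ - q) := F_pos ht00 (sub_ne_zero.2 (hξO q))
      have e4 : F 𝔭 t0 (ξ - q) * (t / t0) ^ vv 𝔭 (ξ - q) < F 𝔭 t0 (ξ - q) * (B / B1) :=
        mul_lt_mul_of_pos_left e1 e3
      have e5 : B < F 𝔭 t0 (ξ - q) * (B / B1) := lt_of_le_of_lt e2 e4
      rw [← mul_div_assoc, lt_div_iff₀ hB10] at e5
      have hB0 : 0 < B := by linarith
      nlinarith
    obtain ⟨ρ, hρ⟩ := hcore t0 ht0 B1 hB10 hH κ hκB1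
    obtain ⟨q, hq⟩ := h ρ
    exact absurd hq (not_lt.2 (hρ q))
  have hp3' : ∀ᶠ t in 𝓝[Set.Ici 1] t0, t0 < t → ∀ ξ : K, Pd 𝔭 0 ξ → ∃ q : 𝓞 K, F 𝔭 t (ξ - q) < B := by
    rw [eventually_nhdsWithin_iff] at hp3
    exact (hp3.mono fun t ht hlt => ht hlt).filter_mono nhdsWithin_le_nhds
  filter_upwards [hp1, hp3', self_mem_nhdsWithin] with t h1 h3 h4 ξ
  have h4' : (1:ℝ) ≤ t := h4
  by_cases hξ : Pd 𝔭 0 ξ
  · by_cases htt : t0 < t
    · exact h3 htt ξ hξ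
    · push Not at htt
      obtain ⟨q, hq⟩ := h ξ
      refine ⟨q, ?_⟩
      rcases Pd_sub hξ (Pd_int q) with h5 | h5
      · rw [h5, F_zero]; linarith
      · have : F 𝔭 t (ξ - q) ≤ F 𝔭 t0 (ξ - q) := by
          unfold F
          apply mul_le_mul_of_nonneg_left _ (nm_nonneg _)
          exact zpow_le_zpow_left₀ h5 (by linarith) htt
        linarith
  · exact h1 ξ hξ

theorem Kap_up {t : ℝ} {κ κ' : ℝ} (h : κ ∈ Kap 𝔭 t) (hk : κ ≤ κ') : κ' ∈ Kap 𝔭 t := by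
  intro ξ
  obtain ⟨q, hq⟩ := h ξ
  exact ⟨q, hq.trans_le hk⟩

theorem continuous_of_core (hcore : Core 𝔭) :
    ContinuousOn (euclideanMinimum 𝔭) (Set.Ici (Ideal.absNorm 𝔭.asIdeal : ℝ)) := by
  intro c0 hc0
  have hN := absNorm_pos 𝔭
  set N : ℝ := (Ideal.absNorm 𝔭.asIdeal : ℝ) with hNdef
  have hc0' : N ≤ c0 := hc0
  have ht0 : 1 ≤ c0 / N := by rwa [one_le_div hN]
  have htend : Tendsto (fun c : ℝ => c / N) (𝓝[Set.Ici N] c0) (𝓝[Set.Ici 1] (c0 / N)) := by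
    apply tendsto_nhdsWithin_of_tendsto_nhds_of_eventually_within
    · exact ((continuous_id.div_const N).tendsto c0).mono_left nhdsWithin_le_nhds
    · filter_upwards [self_mem_nhdsWithin] with c hc
      have : N ≤ c := hc
      change 1 ≤ c / N
      rwa [one_le_div hN]
  unfold ContinuousWithinAt
  rw [euclMin_eq (by linarith)]
  rw [tendsto_order]
  constructor
  · intro a ha
    obtain ⟨B, haB, hB⟩ := EReal.lt_iff_exists_real_btwn.1 ha
    obtain ⟨B', haB', hB'⟩ := EReal.lt_iff_exists_real_btwn.1 haB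
    have hnot : B ∉ Kap 𝔭 (c0 / N) := by
      intro hmem
      have : sInf ((fun κ : ℝ => (κ : EReal)) '' Kap 𝔭 (c0 / N)) ≤ (B : EReal) :=
        sInf_le ⟨B, hmem, rfl⟩
      exact absurd hB (not_lt.2 this)
    unfold Kap at hnot
    simp only [Set.mem_ofPred_eq, not_forall, not_exists, not_lt] at hnot
    obtain ⟨ξ, hξ⟩ := hnot
    have hB'' : B' < B := by exact_mod_cast hB'
    have h1 := htend.eventually (lsc ht0 hξ hB'')
    filter_upwards [h1, self_mem_nhdsWithin] with c hc hcN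
    have hcN' : N ≤ c := hcN
    rw [euclMin_eq (by linarith)]
    refine lt_of_lt_of_le haB' ?_
    apply le_sInf
    rintro _ ⟨κ, hκ, rfl⟩
    obtain ⟨q, hq⟩ := hκ ξ
    have := hc q
    have h5 : B' ≤ κ := by linarith
    change (B' : EReal) ≤ (κ : EReal)
    exact_mod_cast h5
  · intro b hb
    rw [gt_iff_lt, sInf_lt_iff] at hb
    obtain ⟨_, ⟨κ, hκ, rfl⟩, hκb⟩ := hb
    obtain ⟨B, hκB, hBb⟩ := EReal.lt_iff_exists_real_btwn.1 hκb
    have hκB' : κ < B := by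
      change (κ : EReal) < (B : EReal) at hκB
      exact_mod_cast hκB
    have h1 := htend.eventually (usc hcore ht0 hκ hκB')
    filter_upwards [h1, self_mem_nhdsWithin] with c hc hcN
    have hcN' : N ≤ c := hcN
    rw [euclMin_eq (by linarith)]
    exact lt_of_le_of_lt (sInf_le ⟨B, hc, rfl⟩) hBb

end Pool.Agent.EuclW
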