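import Pool.Agent.EuclW.Defs

open NumberField IsDedekindDomain nonZeroDivisors

namespace Pool.Agent.EuclW

variable {K : Type*} [Field K] [NumberField K]

theorem primeWeight_pos (𝔭 : HeightOneSpectrum (𝓞 K)) {c : ℝ} (hc : 0 < c)
    (𝔮 : HeightOneSpectrum (𝓞 K)) : 0 < primeWeight 𝔭 c 𝔮 := by
  unfold primeWeight
  split_ifs
  · exact hc
  · have : Ideal.absNorm 𝔮.asIdeal ≠ 0 := by
      rw [Ne, Ideal.absNorm_eq_zero_iff]; exact 𝔮.ne_bot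
    exact_mod_cast Nat.pos_of_ne_zero this

theorem finite_support_aux (𝔭 : HeightOneSpectrum (𝓞 K)) (c : ℝ)
    (I : FractionalIdeal (𝓞 K)⁰ K) :
    (Function.mulSupport fun 𝔮 : HeightOneSpectrum (𝓞 K) =>
      primeWeight 𝔭 c 𝔮 ^ FractionalIdeal.count K 𝔮 I).Finite := by
  refine (Filter.eventually_cofinite.1 (FractionalIdeal.finite_factors (K := K) I)).subset ?_
  intro 𝔮 h𝔮 h
  simp only [Function.mem_mulSupport] at h𝔮
  exact h𝔮 (by rw [h, zpow_zero])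

/-- `φ` is multiplicative on nonzero fractional ideals. -/
theorem phi_mul (𝔭 : HeightOneSpectrum (𝓞 K)) {c : ℝ} (hc : 0 < c)
    {I J : FractionalIdeal (𝓞 K)⁰ K} (hI : I ≠ 0) (hJ : J ≠ 0) :
    phi 𝔭 c (I * J) = phi 𝔭 c I * phi 𝔭 c J := by
  unfold phi
  rw [← finprod_mul_distrib (finite_support_aux 𝔭 c I) (finite_support_aux 𝔭 c J)]
  refine finprod_congr fun 𝔮 => ?_
  rw [FractionalIdeal.count_mul K 𝔮 hI hJ, zpow_add₀ (primeWeight_pos 𝔭 hc 𝔮).ne']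

/-- `φ` takes the prescribed value at every nonzero prime. -/
theorem phi_prime (𝔭 : HeightOneSpectrum (𝓞 K)) (c : ℝ) (𝔮 : HeightOneSpectrum (𝓞 K)) :
    phi 𝔭 c (𝔮.asIdeal : FractionalIdeal (𝓞 K)⁰ K) = primeWeight 𝔭 c 𝔮 := by
  unfold phi
  rw [finprod_eq_single _ 𝔮]
  · rw [FractionalIdeal.count_self, zpow_one]
  · intro 𝔯 h
    rw [FractionalIdeal.count_maximal_coprime K 𝔯 h.symm, zpow_zero]

theorem primeWeight_self (𝔭 : HeightOneSpectrum (𝓞 K)) (c : ℝ) : primeWeight 𝔭 c 𝔭 = c := by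
  simp [primeWeight]

theorem primeWeight_ne {𝔭 𝔮 : HeightOneSpectrum (𝓞 K)} (h : 𝔮 ≠ 𝔭) (c : ℝ) :
    primeWeight 𝔭 c 𝔮 = (Ideal.absNorm 𝔮.asIdeal : ℝ) := by
  simp [primeWeight, h]

end Pool.Agent.EuclW
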