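import Pool.Agent.EuclW.Un

open NumberField Module IsDedekindDomain nonZeroDivisors Filter Topology

set_option linter.unusedSectionVars false
set_option linter.unusedVariables false

namespace Pool.Agent.EuclW

variable {K : Type*} [Field K] [NumberField K] {𝔭 : HeightOneSpectrum (𝓞 K)}

/-- subgroups of finite exponent -/
def FE (H : Subgroup (𝓞 K)ˣ) : Prop := ∃ h : ℕ, 1 ≤ h ∧ ∀ u : (𝓞 K)ˣ, u ^ h ∈ H

theorem io_inj_place {x y : K} {w : InfinitePlace K} (h : io x w = io y w) : x = y :=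
  w.embedding.injective h

theorem three_places (hK : 2 ≤ Units.rank K) (j : InfinitePlace K) :
    ∃ i k : InfinitePlace K, i ≠ j ∧ k ≠ j ∧ k ≠ i := by
  classical
  have hc : 3 ≤ Fintype.card (InfinitePlace K) := by
    unfold Units.rank at hK; omega
  have h1 : 2 ≤ (Finset.univ.erase j : Finset (InfinitePlace K)).card := by
    rw [Finset.card_erase_of_mem (Finset.mem_univ j), Finset.card_univ]; omega
  obtain ⟨i, hi, k, hk, hik⟩ := Finset.one_lt_card.1 (by omega : 1 < (Finset.univ.erase j : Finset (InfinitePlace K)).card)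
  exact ⟨i, k, Finset.ne_of_mem_erase hi, Finset.ne_of_mem_erase hk, hik.symm⟩

/-- contraction units in subgroups of finite exponent -/
theorem exists_contr_FE {H : Subgroup (𝓞 K)ˣ} (hH : FE H) (w₁ : InfinitePlace K)
    (hK : 1 ≤ Units.rank K) :
    ∃ u ∈ H, (∀ w, w ≠ w₁ → ‖io (u : K) w‖ < 1) ∧ 1 < ‖io (u : K) w₁‖ := by
  obtain ⟨c, hc1, hc2⟩ := exists_contr w₁ hK
  obtain ⟨h, hh, H1⟩ := hH
  refine ⟨c ^ h, H1 c, fun w hw => ?_, ?_⟩
  · rw [io_pow_apply, norm_pow]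
    exact pow_lt_one₀ (norm_nonneg _) (hc1 w hw) (by omega)
  · rw [io_pow_apply, norm_pow]
    exact one_lt_pow₀ hc2 (by omega)

/-- pigeonhole for bounded sequences -/
theorem exists_close {E : Type*} [PseudoMetricSpace E] [ProperSpace E] {x : ℕ → E} {s : Set E}
    (hs : Bornology.IsBounded s) (hx : ∀ n, x n ∈ s) {ε : ℝ} (hε : 0 < ε) :
    ∃ a b : ℕ, a < b ∧ dist (x a) (x b) < ε := by
  obtain ⟨z, hz, φ, hφ, hlim⟩ := tendsto_subseq_of_bounded hs hx
  obtain ⟨N, hN⟩ := (Metric.tendsto_atTop.1 hlim) (ε / 2) (by linarith)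
  refine ⟨φ N, φ (N+1), hφ (Nat.lt_succ_self N), ?_⟩
  have h1 := hN N le_rfl
  have h2 := hN (N+1) (Nat.le_succ N)
  have h3 := dist_triangle_right (x (φ N)) (x (φ (N+1))) z
  simp only [Function.comp] at h1 h2
  linarith

theorem near_one (hK : 2 ≤ Units.rank K) {H : Subgroup (𝓞 K)ˣ} (hH : FE H) (j : InfinitePlace K)
    {ε : ℝ} (hε : 0 < ε) : ∃ u ∈ H, io (u : K) j ≠ 1 ∧ ‖io (u : K) j - 1‖ < ε := by
  obtain ⟨i, k, hij, hkj, hki⟩ := three_places hK j
  obtain ⟨c, hcH, hc1, hc2⟩ := exists_contr_FE hH j (by omega)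
  obtain ⟨b, hbH, hb1, hb2⟩ := exists_contr_FE hH i (by omega)
  have hbj : 0 < ‖io (b:K) j‖ := by rw [norm_io, InfinitePlace.pos_iff]; exact unit_ne_zero b
  have hbk : 0 < ‖io (b:K) k‖ := by rw [norm_io, InfinitePlace.pos_iff]; exact unit_ne_zero b
  have hck : 0 < ‖io (c:K) k‖ := by rw [norm_io, InfinitePlace.pos_iff]; exact unit_ne_zero c
  choose l hl1 hl2 using fun a : ℕ => exists_zpow_balance (a := ‖io (c:K) j‖)
    (x := ‖io (b:K) j‖ ^ a) (s := 1) hc2 (by positivity) one_pos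
  set x : ℕ → ℂ := fun a => io ((c ^ (l a) * b ^ a : (𝓞 K)ˣ) : K) j with hx
  have hxn : ∀ a, ‖x a‖ = ‖io (c:K) j‖ ^ (l a) * ‖io (b:K) j‖ ^ a := by
    intro a
    rw [hx]; simp only
    rw [unit_mul_coe, map_mul, Pi.mul_apply, norm_mul, io_zpow_norm, io_pow_apply, norm_pow]
  obtain ⟨a, a', haa, hclose⟩ := exists_close (x := x)
    (Metric.isBounded_closedBall (x := (0:ℂ)) (r := ‖io (c:K) j‖)) (fun n => by
      rw [mem_closedBall_zero_iff, hxn]
      have := hl2 n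
      rw [one_mul] at this
      exact this.le) hε
  have hxa : x a ≠ 0 := by
    intro h0
    have := hxn a
    rw [h0, norm_zero] at this
    have h1 := hl1 a
    linarith
  set u : (𝓞 K)ˣ := (c ^ (l a' ) * b ^ a') * (c ^ (l a) * b ^ a)⁻¹ with hu
  have huj : io (u:K) j = x a' / x a := by
    have h1 : (u:K) * ((c ^ (l a) * b ^ a : (𝓞 K)ˣ) : K) = ((c ^ (l a') * b ^ a' : (𝓞 K)ˣ) : K) := by
      rw [← unit_mul_coe, hu, inv_mul_cancel_right]
    have h2 := congrArg (fun z => io z j) h1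
    rw [map_mul, Pi.mul_apply] at h2
    rw [eq_div_iff hxa]
    exact h2
  refine ⟨u, ?_, ?_, ?_⟩
  · exact H.mul_mem (H.mul_mem (H.zpow_mem hcH _) (H.pow_mem hbH _))
      (H.inv_mem (H.mul_mem (H.zpow_mem hcH _) (H.pow_mem hbH _)))
  · intro h1
    have hu1 : (u:K) = 1 := by
      apply io_inj_place (w := j)
      rw [h1, map_one]; rfl
    obtain ⟨n, hn, rfl⟩ : ∃ n : ℕ, 1 ≤ n ∧ a' = a + n := ⟨a' - a, by omega, by omega⟩
    have h2 : ((c ^ (l (a + n)) * b ^ (a + n) : (𝓞 K)ˣ) : K) = ((c ^ (l a) * b ^ a : (𝓞 K)ˣ) : K) := by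
      have h1 : (u:K) * ((c ^ (l a) * b ^ a : (𝓞 K)ˣ) : K) = ((c ^ (l (a+n)) * b ^ (a+n) : (𝓞 K)ˣ) : K) := by
        rw [← unit_mul_coe, hu, inv_mul_cancel_right]
      rw [← h1, hu1, one_mul]
    have h3 : ∀ w : InfinitePlace K, ‖io (c:K) w‖ ^ (l (a+n) - l a) * ‖io (b:K) w‖ ^ n = 1 := by
      intro w
      have hcw : 0 < ‖io (c:K) w‖ := by rw [norm_io, InfinitePlace.pos_iff]; exact unit_ne_zero c
      have hbw : 0 < ‖io (b:K) w‖ := by rw [norm_io, InfinitePlace.pos_iff]; exact unit_ne_zero b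
      have h4 := congrArg (fun z => ‖io z w‖) h2
      rw [unit_mul_coe, unit_mul_coe, map_mul, map_mul, Pi.mul_apply, Pi.mul_apply, norm_mul,
        norm_mul, io_zpow_norm, io_pow_apply, norm_pow, io_zpow_norm, io_pow_apply, norm_pow] at h4
      rw [zpow_sub₀ hcw.ne']
      rw [pow_add] at h4
      field_simp
      have : ‖io (b:K) w‖ ^ a ≠ 0 := by positivity
      apply mul_right_cancel₀ this
      linarith
    have h5 : ‖io (b:K) k‖ ^ n < 1 := pow_lt_one₀ (norm_nonneg _) (hb1 k hki) (by omega)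
    have h6 : ‖io (b:K) j‖ ^ n < 1 := pow_lt_one₀ (norm_nonneg _) (hb1 j hij.symm) (by omega)
    have hgt : ∀ {C D : ℝ}, C * D = 1 → D < 1 → 0 < D → 1 < C := by
      intro C D h h' h''
      by_contra hcon
      push Not at hcon
      have : C * D ≤ 1 * D := mul_le_mul_of_nonneg_right hcon h''.le
      linarith
    have h7 : 1 < ‖io (c:K) k‖ ^ (l (a+n) - l a) := hgt (h3 k) h5 (by positivity)
    have h8 : 1 < ‖io (c:K) j‖ ^ (l (a+n) - l a) := hgt (h3 j) h6 (by positivity)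
    have h9 : 0 < l (a+n) - l a := by
      by_contra hcon
      push Not at hcon
      have := zpow_le_one_of_nonpos₀ hc2.le hcon
      linarith
    have h10 : ‖io (c:K) k‖ ^ (l (a+n) - l a) ≤ 1 := by
      exact zpow_le_one₀ hck (hc1 k hkj).le h9.le
    linarith
  · rw [huj]
    have h1 : x a' / x a - 1 = (x a' - x a) / x a := by field_simp
    rw [h1, norm_div]
    have h2 : 1 ≤ ‖x a‖ := by rw [hxn]; exact hl1 a
    rw [dist_comm, dist_eq_norm] at hclose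
    calc ‖x a' - x a‖ / ‖x a‖ ≤ ‖x a' - x a‖ / 1 := by
          apply div_le_div_of_nonneg_left (norm_nonneg _) one_pos h2
      _ < ε := by rw [div_one]; exact hclose

/-- finite-argument places -/
def FA (j : InfinitePlace K) : Prop :=
  ∃ h : ℕ, 1 ≤ h ∧ ∀ u : (𝓞 K)ˣ, ∃ r : ℝ, 0 < r ∧ (io (u : K) j) ^ h = (r : ℂ)

/-- subgroup of units positive at `j` -/
def posSub (j : InfinitePlace K) : Subgroup (𝓞 K)ˣ where
  carrier := {u | ∃ r : ℝ, 0 < r ∧ io (u : K) j = (r : ℂ)}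
  one_mem' := ⟨1, one_pos, by simp⟩
  mul_mem' := by
    rintro u v ⟨r, hr, hr'⟩ ⟨s, hs, hs'⟩
    refine ⟨r * s, mul_pos hr hs, ?_⟩
    rw [unit_mul_coe, map_mul, Pi.mul_apply, hr', hs']; push_cast; rfl
  inv_mem' := by
    rintro u ⟨r, hr, hr'⟩
    refine ⟨r⁻¹, inv_pos.2 hr, ?_⟩
    have h1 : ((u⁻¹ : (𝓞 K)ˣ) : K) = (u:K)⁻¹ := by simp
    rw [h1, io_apply, map_inv₀, ← io_apply, hr']; push_cast; rfl

theorem FE_inf {H H' : Subgroup (𝓞 K)ˣ} (h : FE H) (h' : FE H') : FE (H ⊓ H') := by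
  obtain ⟨a, ha, ha'⟩ := h
  obtain ⟨b, hb, hb'⟩ := h'
  refine ⟨a * b, Nat.mul_pos ha hb, fun u => ⟨?_, ?_⟩⟩
  · rw [pow_mul]; exact H.pow_mem (ha' u) _
  · rw [mul_comm, pow_mul]; exact H'.pow_mem (hb' u) _

theorem FE_top : FE (⊤ : Subgroup (𝓞 K)ˣ) := ⟨1, le_rfl, fun u => trivial⟩

theorem FE_pos {j : InfinitePlace K} (hj : FA j) : FE (posSub j) := by
  obtain ⟨h, hh, H⟩ := hj
  refine ⟨h, hh, fun u => ?_⟩
  obtain ⟨r, hr, hr'⟩ := H u
  exact ⟨r, hr, by rw [io_pow_apply]; exact hr'⟩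

/-- density of positive units at a place -/
theorem dense_pos (hK : 2 ≤ Units.rank K) {H : Subgroup (𝓞 K)ˣ} (hH : FE H) {j : InfinitePlace K}
    (hpos : H ≤ posSub j) {s ε : ℝ} (hs : 0 < s) (hε : 0 < ε) :
    ∃ u ∈ H, ‖io (u : K) j - (s:ℂ)‖ < ε := by
  -- a unit slightly larger than one
  obtain ⟨v, hvH, hv1, hv2⟩ : ∃ v ∈ H, 1 < ‖io (v:K) j‖ ∧ ‖io (v:K) j‖ < 1 + ε / s := by
    set δ : ℝ := min (1/2) (ε / s / 2) with hδ
    have hδ0 : 0 < δ := lt_min (by norm_num) (by positivity)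
    obtain ⟨u, huH, hu1, hu2⟩ := near_one hK hH j hδ0
    obtain ⟨r, hr, hr'⟩ := hpos huH
    rw [hr'] at hu1 hu2
    have hu3 : |r - 1| < δ := by
      rw [← Complex.ofReal_one, ← Complex.ofReal_sub, Complex.norm_real] at hu2
      exact hu2
    have hr1 : r ≠ 1 := by rintro rfl; exact hu1 (by simp)
    have hnr : ‖io (u:K) j‖ = r := by rw [hr', Complex.norm_real, Real.norm_eq_abs, abs_of_pos hr]
    rw [abs_lt] at hu3
    have hd1 : δ ≤ 1/2 := min_le_left _ _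
    have hd2 : δ ≤ ε / s / 2 := min_le_right _ _
    rcases lt_or_gt_of_ne hr1 with h | h
    · refine ⟨u⁻¹, H.inv_mem huH, ?_, ?_⟩
      · have h1 := io_zpow_norm u (-1) j
        rw [zpow_neg_one, zpow_neg_one, hnr] at h1
        rw [h1]; exact (one_lt_inv₀ hr).2 h
      · have h1 := io_zpow_norm u (-1) j
        rw [zpow_neg_one, zpow_neg_one, hnr] at h1
        rw [h1, inv_lt_iff_one_lt_mul₀ hr]
        have h2 : 0 < ε / s := by positivity
        nlinarith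
    · refine ⟨u, huH, by rw [hnr]; exact h, by rw [hnr]; linarith⟩
  set a : ℝ := ‖io (v:K) j‖ with ha
  obtain ⟨n, hn1, hn2⟩ := exists_mem_Ico_zpow hs hv1
  refine ⟨v ^ n, H.zpow_mem hvH n, ?_⟩
  obtain ⟨r, hr, hr'⟩ := hpos (H.zpow_mem hvH n)
  have hnr : r = a ^ n := by
    have := io_zpow_norm v n j
    rw [hr', Complex.norm_real, Real.norm_eq_abs, abs_of_pos hr] at this
    exact this
  rw [hr', ← Complex.ofReal_sub, Complex.norm_real, Real.norm_eq_abs, hnr, abs_lt]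
  have ha0 : 0 < a := by linarith
  rw [zpow_add_one₀ ha0.ne'] at hn2
  have h3 : a ^ n * a < a ^ n * (1 + ε / s) := mul_lt_mul_of_pos_left hv2 (zpow_pos ha0 n)
  have h4 : a ^ n * (ε / s) ≤ s * (ε / s) := mul_le_mul_of_nonneg_right hn1 (by positivity)
  have h5 : s * (ε / s) = ε := by field_simp
  constructor
  · nlinarith
  · linarith

/-- arguments of units in `H`, as a subgroup of the reals -/
def argSub (H : Subgroup (𝓞 K)ˣ) (j : InfinitePlace K) : AddSubgroup ℝ where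
  carrier := {x | ∃ u ∈ H, io (u : K) j = (‖io (u:K) j‖ : ℂ) * Complex.exp (x * Complex.I)}
  zero_mem' := ⟨1, H.one_mem, by simp⟩
  add_mem' := by
    rintro x y ⟨u, hu, hu'⟩ ⟨v, hv, hv'⟩
    refine ⟨u * v, H.mul_mem hu hv, ?_⟩
    rw [unit_mul_coe, map_mul, Pi.mul_apply, norm_mul]
    conv_lhs => rw [hu', hv']
    push_cast
    rw [add_mul, Complex.exp_add]; ring
  neg_mem' := by
    rintro x ⟨u, hu, hu'⟩
    refine ⟨u⁻¹, H.inv_mem hu, ?_⟩
    have h1 : ((u⁻¹ : (𝓞 K)ˣ) : K) = (u:K)⁻¹ := by simp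
    have h2 : io ((u:K)⁻¹) j = (io (u:K) j)⁻¹ := by rw [io_apply, map_inv₀]; rfl
    rw [h1, h2, norm_inv]
    conv_lhs => rw [hu']
    rw [mul_inv]
    push_cast
    rw [neg_mul, Complex.exp_neg]

theorem dense_arg {H : Subgroup (𝓞 K)ˣ} (hH : FE H) {j : InfinitePlace K} (hj : ¬ FA j) :
    Dense (argSub H j : Set ℝ) := by
  rcases AddSubgroup.dense_or_cyclic (argSub H j) with h | ⟨a, ha⟩
  · exact h
  exfalso
  apply hj
  obtain ⟨h0, hh0, H0⟩ := hH
  -- 2π belongs to the subgroup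
  have h2π : 2 * Real.pi ∈ argSub H j := by
    refine ⟨1, H.one_mem, ?_⟩
    push_cast
    rw [Complex.exp_two_pi_mul_I]; simp
  rw [ha, AddSubgroup.mem_closure_singleton] at h2π
  obtain ⟨n, hn⟩ := h2π
  have hn0 : n ≠ 0 := by
    rintro rfl
    rw [zero_smul] at hn
    have := Real.pi_pos
    linarith
  obtain ⟨N, hN⟩ := Int.eq_nat_or_neg n
  have hN0 : 1 ≤ N := by
    rcases hN with h | h <;> omega
  refine ⟨h0 * N, Nat.mul_pos hh0 hN0, fun u => ?_⟩
  have hu := H0 u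
  set z := io ((u ^ h0 : (𝓞 K)ˣ) : K) j with hzdef
  set x : ℝ := Complex.arg z with hx
  have hz : (‖z‖ : ℂ) * Complex.exp (x * Complex.I) = z := Complex.norm_mul_exp_arg_mul_I _
  have hxm : x ∈ argSub H j := ⟨u ^ h0, hu, hz.symm⟩
  rw [ha, AddSubgroup.mem_closure_singleton] at hxm
  obtain ⟨k, hk⟩ := hxm
  have hz0 : 0 < ‖z‖ := by rw [hzdef, norm_io, InfinitePlace.pos_iff]; exact unit_ne_zero _
  refine ⟨‖z‖ ^ N, by positivity, ?_⟩
  have h3 : Complex.exp ((N : ℂ) * (x * Complex.I)) = 1 := by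
    have h5 : (n:ℝ) * a = 2 * Real.pi := by rw [← hn]; simp
    have hk' : x = (k:ℝ) * a := by rw [← hk]; simp
    have h6 : ∃ m : ℤ, (N : ℝ) * x = m * (2 * Real.pi) := by
      rcases hN with h | h
      · refine ⟨k, ?_⟩
        rw [hk', ← h5, h]; push_cast; ring
      · refine ⟨-k, ?_⟩
        rw [hk', ← h5, h]; push_cast; ring
    obtain ⟨m, hm⟩ := h6
    have h7 : (N : ℂ) * (x * Complex.I) = m * (2 * Real.pi * Complex.I) := by
      have := congrArg (fun y : ℝ => (y : ℂ)) hm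
      push_cast at this
      rw [← mul_assoc, this]; ring
    rw [h7]; exact Complex.exp_int_mul_two_pi_mul_I m
  rw [pow_mul, ← io_pow_apply, ← hzdef]
  conv_lhs => rw [← hz]
  rw [mul_pow, ← Complex.exp_nat_mul, h3, mul_one]; push_cast; rfl

/-- at an infinite-argument place, units with prescribed direction and large size -/
theorem exists_dir {H : Subgroup (𝓞 K)ˣ} (hK : 1 ≤ Units.rank K) (hH : FE H) {j : InfinitePlace K}
    (hj : ¬ FA j) {θ : ℂ} (hθ : ‖θ‖ = 1) {ε : ℝ} (hε : 0 < ε) (R : ℝ) :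
    ∃ u ∈ H, R < ‖io (u:K) j‖ ∧ ‖io (u:K) j / (‖io (u:K) j‖ : ℂ) - θ‖ < ε := by
  -- direction
  obtain ⟨v, hvH, hv⟩ : ∃ v ∈ H, ‖io (v:K) j / (‖io (v:K) j‖ : ℂ) - θ‖ < ε / 2 := by
    have hcont : Continuous fun x : ℝ => Complex.exp (x * Complex.I) := by fun_prop
    have hopen : IsOpen {x : ℝ | ‖Complex.exp (x * Complex.I) - θ‖ < ε / 2} :=
      isOpen_lt (by fun_prop) continuous_const
    have hne : {x : ℝ | ‖Complex.exp (x * Complex.I) - θ‖ < ε / 2}.Nonempty := by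
      refine ⟨Complex.arg θ, ?_⟩
      have := Complex.norm_mul_exp_arg_mul_I θ
      rw [hθ, Complex.ofReal_one, one_mul] at this
      rw [Set.mem_ofPred_eq, this, sub_self, norm_zero]; linarith
    obtain ⟨x, hx1, ⟨v, hvH, hv⟩⟩ := (dense_arg hH hj).inter_open_nonempty _ hopen hne
    refine ⟨v, hvH, ?_⟩
    have hv0 : (‖io (v:K) j‖ : ℂ) ≠ 0 := by
      rw [Ne, Complex.ofReal_eq_zero, norm_eq_zero]
      intro h0
      have : 0 < ‖io (v:K) j‖ := by rw [norm_io, InfinitePlace.pos_iff]; exact unit_ne_zero v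
      rw [h0, norm_zero] at this
      exact lt_irrefl _ this
    have h1 : io (v:K) j / (‖io (v:K) j‖ : ℂ) = Complex.exp (x * Complex.I) := by
      rw [div_eq_iff hv0]
      conv_lhs => rw [hv]
      ring
    rw [h1]; exact hx1
  obtain ⟨c, hcH, hc1, hc2⟩ := exists_contr_FE hH j hK
  have hvpos : 0 < ‖io (v:K) j‖ := by rw [norm_io, InfinitePlace.pos_iff]; exact unit_ne_zero v
  obtain ⟨K0, hK0⟩ := pow_unbounded_of_one_lt (R / ‖io (v:K) j‖) hc2
  -- recurrence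
  set g : ℂ := io (c:K) j / (‖io (c:K) j‖ : ℂ) with hg
  have hcpos : 0 < ‖io (c:K) j‖ := by linarith
  have hgn : ‖g‖ = 1 := by
    rw [hg, norm_div, Complex.norm_real, norm_norm, div_self hcpos.ne']
  obtain ⟨a, b, hab, hclose⟩ := exists_close (x := fun n : ℕ => g ^ ((K0 + 1) * n))
    (Metric.isBounded_closedBall (x := (0:ℂ)) (r := 1)) (fun n => by
      rw [mem_closedBall_zero_iff, norm_pow, hgn, one_pow]) (half_pos hε)
  obtain ⟨n, hn, rfl⟩ : ∃ n : ℕ, 1 ≤ n ∧ b = a + n := ⟨b - a, by omega, by omega⟩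
  set N := (K0 + 1) * n with hN
  have hNK : K0 ≤ N := by
    calc K0 ≤ (K0 + 1) * 1 := by omega
      _ ≤ (K0 + 1) * n := Nat.mul_le_mul_left _ hn
  have hgN : ‖g ^ N - 1‖ < ε / 2 := by
    rw [dist_eq_norm] at hclose
    have h1 : g ^ ((K0 + 1) * a) - g ^ ((K0 + 1) * (a + n)) = g ^ ((K0 + 1) * a) * (1 - g ^ N) := by
      rw [hN, mul_add (K0 + 1), pow_add]; ring
    rw [h1, norm_mul, norm_pow, hgn, one_pow, one_mul, norm_sub_rev] at hclose
    exact hclose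
  refine ⟨v * c ^ N, H.mul_mem hvH (H.pow_mem hcH _), ?_, ?_⟩
  · rw [unit_mul_coe, map_mul, Pi.mul_apply, norm_mul, io_pow_apply, norm_pow]
    rw [div_lt_iff₀ hvpos] at hK0
    have h1 : ‖io (c:K) j‖ ^ K0 ≤ ‖io (c:K) j‖ ^ N := pow_le_pow_right₀ hc2.le hNK
    have h2 := mul_le_mul_of_nonneg_right h1 hvpos.le
    linarith
  · have h1 : io ((v * c ^ N : (𝓞 K)ˣ) : K) j / (‖io ((v * c ^ N : (𝓞 K)ˣ) : K) j‖ : ℂ)
        = (io (v:K) j / (‖io (v:K) j‖ : ℂ)) * g ^ N := by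
      rw [unit_mul_coe, map_mul, Pi.mul_apply, norm_mul, io_pow_apply, norm_pow, hg]
      push_cast
      rw [div_pow, mul_div_mul_comm]
    rw [h1]
    set f := io (v:K) j / (‖io (v:K) j‖ : ℂ) with hf
    have hfn : ‖f‖ = 1 := by
      rw [hf, norm_div, Complex.norm_real, norm_norm, div_self hvpos.ne']
    calc ‖f * g ^ N - θ‖ = ‖f * (g ^ N - 1) + (f - θ)‖ := by congr 1; ring
      _ ≤ ‖f * (g ^ N - 1)‖ + ‖f - θ‖ := norm_add_le _ _
      _ < ε / 2 + ε / 2 := by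
          rw [norm_mul, hfn, one_mul]
          exact add_lt_add hgN hv
      _ = ε := by ring

end Pool.Agent.EuclW
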