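import Pool.Agent.EuclW.Lim

open NumberField Module IsDedekindDomain nonZeroDivisors Filter Topology

set_option linter.unusedSectionVars false
set_option linter.unusedVariables false

namespace Pool.Agent.EuclW

variable {K : Type*} [Field K] [NumberField K] {𝔭 : HeightOneSpectrum (𝓞 K)}

/-- a uniform power of all units is congruent to 1 -/
theorem unit_pow_cong (m : ℕ) (hm : 1 ≤ m) : ∃ h : ℕ, 1 ≤ h ∧ ∀ u : (𝓞 K)ˣ, ∃ q : 𝓞 K,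
    ((u ^ h : (𝓞 K)ˣ) : 𝓞 K) - 1 = (m : 𝓞 K) * q := by
  set I : Ideal (𝓞 K) := Ideal.span {(m : 𝓞 K)} with hI
  have hI0 : I ≠ ⊥ := by
    rw [hI, Ne, Ideal.span_singleton_eq_bot]
    exact_mod_cast (by omega : m ≠ 0)
  have hfin : Finite (𝓞 K ⧸ I) := Ideal.finiteQuotientOfFreeOfNeBot I hI0
  have hfin2 : Finite (𝓞 K ⧸ I)ˣ := inferInstance
  refine ⟨Nat.card (𝓞 K ⧸ I)ˣ, Nat.card_pos, fun u => ?_⟩
  have h1 : (Units.map (Ideal.Quotient.mk I).toMonoidHom u) ^ (Nat.card (𝓞 K ⧸ I)ˣ) = 1 :=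
    pow_card_eq_one'
  have h2 : Ideal.Quotient.mk I (((u ^ (Nat.card (𝓞 K ⧸ I)ˣ) : (𝓞 K)ˣ) : 𝓞 K) - 1) = 0 := by
    have h3 := congrArg (fun v : (𝓞 K ⧸ I)ˣ => (v : 𝓞 K ⧸ I)) h1
    simp only [Units.val_pow_eq_pow_val, Units.coe_map, Units.val_one] at h3
    rw [map_sub, map_one, Units.val_pow_eq_pow_val, map_pow]
    rw [sub_eq_zero]
    exact h3
  rw [Ideal.Quotient.eq_zero_iff_mem, hI, Ideal.mem_span_singleton] at h2
  obtain ⟨q, hq⟩ := h2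
  exact ⟨q, hq⟩

/-- a natural denominator -/
theorem exists_den (ξ : K) : ∃ m : ℕ, 1 ≤ m ∧ ∃ q : 𝓞 K, (m : K) * ξ = q := by
  obtain ⟨a, b, hb, rfl⟩ := IsFractionRing.div_surjective (A := 𝓞 K) ξ
  have hb0 : b ≠ 0 := nonZeroDivisors.ne_zero hb
  have hbK : (algebraMap (𝓞 K) K b) ≠ 0 := by simpa using hb0
  set I : Ideal (𝓞 K) := Ideal.span {b} with hI
  have h1 : ((Ideal.absNorm I : ℕ) : 𝓞 K) ∈ I := Ideal.absNorm_mem I
  have h2 : Ideal.absNorm I ≠ 0 := by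
    rw [Ne, Ideal.absNorm_eq_zero_iff, hI, Ideal.span_singleton_eq_bot]
    exact hb0
  rw [hI, Ideal.mem_span_singleton] at h1
  obtain ⟨c, hc⟩ := h1
  refine ⟨Ideal.absNorm I, Nat.one_le_iff_ne_zero.2 h2, c * a, ?_⟩
  have h3 : ((Ideal.absNorm I : ℕ) : K) = algebraMap (𝓞 K) K b * algebraMap (𝓞 K) K c := by
    rw [← map_mul, ← hc]; simp [hI]
  rw [h3]
  change _ = algebraMap (𝓞 K) K (c * a)
  rw [map_mul]
  field_simp

/-- for every `ξ`, a uniform power of all units fixes `ξ` modulo integers -/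
theorem exists_period (ξ : K) : ∃ h : ℕ, 1 ≤ h ∧ ∀ u : (𝓞 K)ˣ, ∃ q : 𝓞 K,
    ((u ^ h : (𝓞 K)ˣ) : K) * ξ - ξ = q := by
  obtain ⟨m, hm, a, ha⟩ := exists_den ξ
  obtain ⟨h, hh, H⟩ := unit_pow_cong (K := K) m hm
  refine ⟨h, hh, fun u => ?_⟩
  obtain ⟨q, hq⟩ := H u
  refine ⟨q * a, ?_⟩
  have h1 : ((u ^ h : (𝓞 K)ˣ) : K) - 1 = (m : K) * (q : K) := by
    have := congrArg (algebraMap (𝓞 K) K) hq
    rw [map_sub, map_one, map_mul] at this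
    simpa using this
  have h2 : ((u ^ h : (𝓞 K)ˣ) : K) * ξ - ξ = (((u ^ h : (𝓞 K)ˣ) : K) - 1) * ξ := by ring
  rw [h2, h1]
  change _ = algebraMap (𝓞 K) K (q * a)
  rw [map_mul]
  change _ = (q:K) * (a:K)
  rw [← ha]; ring

/-- The stabilizer of `ξ` modulo integers. -/
def stab (ξ : K) : Subgroup (𝓞 K)ˣ where
  carrier := {u | ∃ q : 𝓞 K, (u : K) * ξ - ξ = q}
  one_mem' := ⟨0, by simp⟩
  mul_mem' := by
    rintro u v ⟨q, hq⟩ ⟨r, hr⟩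
    refine ⟨(u : 𝓞 K) * r + q, ?_⟩
    have : (((u : 𝓞 K) * r + q : 𝓞 K) : K) = (u:K) * r + q := by simp
    rw [this, unit_mul_coe, ← hq, ← hr]; ring
  inv_mem' := by
    rintro u ⟨q, hq⟩
    refine ⟨-((u⁻¹ : (𝓞 K)ˣ) : 𝓞 K) * q, ?_⟩
    have h1 : ((-((u⁻¹ : (𝓞 K)ˣ) : 𝓞 K) * q : 𝓞 K) : K) = - (u:K)⁻¹ * q := by simp
    have h2 : ((u⁻¹ : (𝓞 K)ˣ) : K) = (u:K)⁻¹ := by simp
    rw [h1, h2, ← hq]
    have := unit_ne_zero u
    field_simp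
    ring

theorem unit_zpow_coe (c : (𝓞 K)ˣ) (k : ℤ) : ((c ^ k : (𝓞 K)ˣ) : K) = (c : K) ^ k := by
  have h := congrArg (fun x : Kˣ => (x : K))
    (map_zpow (Units.map (algebraMap (𝓞 K) K : 𝓞 K →* K)) c k)
  simp only [Units.val_zpow_eq_zpow_val, Units.coe_map] at h
  exact h

theorem io_zpow_norm (c : (𝓞 K)ˣ) (k : ℤ) (w : InfinitePlace K) :
    ‖io ((c ^ k : (𝓞 K)ˣ) : K) w‖ = ‖io (c : K) w‖ ^ k := by
  rw [unit_zpow_coe, norm_io, norm_io, map_zpow₀]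

/-- balanced powers -/
theorem exists_zpow_balance {a x s : ℝ} (ha : 1 < a) (hx : 0 < x) (hs : 0 < s) :
    ∃ m : ℤ, s ≤ a ^ m * x ∧ a ^ m * x < s * a := by
  obtain ⟨n, hn1, hn2⟩ := exists_mem_Ico_zpow (x := x / s) (y := a) (by positivity) ha
  have ha0 : 0 < a := by linarith
  refine ⟨-n, ?_, ?_⟩
  · rw [le_div_iff₀ hs] at hn1
    rw [zpow_neg, inv_mul_eq_div, le_div_iff₀ (zpow_pos ha0 _)]
    linarith
  · rw [div_lt_iff₀ hs, zpow_add_one₀ ha0.ne'] at hn2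
    rw [zpow_neg, inv_mul_eq_div, div_lt_iff₀ (zpow_pos ha0 _)]
    linarith

end Pool.Agent.EuclW
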